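import Pool.Agent.Lib.MP_87d05f_lc.ND.Stm

/-!
# Piece [ND cmp]: the list of the components of a finite graph
-/

set_option autoImplicit false

namespace Pool.Agent.Lib.MP_87d05f_lc.ND

theorem p_cmp : S_cmp := by
  classical
  intro V _ G
  haveI : Fintype G.ConnectedComponent := Fintype.ofFinite _
  let F : G.ConnectedComponent → FG := fun C =>
    ⟨Nat.card C.supp, (G.induce C.supp).comap (Finite.equivFin C.supp).symm⟩
  have iso : ∀ C : G.ConnectedComponent, Nonempty ((F C).2 ≃g G.induce C.supp) := fun C =>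
    ⟨SimpleGraph.Iso.comap (Finite.equivFin C.supp).symm (G.induce C.supp)⟩
  refine ⟨(Finset.univ : Finset G.ConnectedComponent).toList.map F, ?_, ?_⟩
  · intro H hH
    obtain ⟨C, _, rfl⟩ := List.mem_map.1 hH
    refine ⟨?_, C, iso C⟩
    obtain ⟨e⟩ := iso C
    exact e.connected_iff.2 C.connected_toSimpleGraph
  · intro C
    refine ⟨F C, List.mem_map.2 ⟨C, by simp, rfl⟩, ?_⟩
    obtain ⟨e⟩ := iso C
    exact ⟨e.symm⟩

end Pool.Agent.Lib.MP_87d05f_lc.ND
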