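import Pool.Agent.Lib.MP_87d05f_lc.ND.Stm

/-!
# Piece [ND cnti]: the numbers of components are invariant under isomorphisms
-/

set_option autoImplicit false

namespace Pool.Agent.Lib.MP_87d05f_lc.ND

theorem cnti_supp {V V' : Type} {G : SimpleGraph V} {G' : SimpleGraph V'} (ψ : G ≃g G')
    (C : G.ConnectedComponent) : (ψ.connectedComponentEquiv C).supp = ψ '' C.supp := by
  induction C using SimpleGraph.ConnectedComponent.ind with
  | _ v =>
    ext x
    simp only [SimpleGraph.ConnectedComponent.mem_supp_iff, Set.mem_image]
    constructor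
    · intro hx
      refine ⟨ψ.symm x, ?_, by simp⟩
      have h1 : G'.connectedComponentMk x = G'.connectedComponentMk (ψ v) := hx
      rw [SimpleGraph.ConnectedComponent.eq] at h1 ⊢
      have h2 := h1.map ψ.symm.toHom
      simpa using h2
    · rintro ⟨y, hy, rfl⟩
      have h1 : G'.connectedComponentMk (ψ y) = G'.connectedComponentMk (ψ v) := by
        rw [SimpleGraph.ConnectedComponent.eq] at hy ⊢
        exact hy.map ψ.toHom
      exact h1

theorem p_cnti : S_cnti := by
  intro V V' G G' φ u s
  let ψ : G.induce {w | w ≠ u} ≃g G'.induce {w | w ≠ φ u} :=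
    { toEquiv := φ.toEquiv.subtypeEquiv (fun a => by simp)
      map_rel_iff' := by
        intro a b
        exact φ.map_adj_iff }
  unfold cnt
  refine Nat.card_congr (Equiv.subtypeEquiv ψ.connectedComponentEquiv ?_)
  intro C
  rw [cnti_supp, Set.ncard_image_of_injective _ ψ.injective]

end Pool.Agent.Lib.MP_87d05f_lc.ND
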