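import Pool.Agent.Lib.MP_87d05f_lc.ND.Stm

set_option autoImplicit false

namespace Pool.Agent.Lib.MP_87d05f_lc.ND

open Pool.Agent.PolyTime Function Turing

lemma copy_mem_tup {T : Type} (l : List T) (k : ℕ) : ∀ t : List T,
    t ∈ tup l k ↔ t.length = k ∧ ∀ x ∈ t, x ∈ l := by
  induction k with
  | zero =>
    intro t
    simp only [tup, List.mem_singleton, List.length_eq_zero_iff]
    constructor
    · rintro rfl; simp
    · rintro ⟨h, _⟩; exact h
  | succ k ih =>
    intro t
    simp only [tup, List.mem_flatMap, List.mem_map, ih]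
    constructor
    · rintro ⟨a, ha, s, ⟨hs, hs2⟩, rfl⟩
      refine ⟨by simp [hs], ?_⟩
      intro x hx
      rcases List.mem_cons.1 hx with h | h
      · rw [h]; exact ha
      · exact hs2 x h
    · rintro ⟨h1, h2⟩
      cases t with
      | nil => simp at h1
      | cons a s =>
        refine ⟨a, h2 a (by simp), s, ⟨by simpa using h1, fun x hx => h2 x (by simp [hx])⟩, rfl⟩

lemma copy_isCopy {T : Type} [DecidableEq T] [Inhabited T] (H : FG) (E : List (T × T))
    (f : Fin H.1 → T) :
    isCopy (patH H) E (List.ofFn f) = true ↔ Injective f ∧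
      ∀ i j, H.2.Adj i j ↔ ((f i, f j) ∈ E ∨ (f j, f i) ∈ E) := by
  classical
  have hget : ∀ i : Fin H.1, (List.ofFn f).getD (i : ℕ) default = f i := by
    intro i
    rw [List.getD_eq_getElem _ _ (by simp)]
    simp
  have key : isCopy (patH H) E (List.ofFn f) = true ↔ ∀ i j : Fin H.1,
      ((i : ℕ) = (j : ℕ) ∨ ¬ f i = f j) ∧
        (decide (H.2.Adj i j) = (decide ((f i, f j) ∈ E) || decide ((f j, f i) ∈ E))) := by
    unfold isCopy patH
    rw [List.all_eq_true]
    constructor
    · intro h i j
      have h1 := h (((i : ℕ), (j : ℕ)), decide (H.2.Adj i j)) (by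
        rw [List.mem_flatMap]
        refine ⟨i, List.mem_finRange i, ?_⟩
        rw [List.mem_map]
        exact ⟨j, List.mem_finRange j, rfl⟩)
      simp only [hget] at h1
      rw [Bool.and_eq_true, Bool.or_eq_true, beq_iff_eq] at h1
      refine ⟨?_, h1.2⟩
      rcases h1.1 with h2 | h2
      · left; exact of_decide_eq_true h2
      · right; simpa using h2
    · intro h r hr
      rw [List.mem_flatMap] at hr
      obtain ⟨i, _, hr⟩ := hr
      rw [List.mem_map] at hr
      obtain ⟨j, _, rfl⟩ := hr
      simp only [hget]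
      rw [Bool.and_eq_true, Bool.or_eq_true, beq_iff_eq]
      refine ⟨?_, (h i j).2⟩
      rcases (h i j).1 with h2 | h2
      · left; exact decide_eq_true h2
      · right; simpa using h2
  rw [key]
  constructor
  · intro h
    refine ⟨?_, ?_⟩
    · intro i j hij
      rcases (h i j).1 with h1 | h1
      · exact Fin.ext h1
      · exact absurd hij h1
    · intro i j
      have h1 := (h i j).2
      rw [← decide_eq_true_iff (p := H.2.Adj i j), h1, Bool.or_eq_true, decide_eq_true_iff,
        decide_eq_true_iff]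
  · rintro ⟨h1, h2⟩ i j
    refine ⟨?_, ?_⟩
    · by_cases hij : i = j
      · left; rw [hij]
      · right; exact fun e => hij (h1 e)
    · rw [Bool.eq_iff_iff, Bool.or_eq_true, decide_eq_true_iff, decide_eq_true_iff,
        decide_eq_true_iff]
      exact h2 i j

theorem p_copy : S_copy := by
  intro T _ _ H E t
  unfold copies
  rw [List.mem_filter, copy_mem_tup]
  constructor
  · rintro ⟨⟨hl, hm⟩, hc⟩
    obtain ⟨f, rfl⟩ : ∃ f : Fin H.1 → T, t = List.ofFn f := by
      refine ⟨fun i => t.get (i.cast hl.symm), ?_⟩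
      apply List.ext_getElem
      · simp [hl]
      · intro n h1 h2
        simp
    rw [copy_isCopy] at hc
    refine ⟨f, hc.1, ?_, hc.2, rfl⟩
    intro i
    have := hm (f i) (by rw [List.mem_ofFn]; exact ⟨i, rfl⟩)
    rwa [mem_ded] at this
  · rintro ⟨f, h1, h2, h3, rfl⟩
    refine ⟨⟨by simp, ?_⟩, ?_⟩
    · intro x hx
      rw [List.mem_ofFn] at hx
      obtain ⟨i, rfl⟩ := hx
      rw [mem_ded]
      exact h2 i
    · rw [copy_isCopy]
      exact ⟨h1, h3⟩

end Pool.Agent.Lib.MP_87d05f_lc.ND
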