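import Pool.Agent.Lib.MP_87d05f_lc.ND.Stm

set_option autoImplicit false

/-!
Project ND, piece `core`: every set of forbidden graphs with edges has a core.
-/

namespace Pool.Agent.Lib.MP_87d05f_lc.ND

/-- a bad list of graphs -/
def core_Bad (FF : Set FG) (L : List FG) : Prop :=
  ∃ F ∈ FF, ∀ C : F.2.ConnectedComponent, ∃ H ∈ L, Nonempty (F.2.induce C.supp ↪g H.2)

theorem core_cnt_fin {V : Type} [Finite V] (G : SimpleGraph V) (u : V) :
    ∃ m, ∀ s, m < s → cnt G u s = 0 := by
  refine ⟨Nat.card V, fun s hs => ?_⟩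
  unfold cnt
  have h : IsEmpty {C : (G.induce {w | w ≠ u}).ConnectedComponent // C.supp.ncard = s} := by
    refine ⟨fun C => ?_⟩
    have h1 : C.1.supp.ncard ≤ Nat.card {w : V | w ≠ u} := Set.ncard_le_card _
    have h2 : Nat.card {w : V | w ≠ u} ≤ Nat.card V := Nat.card_le_card_of_injective
      (Subtype.val) Subtype.val_injective
    have h3 := C.2
    omega
  exact Nat.card_of_isEmpty

/-- an embedding maps components into components -/
theorem core_comp {W V : Type} {F : SimpleGraph W} {G : SimpleGraph V} (f : F ↪g G)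
    (D : F.ConnectedComponent) : ∃ C : G.ConnectedComponent,
      Nonempty (F.induce D.supp ↪g G.induce C.supp) := by
  obtain ⟨x, hx⟩ := D.exists_rep
  refine ⟨G.connectedComponentMk (f x), ⟨⟨⟨fun y => ⟨f y.1, ?_⟩, ?_⟩, ?_⟩⟩⟩
  · have h1 : F.connectedComponentMk y.1 = D := y.2
    have h2 : F.Reachable y.1 x := by
      rw [← SimpleGraph.ConnectedComponent.eq, h1, ← hx]
      rfl
    show G.connectedComponentMk (f y.1) = G.connectedComponentMk (f x)
    rw [SimpleGraph.ConnectedComponent.eq]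
    exact h2.map f.toHom
  · intro y z hyz
    have h1 : f y.1 = f z.1 := congrArg Subtype.val hyz
    exact Subtype.ext (f.injective h1)
  · intro y z
    exact f.map_adj_iff

theorem p_core : S_core := by
  classical
  intro hord hemb hcnti hcmp FF hne hbot
  obtain ⟨Ω, iL, iW, P, hP⟩ := hord
  -- the least value
  have hα : ∀ X : FG, ∃ w : Ω, (∀ u : Fin X.1, w ≤ P (cnt X.2 u)) ∧
      (0 < X.1 → ∃ u : Fin X.1, w = P (cnt X.2 u)) := by
    intro X
    by_cases h : 0 < X.1
    · haveI : Nonempty (Fin X.1) := ⟨⟨0, h⟩⟩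
      obtain ⟨u, hu⟩ := Finite.exists_min (fun u : Fin X.1 => P (cnt X.2 u))
      exact ⟨P (cnt X.2 u), hu, fun _ => ⟨u, rfl⟩⟩
    · exact ⟨P 0, fun u => absurd (lt_of_le_of_lt (Nat.zero_le _) u.2) h, fun h' => absurd h' h⟩
  choose α hα1 hα2 using hα
  -- a minimal bad list
  obtain ⟨F₀, hF₀⟩ := hne
  obtain ⟨L₁, hL₁, hL₁'⟩ := hcmp (Fin F₀.1) F₀.2
  let Q : Multiset Ω → Prop := fun M => ∃ L : List FG, (∀ H ∈ L, H.2.Connected) ∧
    core_Bad FF L ∧ M = (L.map α : Multiset Ω)
  have hwf : WellFounded (Relation.CutExpand (fun a b : Ω => a < b)) :=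
    WellFounded.cutExpand wellFounded_lt
  have hQ : ∃ M, Q M := ⟨_, L₁, fun H hH => (hL₁ H hH).1, ⟨F₀, hF₀, fun C => by
    obtain ⟨H, hH, ⟨φ⟩⟩ := hL₁' C
    exact ⟨H, hH, ⟨φ.toEmbedding⟩⟩⟩, rfl⟩
  obtain ⟨M₀, ⟨L₀, hL₀, ⟨F, hF, hFL⟩, hM₀⟩, hmin⟩ := hwf.has_min {M | Q M} hQ
  have hmin' : ∀ (L' : List FG) (t : Multiset Ω) (a : Ω), (∀ H ∈ L', H.2.Connected) →
      core_Bad FF L' → (∀ a' ∈ t, a' < a) →
      (L'.map α : Multiset Ω) + {a} = (L₀.map α : Multiset Ω) + t → False := by
    intro L' t a h1 h2 h3 h4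
    refine hmin (L'.map α : Multiset Ω) ⟨L', h1, h2, rfl⟩ ?_
    refine ⟨t, a, h3, ?_⟩
    rw [hM₀]
    exact h4
  -- an edge
  obtain ⟨x, y, hxy⟩ : ∃ x y, F.2.Adj x y := by
    by_contra hcon
    push Not at hcon
    apply hbot F hF
    ext a b
    simp [hcon a b]
  obtain ⟨J, hJ, ⟨ej⟩⟩ := hFL (F.2.connectedComponentMk x)
  have hJ2 : 2 ≤ J.1 := by
    have hy : y ∈ (F.2.connectedComponentMk x).supp := by
      show F.2.connectedComponentMk y = F.2.connectedComponentMk x
      rw [SimpleGraph.ConnectedComponent.eq]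
      exact hxy.symm.reachable
    have h1 : ej ⟨x, rfl⟩ ≠ ej ⟨y, hy⟩ := by
      intro h
      have := ej.injective h
      have h2 : x = y := congrArg Subtype.val this
      exact hxy.ne h2
    have h2 : (ej ⟨x, rfl⟩).1 ≠ (ej ⟨y, hy⟩).1 := fun h => h1 (Fin.ext h)
    have h3 := (ej ⟨x, rfl⟩).2
    have h4 := (ej ⟨y, hy⟩).2
    omega
  have hall : ∀ H ∈ L₀, 2 ≤ H.1 := by
    intro H hH
    by_contra hcon
    obtain ⟨A, B, hAB⟩ := List.append_of_mem hH
    have hJ' : J ∈ A ++ B := by
      rw [hAB] at hJ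
      simp only [List.mem_append, List.mem_cons] at hJ ⊢
      rcases hJ with h | h | h
      · exact Or.inl h
      · rw [h] at hJ2
        exact absurd hJ2 hcon
      · exact Or.inr h
    refine hmin' (A ++ B) 0 (α H) ?_ ⟨F, hF, ?_⟩ (by simp) ?_
    · intro X hX
      apply hL₀
      rw [hAB]
      simp only [List.mem_append, List.mem_cons] at hX ⊢
      tauto
    · intro C
      obtain ⟨X, hX, ⟨e⟩⟩ := hFL C
      by_cases hXe : X = H
      · subst hXe
        refine ⟨J, hJ', ⟨⟨⟨fun _ => ⟨0, by omega⟩, ?_⟩, ?_⟩⟩⟩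
        · intro a b _
          apply e.injective
          apply Fin.ext
          have h1 := (e a).2
          have h2 := (e b).2
          omega
        · intro a b
          have hab : a = b := by
            apply e.injective
            apply Fin.ext
            have h1 := (e a).2
            have h2 := (e b).2
            omega
          subst hab
          simp
      · refine ⟨X, ?_, ⟨e⟩⟩
        rw [hAB] at hX
        simp only [List.mem_append, List.mem_cons] at hX ⊢
        tauto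
    · rw [hAB]
      simp only [List.map_append, List.map_cons, add_zero]
      rw [← Multiset.coe_singleton, Multiset.coe_add, Multiset.coe_eq_coe]
      simp only [List.append_assoc]
      refine List.Perm.append_left _ ?_
      exact List.perm_append_comm
  obtain ⟨A, B, hAB⟩ := List.append_of_mem hJ
  obtain ⟨c, hc⟩ := hα2 J (by omega)
  refine ⟨J, c, A ++ B, F.1, ?_⟩
  have hsub : ∀ X ∈ A ++ B, X ∈ L₀ := by
    intro X hX
    rw [hAB]
    simp only [List.mem_append, List.mem_cons] at hX ⊢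
    tauto
  refine ⟨hL₀ J hJ, hJ2, fun H hH => ⟨hL₀ H (hsub H hH), hall H (hsub H hH)⟩, ?_, ?_, ?_⟩
  · exact lt_of_le_of_lt (Nat.zero_le _) x.2
  · intro V _ G hG H hH
    refine ⟨fun f => ?_⟩
    obtain ⟨M, hM1, hM2⟩ := hcmp V G
    set M' := M.filter (fun X => decide (∃ u, MLt (cnt X.2 u) (cnt J.2 c))) with hM'
    refine hmin' (M' ++ (A ++ B)) (M'.map α : Multiset Ω) (α J) ?_ ⟨H, hH, ?_⟩ ?_ ?_
    · intro X hX
      rcases List.mem_append.1 hX with h | h
      · exact (hM1 X (List.mem_filter.1 h).1).1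
      · exact hL₀ X (hsub X h)
    · intro D
      obtain ⟨C, ⟨g⟩⟩ := core_comp f D
      rcases hG C with ⟨X, hX, ⟨φ⟩⟩ | ⟨u, hu⟩
      · exact ⟨X, List.mem_append_right _ hX, ⟨φ.toEmbedding.comp g⟩⟩
      · obtain ⟨X, hX, ⟨φ⟩⟩ := hM2 C
        refine ⟨X, List.mem_append_left _ ?_, ⟨φ.toEmbedding.comp g⟩⟩
        rw [hM', List.mem_filter]
        refine ⟨hX, ?_⟩
        simp only [decide_eq_true_eq]
        refine ⟨φ u, ?_⟩
        have h1 : cnt X.2 (φ u) = cnt (G.induce C.supp) u := by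
          funext s
          exact (hcnti _ _ _ _ φ u s).symm
        rw [h1]
        exact hu
    · intro a' ha'
      rw [Multiset.mem_coe, List.mem_map] at ha'
      obtain ⟨X, hX, rfl⟩ := ha'
      rw [hM', List.mem_filter] at hX
      obtain ⟨hX1, hX2⟩ := hX
      simp only [decide_eq_true_eq] at hX2
      obtain ⟨u, hu⟩ := hX2
      refine lt_of_le_of_lt (hα1 X u) ?_
      rw [hc]
      exact hP _ _ (core_cnt_fin _ _) (core_cnt_fin _ _) hu
    · rw [hAB]
      simp only [List.map_append, List.map_cons]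
      rw [← Multiset.coe_singleton, Multiset.coe_add, Multiset.coe_add, Multiset.coe_eq_coe]
      simp only [List.append_assoc]
      rw [List.perm_iff_count]
      intro a
      simp only [List.count_append, List.count_cons, List.count_nil]
      omega
  · intro V G ψ hψ
    refine ⟨F, hF, hemb F V G (J :: (A ++ B)) ψ hψ ?_⟩
    intro C
    obtain ⟨X, hX, he⟩ := hFL C
    refine ⟨X, ?_, he⟩
    rw [hAB] at hX
    simp only [List.mem_append, List.mem_cons] at hX ⊢
    tauto

end Pool.Agent.Lib.MP_87d05f_lc.ND
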