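import Pool.Agent.Lib.MP_87d05f_lc.ND.Stm

set_option autoImplicit false

/-!
# [ND emb] copies of the components give a copy of the graph
-/

namespace Pool.Agent.Lib.MP_87d05f_lc.ND

open Function

/-- independent copies of the fibres of a locally constant map give a copy of the graph -/
theorem emb_gen {A κ V : Type} (F : SimpleGraph A) (comp : A → κ)
    (hadj : ∀ x y, F.Adj x y → comp x = comp y) (G : SimpleGraph V)
    (θ : (C : κ) → ((F.induce {x | comp x = C}) ↪g G))
    (hind : ∀ C C', C ≠ C' → ∀ x y, θ C x ≠ θ C' y ∧ ¬ G.Adj (θ C x) (θ C' y)) :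
    Nonempty (F ↪g G) := by
  have key : ∀ (x : A) (C : κ) (hx : comp x = C), θ (comp x) ⟨x, rfl⟩ = θ C ⟨x, hx⟩ := by
    intro x C hx
    subst hx
    rfl
  refine ⟨⟨⟨fun x => θ (comp x) ⟨x, rfl⟩, ?_⟩, ?_⟩⟩
  · intro x y hxy
    by_cases h : comp x = comp y
    · have h1 : θ (comp y) ⟨x, h⟩ = θ (comp y) ⟨y, rfl⟩ := (key x (comp y) h).symm.trans hxy
      have h2 := (θ (comp y)).injective h1
      exact congrArg Subtype.val h2
    · exact absurd hxy (hind _ _ h _ _).1
  · intro x y
    show G.Adj (θ (comp x) ⟨x, rfl⟩) (θ (comp y) ⟨y, rfl⟩) ↔ F.Adj x y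
    by_cases h : comp x = comp y
    · rw [key x (comp y) h, (θ (comp y)).map_adj_iff]
      exact Iff.rfl
    · constructor
      · intro h1
        exact absurd h1 (hind _ _ h _ _).2
      · intro h1
        exact absurd (hadj x y h1) h

/-- [ND emb] -/
theorem p_emb : S_emb := by
  intro F V G L ψ hψ hC
  have h1 : ∀ C : F.2.ConnectedComponent, ∃ x : Fin F.1, F.2.connectedComponentMk x = C :=
    fun C => C.exists_rep
  choose r hr using h1
  have h2 : ∀ C : F.2.ConnectedComponent, ∃ i : Fin L.length,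
      Nonempty (F.2.induce C.supp ↪g (L.get i).2) := by
    intro C
    obtain ⟨H, hH, he⟩ := hC C
    obtain ⟨i, rfl⟩ := List.mem_iff_get.mp hH
    exact ⟨i, he⟩
  choose i hi using h2
  refine emb_gen F.2 F.2.connectedComponentMk
    (fun x y h => SimpleGraph.ConnectedComponent.connectedComponentMk_eq_of_adj h) G
    (fun C => (ψ (r C, i C)).comp (hi C).some) ?_
  intro C C' hne x y
  have hp : (r C, i C) ≠ (r C', i C') := by
    intro h
    apply hne
    rw [← hr C, ← hr C', (Prod.mk.inj h).1]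
  exact hψ _ _ hp _ _

end Pool.Agent.Lib.MP_87d05f_lc.ND
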