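import Pool.Agent.Lib.MP_87d05f_lc.ND.Stm

set_option autoImplicit false

/-!
# Piece gadj: the edges of the gadget graph
-/

namespace Pool.Agent.Lib.MP_87d05f_lc.ND

open Pool.Agent.PolyTime Function Turing

private lemma gadj_mem_edgesOf (H : FG) (a b : ℕ) :
    (a, b) ∈ edgesOf H ↔ ∃ x y : Fin H.1, x < y ∧ H.2.Adj x y ∧ a = (x : ℕ) ∧ b = (y : ℕ) := by
  classical
  unfold edgesOf
  simp only [List.mem_flatMap, List.mem_map, List.mem_filter, List.mem_finRange, true_and,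
    decide_eq_true_eq, Prod.mk.injEq]
  constructor
  · rintro ⟨x, y, ⟨h1, h2⟩, rfl, rfl⟩
    exact ⟨x, y, h1, h2, rfl, rfl⟩
  · rintro ⟨x, y, h1, h2, rfl, rfl⟩
    exact ⟨x, y, ⟨h1, h2⟩, rfl, rfl⟩

private lemma gadj_mem_tabV (J : FG) (c d : ℕ) (C : ℕ → Bool) (s t : Slt) :
    (s, t) ∈ tabV J c d C ↔ ∃ x y : Fin J.1, x < y ∧ J.2.Adj x y ∧ C x = false ∧ C y = false ∧
      s = slotJ c d C x ∧ t = slotJ c d C y := by
  unfold tabV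
  simp only [List.mem_map, List.mem_filter, Prod.exists, gadj_mem_edgesOf, Prod.mk.injEq,
    Bool.and_eq_true, Bool.not_eq_true']
  constructor
  · rintro ⟨a, b, ⟨⟨x, y, h1, h2, rfl, rfl⟩, h3, h4⟩, rfl, rfl⟩
    exact ⟨x, y, h1, h2, h3, h4, rfl, rfl⟩
  · rintro ⟨x, y, h1, h2, h3, h4, rfl, rfl⟩
    exact ⟨x, y, ⟨⟨x, y, h1, h2, rfl, rfl⟩, h3, h4⟩, rfl, rfl⟩

private lemma gadj_mem_tabE (J : FG) (c d : ℕ) (C : ℕ → Bool) (L : List FG) (s t : Slt) :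
    (s, t) ∈ tabE J c d C L ↔
      (∃ x y : Fin J.1, x < y ∧ J.2.Adj x y ∧ (C x = true ∨ C y = true) ∧
        s = slotJ c d C x ∧ t = slotJ c d C y) ∨
      (∃ (i : Fin L.length) (x y : Fin (L.get i).1), x < y ∧ (L.get i).2.Adj x y ∧
        s = (4 + (i : ℕ), (x : ℕ)) ∧ t = (4 + (i : ℕ), (y : ℕ))) := by
  unfold tabE
  rw [List.mem_append]
  refine or_congr ?_ ?_
  · simp only [List.mem_map, List.mem_filter, Prod.exists, gadj_mem_edgesOf, Prod.mk.injEq,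
      Bool.or_eq_true]
    constructor
    · rintro ⟨a, b, ⟨⟨x, y, h1, h2, rfl, rfl⟩, h3⟩, rfl, rfl⟩
      exact ⟨x, y, h1, h2, h3, rfl, rfl⟩
    · rintro ⟨x, y, h1, h2, h3, rfl, rfl⟩
      exact ⟨x, y, ⟨⟨x, y, h1, h2, rfl, rfl⟩, h3⟩, rfl, rfl⟩
  · simp only [List.mem_flatMap, List.mem_map]
    constructor
    · rintro ⟨Hi, hi, ⟨a, b⟩, hab, heq⟩
      rw [List.mem_zipIdx_iff_getElem?] at hi
      obtain ⟨hi1, hi2⟩ := List.getElem?_eq_some_iff.1 hi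
      have hH : Hi = (L.get ⟨Hi.2, hi1⟩, Hi.2) := Prod.ext hi2.symm rfl
      generalize hn : Hi.2 = n at hi1 hH
      subst hH
      rw [gadj_mem_edgesOf] at hab
      obtain ⟨rfl, rfl⟩ := Prod.mk.injEq _ _ _ _ ▸ heq
      obtain ⟨x, y, h1, h2, rfl, rfl⟩ := hab
      exact ⟨⟨n, hi1⟩, x, y, h1, h2, rfl, rfl⟩
    · rintro ⟨i, x, y, h1, h2, rfl, rfl⟩
      refine ⟨(L.get i, (i : ℕ)), ?_, ((x : ℕ), (y : ℕ)),
        (gadj_mem_edgesOf _ _ _).2 ⟨x, y, h1, h2, rfl, rfl⟩, rfl⟩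
      rw [List.mem_zipIdx_iff_getElem?]
      exact List.getElem?_eq_getElem i.2

private lemma gadj_mem_gad {V : Type} [DecidableEq V] (J : FG) (c d : Fin J.1) (C : ℕ → Bool)
    (L : List FG) (B : List (V × V)) (p q : GV V) :
    (p, q) ∈ gad J c d C L B ↔
    (∃ u ∈ ends B, ∃ x y : Fin J.1, x < y ∧ J.2.Adj x y ∧ C x = false ∧ C y = false ∧
      p = plJ J c d C u u x ∧ q = plJ J c d C u u y) ∨
    (∃ e ∈ B, ∃ x y : Fin J.1, x < y ∧ J.2.Adj x y ∧ (C x = true ∨ C y = true) ∧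
      p = plJ J c d C e.1 e.2 x ∧ q = plJ J c d C e.1 e.2 y) ∨
    (∃ e ∈ B, ∃ (i : Fin L.length) (x y : Fin (L.get i).1), x < y ∧ (L.get i).2.Adj x y ∧
      p = (4 + (i : ℕ), (x : ℕ), e.1, e.2) ∧ q = (4 + (i : ℕ), (y : ℕ), e.1, e.2)) := by
  have hpl : ∀ (u v : V) (i x : ℕ), place u v (4 + i, x) = (4 + i, x, u, v) := by
    intro u v i x
    have h0 : ¬ (4 + i = 0) := by omega
    have h1 : ¬ (4 + i = 1) := by omega
    have h3 : ¬ (4 + i = 3) := by omega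
    simp [place, h1, h3]
  unfold gad gadT
  rw [List.mem_append]
  refine or_congr ?_ ?_
  · simp only [List.mem_flatMap, List.mem_map, mem_ded]
    constructor
    · rintro ⟨u, hu, ⟨s, t⟩, hst, heq⟩
      rw [gadj_mem_tabV] at hst
      obtain ⟨rfl, rfl⟩ := Prod.mk.injEq _ _ _ _ ▸ heq
      obtain ⟨x, y, h1, h2, h3, h4, rfl, rfl⟩ := hst
      exact ⟨u, hu, x, y, h1, h2, h3, h4, rfl, rfl⟩
    · rintro ⟨u, hu, x, y, h1, h2, h3, h4, rfl, rfl⟩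
      exact ⟨u, hu, (_, _), (gadj_mem_tabV _ _ _ _ _ _).2 ⟨x, y, h1, h2, h3, h4, rfl, rfl⟩, rfl⟩
  · simp only [List.mem_flatMap, List.mem_map]
    constructor
    · rintro ⟨e, he, ⟨s, t⟩, hst, heq⟩
      rw [gadj_mem_tabE] at hst
      obtain ⟨rfl, rfl⟩ := Prod.mk.injEq _ _ _ _ ▸ heq
      rcases hst with ⟨x, y, h1, h2, h3, rfl, rfl⟩ | ⟨i, x, y, h1, h2, rfl, rfl⟩
      · exact Or.inl ⟨e, he, x, y, h1, h2, h3, rfl, rfl⟩
      · exact Or.inr ⟨e, he, i, x, y, h1, h2, hpl _ _ _ _, hpl _ _ _ _⟩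
    · rintro (⟨e, he, x, y, h1, h2, h3, rfl, rfl⟩ | ⟨e, he, i, x, y, h1, h2, rfl, rfl⟩)
      · exact ⟨e, he, (_, _), (gadj_mem_tabE _ _ _ _ _ _ _).2
          (Or.inl ⟨x, y, h1, h2, h3, rfl, rfl⟩), rfl⟩
      · exact ⟨e, he, (_, _), (gadj_mem_tabE _ _ _ _ _ _ _).2
          (Or.inr ⟨i, x, y, h1, h2, rfl, rfl⟩), by rw [hpl, hpl]⟩

theorem p_gadj : S_gadj := by
  intro J c d C L V _ B p q
  unfold adjL
  rw [gadj_mem_gad, gadj_mem_gad]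
  constructor
  · rintro ((⟨u, hu, x, y, h1, h2, h3, h4, rfl, rfl⟩ | ⟨e, he, x, y, h1, h2, h3, rfl, rfl⟩ |
      ⟨e, he, i, x, y, h1, h2, rfl, rfl⟩) | (⟨u, hu, x, y, h1, h2, h3, h4, rfl, rfl⟩ |
      ⟨e, he, x, y, h1, h2, h3, rfl, rfl⟩ | ⟨e, he, i, x, y, h1, h2, rfl, rfl⟩))
    · exact Or.inl ⟨u, hu, x, y, h2, h3, h4, rfl, rfl⟩
    · exact Or.inr (Or.inl ⟨e, he, x, y, h2, h3, rfl, rfl⟩)
    · exact Or.inr (Or.inr ⟨e, he, i, x, y, h2, rfl, rfl⟩)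
    · exact Or.inl ⟨u, hu, y, x, h2.symm, h4, h3, rfl, rfl⟩
    · exact Or.inr (Or.inl ⟨e, he, y, x, h2.symm, h3.symm, rfl, rfl⟩)
    · exact Or.inr (Or.inr ⟨e, he, i, y, x, h2.symm, rfl, rfl⟩)
  · rintro (⟨u, hu, x, y, h2, h3, h4, rfl, rfl⟩ | ⟨e, he, x, y, h2, h3, rfl, rfl⟩ |
      ⟨e, he, i, x, y, h2, rfl, rfl⟩)
    · rcases lt_or_gt_of_ne h2.ne with h | h
      · exact Or.inl (Or.inl ⟨u, hu, x, y, h, h2, h3, h4, rfl, rfl⟩)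
      · exact Or.inr (Or.inl ⟨u, hu, y, x, h, h2.symm, h4, h3, rfl, rfl⟩)
    · rcases lt_or_gt_of_ne h2.ne with h | h
      · exact Or.inl (Or.inr (Or.inl ⟨e, he, x, y, h, h2, h3, rfl, rfl⟩))
      · exact Or.inr (Or.inr (Or.inl ⟨e, he, y, x, h, h2.symm, h3.symm, rfl, rfl⟩))
    · rcases lt_or_gt_of_ne h2.ne with h | h
      · exact Or.inl (Or.inr (Or.inr ⟨e, he, i, x, y, h, h2, rfl, rfl⟩))
      · exact Or.inr (Or.inr (Or.inr ⟨e, he, i, y, x, h, h2.symm, rfl, rfl⟩))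

end Pool.Agent.Lib.MP_87d05f_lc.ND
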