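import Pool.Agent.Lib.MP_87d05f_lc.ND.Stm

set_option autoImplicit false

/-!
# Project ND, piece gdeg: degrees and number of vertices of the gadget graph
-/

namespace Pool.Agent.Lib.MP_87d05f_lc.ND

open Pool.Agent.PolyTime Function Turing

private theorem gdeg_cnt {α β : Type} [BEq β] [LawfulBEq β] (f : α → List β) (p : β) (P : α → Bool)
    (m : ℕ) : ∀ l : List α, (∀ u ∈ l, (f u).count p ≤ m) →
    (∀ u ∈ l, P u = false → (f u).count p = 0) → (l.flatMap f).count p ≤ m * l.countP P := by
  intro l
  induction l with
  | nil => intro _ _; simp
  | cons u l ih =>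
    intro h1 h0
    have hi := ih (fun v hv => h1 v (List.mem_cons_of_mem _ hv))
      (fun v hv => h0 v (List.mem_cons_of_mem _ hv))
    rw [List.flatMap_cons, List.count_append, List.countP_cons]
    cases hP : P u
    · rw [h0 u List.mem_cons_self hP]
      simpa using hi
    · have := h1 u List.mem_cons_self
      simp only [if_true]
      rw [Nat.mul_add, Nat.mul_one]
      omega

private theorem gdeg_len {T : Type} (E : List (T × T)) : (ends E).length = 2 * E.length := by
  unfold ends
  induction E with
  | nil => rfl
  | cons e E ih =>
    rw [List.flatMap_cons, List.length_append, ih, List.length_cons]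
    simp only [List.length_cons, List.length_nil]
    ring

private theorem gdeg_place {V : Type} (u v : V) (s : Slt) :
    (place u v s).2.2.1 = u ∨ (place u v s).2.2.1 = v := by
  unfold place
  by_cases h0 : s.1 = 0
  · left; simp [h0]
  · by_cases h1 : s.1 = 1
    · right; simp [h1]
    · by_cases h3 : s.1 = 3
      · left; simp [h3]
      · left; simp [h0, h1, h3]

private theorem gdeg_mem {V : Type} {te : List (Slt × Slt)} {u v : V} {p : GV V}
    (h : p ∈ ends (te.map (fun s => (place u v s.1, place u v s.2)))) :
    p.2.2.1 = u ∨ p.2.2.1 = v := by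
  unfold ends at h
  rw [List.mem_flatMap] at h
  obtain ⟨e, he, hp⟩ := h
  obtain ⟨s, _, rfl⟩ := List.mem_map.1 he
  simp only [List.mem_cons, List.not_mem_nil, or_false] at hp
  rcases hp with rfl | rfl
  · exact gdeg_place _ _ _
  · exact gdeg_place _ _ _

private theorem gdeg_lenm {V : Type} (te : List (Slt × Slt)) (u v : V) :
    (ends (te.map (fun s => (place u v s.1, place u v s.2)))).length = 2 * te.length := by
  rw [gdeg_len, List.length_map]

private theorem gdeg_range (K κ : ℕ) : (List.range K).countP (fun i => decide (i = κ)) ≤ 1 := by
  have h : (List.range K).countP (fun i => decide (i = κ)) = (List.range K).count κ := by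
    rw [List.count]
    apply List.countP_congr
    intro i _
    simp
  rw [h]
  exact List.nodup_iff_count_le_one.1 List.nodup_range κ

private theorem gdeg_ends_flatMap {α T : Type} (f : α → List (T × T)) (l : List α) :
    ends (l.flatMap f) = l.flatMap (fun a => ends (f a)) := by
  unfold ends
  rw [List.flatMap_assoc]

private theorem gdeg_ends_map {S T : Type} (g : S → T) (E : List (S × S)) :
    ends (E.map (fun e => (g e.1, g e.2))) = (ends E).map g := by
  unfold ends
  induction E with
  | nil => rfl
  | cons e E ih =>
    rw [List.map_cons, List.flatMap_cons, List.flatMap_cons, List.map_append, ← ih]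
    rfl

private theorem gdeg_cop {V : Type} [DecidableEq V] (K : ℕ) (B : List (V × V)) (κ : ℕ) (v : V) :
    (ends (cop K B)).count (κ, v) ≤ (ends B).count v := by
  unfold cop
  rw [gdeg_ends_flatMap]
  have h := gdeg_cnt (fun i : ℕ => ends (B.map (fun e => ((i, e.1), (i, e.2))))) (κ, v)
    (fun i => decide (i = κ)) ((ends B).count v) (List.range K) ?_ ?_
  · refine h.trans ?_
    calc _ ≤ (ends B).count v * 1 := Nat.mul_le_mul_left _ (gdeg_range K κ)
      _ = _ := Nat.mul_one _
  · intro i _
    rw [gdeg_ends_map (fun w : V => (i, w)) B]
    by_cases hi : i = κ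
    · subst hi
      have : Function.Injective (fun w : V => (i, w)) := fun a b hab => (Prod.mk.inj hab).2
      rw [List.count_map_of_injective _ _ this]
    · rw [List.count_eq_zero_of_not_mem]
      · exact Nat.zero_le _
      · intro hm
        obtain ⟨w, _, hw⟩ := List.mem_map.1 hm
        exact hi (Prod.mk.inj hw).1
  · intro i _ hi
    have hi' : i ≠ κ := of_decide_eq_false hi
    rw [gdeg_ends_map (fun w : V => (i, w)) B]
    apply List.count_eq_zero_of_not_mem
    intro hm
    obtain ⟨w, _, hw⟩ := List.mem_map.1 hm
    exact hi' (Prod.mk.inj hw).1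

private theorem gdeg_coplen {V : Type} (K : ℕ) (B : List (V × V)) :
    (cop K B).length = K * B.length := by
  unfold cop
  rw [List.length_flatMap]
  simp

private theorem gdeg_edges {T : Type} [BEq T] [LawfulBEq T] (v : T) (E : List (T × T)) :
    E.countP (fun e => (e.1 == v) || (e.2 == v)) ≤ (ends E).count v := by
  unfold ends
  induction E with
  | nil => simp
  | cons e E ih =>
    rw [List.flatMap_cons, List.count_append, List.countP_cons, List.count_cons, List.count_cons,
      List.count_nil]
    cases h1 : (e.1 == v) <;> cases h2 : (e.2 == v) <;>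
      simp only [Bool.or_false, Bool.or_true, Bool.false_eq_true,
        if_true, if_false] <;> omega

theorem p_gdeg : S_gdeg := by
  intro tv te
  refine ⟨4 * tv.length + 2 * te.length, ?_⟩
  intro V _ B K Δ hΔ
  refine ⟨?_, ?_⟩
  · rintro p
    have hE : ends (gadT tv te (cop K B)) =
        (ded (ends (cop K B))).flatMap
          (fun u => ends (tv.map (fun s => (place u u s.1, place u u s.2)))) ++
        (cop K B).flatMap
          (fun e => ends (te.map (fun s => (place e.1 e.2 s.1, place e.1 e.2 s.2)))) := by
      unfold gadT
      rw [← gdeg_ends_flatMap, ← gdeg_ends_flatMap]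
      unfold ends
      rw [List.flatMap_append]
    rw [hE, List.count_append]
    have h1 := gdeg_cnt (fun u : ℕ × V => ends (tv.map (fun s => (place u u s.1, place u u s.2))))
      p (fun u => decide (u = p.2.2.1)) (2 * tv.length) (ded (ends (cop K B)))
      (fun u _ => (List.count_le_length).trans (le_of_eq (gdeg_lenm tv u u)))
      (fun u _ hu => by
        apply List.count_eq_zero_of_not_mem
        intro hm
        rcases gdeg_mem hm with h | h
        · exact of_decide_eq_false hu h.symm
        · exact of_decide_eq_false hu h.symm)
    have h1' : (ded (ends (cop K B))).countP (fun u => decide (u = p.2.2.1)) ≤ 1 := by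
      have h : (ded (ends (cop K B))).countP (fun u => decide (u = p.2.2.1)) =
          (ded (ends (cop K B))).count p.2.2.1 := by
        rw [List.count]
        apply List.countP_congr
        intro i _
        simp
      rw [h]
      exact List.nodup_iff_count_le_one.1 (nodup_ded _) _
    have h2 := gdeg_cnt
      (fun e : (ℕ × V) × (ℕ × V) => ends (te.map (fun s => (place e.1 e.2 s.1, place e.1 e.2 s.2))))
      p (fun e => (e.1 == p.2.2.1) || (e.2 == p.2.2.1)) (2 * te.length) (cop K B)
      (fun e _ => (List.count_le_length).trans (le_of_eq (gdeg_lenm te e.1 e.2)))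
      (fun e _ he => by
        apply List.count_eq_zero_of_not_mem
        intro hm
        rw [Bool.or_eq_false_iff, beq_eq_false_iff_ne, beq_eq_false_iff_ne] at he
        rcases gdeg_mem hm with h | h
        · exact he.1 h.symm
        · exact he.2 h.symm)
    have h2' : (cop K B).countP (fun e => (e.1 == p.2.2.1) || (e.2 == p.2.2.1)) ≤ Δ :=
      (gdeg_edges _ _).trans ((gdeg_cop K B _ _).trans (hΔ _))
    have h3 : 2 * tv.length * (ded (ends (cop K B))).countP (fun u => decide (u = p.2.2.1)) ≤
        2 * tv.length := by
      calc _ ≤ 2 * tv.length * 1 := Nat.mul_le_mul_left _ h1'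
        _ = _ := Nat.mul_one _
    have h4 : 2 * te.length *
        (cop K B).countP (fun e => (e.1 == p.2.2.1) || (e.2 == p.2.2.1)) ≤
        2 * te.length * Δ := Nat.mul_le_mul_left _ h2'
    have h5 : (4 * tv.length + 2 * te.length) * (Δ + 1) =
        4 * tv.length * Δ + 4 * tv.length + 2 * te.length * Δ + 2 * te.length := by ring
    rw [h5]
    have h6 : 0 ≤ 4 * tv.length * Δ := Nat.zero_le _
    omega
  · have h0 : (gadT tv te (cop K B)).length =
        (ded (ends (cop K B))).length * tv.length + (cop K B).length * te.length := by
      unfold gadT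
      rw [List.length_append, List.length_flatMap, List.length_flatMap]
      simp
    have h1 : (ded (ends (cop K B))).length ≤ 2 * (K * B.length) := by
      rw [ded_length, ← gdeg_coplen K B, ← gdeg_len]
      exact List.toFinset_card_le _
    have h2 : nv (gadT tv te (cop K B)) ≤ 2 * (gadT tv te (cop K B)).length := by
      unfold nv
      rw [← gdeg_len]
      exact List.toFinset_card_le _
    rw [h0, gdeg_coplen] at h2
    have h3 : (ded (ends (cop K B))).length * tv.length ≤ 2 * (K * B.length) * tv.length :=
      Nat.mul_le_mul_right _ h1
    have h4 : (4 * tv.length + 2 * te.length) * (K * B.length) =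
        2 * (2 * (K * B.length) * tv.length + K * B.length * te.length) := by ring
    rw [h4]
    refine h2.trans (Nat.mul_le_mul_left _ ?_)
    omega

end Pool.Agent.Lib.MP_87d05f_lc.ND
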