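import Pool.Agent.Lib.MP_87d05f_lc.ND.Stm

set_option autoImplicit false

/-!
# Project ND, piece gemb: embeddings of `J` and of the members of `L` into the gadget graph
-/

namespace Pool.Agent.Lib.MP_87d05f_lc.ND

open Pool.Agent.PolyTime Function Turing

private theorem gemb_cases {V : Type} (J : FG) (c d : Fin J.1) (C : ℕ → Bool) (hdc : d ≠ c)
    (x : Fin J.1) :
    (x = c ∧ ∀ u v : V, plJ J c d C u v x = (0, 0, u, u)) ∨
    (x = d ∧ ∀ u v : V, plJ J c d C u v x = (0, 0, v, v)) ∨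
    (x ≠ c ∧ x ≠ d ∧ C x = true ∧ ∀ u v : V, plJ J c d C u v x = (2, (x : ℕ), u, v)) ∨
    (x ≠ c ∧ x ≠ d ∧ C x = false ∧ ∀ u v : V, plJ J c d C u v x = (3, (x : ℕ), u, u)) := by
  by_cases hc : x = c
  · left
    refine ⟨hc, fun u v => ?_⟩
    subst hc
    simp [plJ, slotJ, place]
  · have h1 : (x : ℕ) ≠ c := fun e => hc (Fin.ext e)
    right
    by_cases hd : x = d
    · left
      refine ⟨hd, fun u v => ?_⟩
      subst hd
      simp [plJ, slotJ, place, h1]
    · have h2 : (x : ℕ) ≠ d := fun e => hd (Fin.ext e)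
      right
      cases hC : C x
      · right
        refine ⟨hc, hd, rfl, fun u v => ?_⟩
        simp [plJ, slotJ, place, h1, h2, hC]
      · left
        refine ⟨hc, hd, rfl, fun u v => ?_⟩
        simp [plJ, slotJ, place, h1, h2, hC]

private theorem gemb_ends {T : Type} {E : List (T × T)} {p q : T} (h : adjL E p q) :
    p ∈ ends E := by
  unfold ends
  rw [List.mem_flatMap]
  rcases h with h | h
  · exact ⟨(p, q), h, by simp⟩
  · exact ⟨(q, p), h, by simp⟩

private theorem gemb_nb {n : ℕ} (G : SimpleGraph (Fin n)) (hG : G.Connected) (hn : 2 ≤ n)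
    (x : Fin n) : ∃ y, G.Adj x y := by
  have : Nontrivial (Fin n) := Fin.nontrivial_iff_two_le.2 hn
  have h := hG.preconnected.support_eq_univ
  have hx : x ∈ G.support := by rw [h]; trivial
  exact hx

/-- equality of places, second end outside `C` -/
private theorem gemb_e1 {V : Type} (J : FG) (c d : Fin J.1) (C : ℕ → Bool) (hdc : d ≠ c)
    (hCd : C d = true) (u v w : V) (x y : Fin J.1) (hy : C y = false)
    (h : plJ J c d C u v x = plJ J c d C w w y) : (x = y ∧ u = w) ∨ (x = d ∧ y = c ∧ v = w) := by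
  rcases gemb_cases (V := V) J c d C hdc y with ⟨hyc, e'⟩ | ⟨hyd, e'⟩ | ⟨hyc, hyd, hCy, e'⟩ |
    ⟨hyc, hyd, hCy, e'⟩
  · rcases gemb_cases (V := V) J c d C hdc x with ⟨hxc, e⟩ | ⟨hxd, e⟩ | ⟨hxc, hxd, hCx, e⟩ |
      ⟨hxc, hxd, hCx, e⟩
    · rw [e, e', Prod.mk.injEq, Prod.mk.injEq, Prod.mk.injEq] at h
      exact Or.inl ⟨hxc.trans hyc.symm, h.2.2.1⟩
    · rw [e, e', Prod.mk.injEq, Prod.mk.injEq, Prod.mk.injEq] at h
      exact Or.inr ⟨hxd, hyc, h.2.2.1⟩
    · rw [e, e', Prod.mk.injEq] at h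
      exact absurd h.1 (by norm_num)
    · rw [e, e', Prod.mk.injEq] at h
      exact absurd h.1 (by norm_num)
  · rw [hyd, hCd] at hy
    exact Bool.noConfusion hy
  · rw [hCy] at hy
    exact Bool.noConfusion hy
  · rcases gemb_cases (V := V) J c d C hdc x with ⟨hxc, e⟩ | ⟨hxd, e⟩ | ⟨hxc, hxd, hCx, e⟩ |
      ⟨hxc, hxd, hCx, e⟩
    · rw [e, e', Prod.mk.injEq] at h
      exact absurd h.1 (by norm_num)
    · rw [e, e', Prod.mk.injEq] at h
      exact absurd h.1 (by norm_num)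
    · rw [e, e', Prod.mk.injEq] at h
      exact absurd h.1 (by norm_num)
    · rw [e, e', Prod.mk.injEq, Prod.mk.injEq, Prod.mk.injEq] at h
      exact Or.inl ⟨Fin.ext h.2.1, h.2.2.1⟩

/-- equality of places, second end in `C` or equal to `c` -/
private theorem gemb_e2 {V : Type} (J : FG) (c d : Fin J.1) (C : ℕ → Bool) (hdc : d ≠ c)
    (u v u' v' : V) (x y : Fin J.1) (hy : y = c ∨ C y = true)
    (h : plJ J c d C u v x = plJ J c d C u' v' y) :
    (y = c ∧ ((x = c ∧ u = u') ∨ (x = d ∧ v = u'))) ∨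
    (y = d ∧ ((x = c ∧ u = v') ∨ (x = d ∧ v = v'))) ∨ (x = y ∧ u = u' ∧ v = v') := by
  rcases gemb_cases (V := V) J c d C hdc y with ⟨hyc, e'⟩ | ⟨hyd, e'⟩ | ⟨hyc, hyd, hCy, e'⟩ |
    ⟨hyc, hyd, hCy, e'⟩
  · left
    refine ⟨hyc, ?_⟩
    rcases gemb_cases (V := V) J c d C hdc x with ⟨hxc, e⟩ | ⟨hxd, e⟩ | ⟨hxc, hxd, hCx, e⟩ |
      ⟨hxc, hxd, hCx, e⟩
    · rw [e, e', Prod.mk.injEq, Prod.mk.injEq, Prod.mk.injEq] at h
      exact Or.inl ⟨hxc, h.2.2.1⟩
    · rw [e, e', Prod.mk.injEq, Prod.mk.injEq, Prod.mk.injEq] at h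
      exact Or.inr ⟨hxd, h.2.2.1⟩
    · rw [e, e', Prod.mk.injEq] at h
      exact absurd h.1 (by norm_num)
    · rw [e, e', Prod.mk.injEq] at h
      exact absurd h.1 (by norm_num)
  · right; left
    refine ⟨hyd, ?_⟩
    rcases gemb_cases (V := V) J c d C hdc x with ⟨hxc, e⟩ | ⟨hxd, e⟩ | ⟨hxc, hxd, hCx, e⟩ |
      ⟨hxc, hxd, hCx, e⟩
    · rw [e, e', Prod.mk.injEq, Prod.mk.injEq, Prod.mk.injEq] at h
      exact Or.inl ⟨hxc, h.2.2.1⟩
    · rw [e, e', Prod.mk.injEq, Prod.mk.injEq, Prod.mk.injEq] at h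
      exact Or.inr ⟨hxd, h.2.2.1⟩
    · rw [e, e', Prod.mk.injEq] at h
      exact absurd h.1 (by norm_num)
    · rw [e, e', Prod.mk.injEq] at h
      exact absurd h.1 (by norm_num)
  · right; right
    rcases gemb_cases (V := V) J c d C hdc x with ⟨hxc, e⟩ | ⟨hxd, e⟩ | ⟨hxc, hxd, hCx, e⟩ |
      ⟨hxc, hxd, hCx, e⟩
    · rw [e, e', Prod.mk.injEq] at h
      exact absurd h.1 (by norm_num)
    · rw [e, e', Prod.mk.injEq] at h
      exact absurd h.1 (by norm_num)
    · rw [e, e', Prod.mk.injEq, Prod.mk.injEq, Prod.mk.injEq] at h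
      exact ⟨Fin.ext h.2.1, h.2.2.1, h.2.2.2⟩
    · rw [e, e', Prod.mk.injEq] at h
      exact absurd h.1 (by norm_num)
  · exfalso
    rcases hy with hy | hy
    · exact hyc hy
    · rw [hCy] at hy
      exact Bool.noConfusion hy

private theorem gemb_tag {V : Type} (J : FG) (c d : Fin J.1) (C : ℕ → Bool) (hdc : d ≠ c)
    (u v : V) (x : Fin J.1) : (plJ J c d C u v x).1 < 4 := by
  rcases gemb_cases (V := V) J c d C hdc x with ⟨_, e⟩ | ⟨_, e⟩ | ⟨_, _, _, e⟩ | ⟨_, _, _, e⟩ <;>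
  · rw [e]
    norm_num

private theorem gemb_inj {V : Type} (J : FG) (c d : Fin J.1) (C : ℕ → Bool) (hdc : d ≠ c)
    (u v : V) (huv : u ≠ v) (x y : Fin J.1) (h : plJ J c d C u v x = plJ J c d C u v y) :
    x = y := by
  by_cases hy : y = c ∨ C y = true
  · rcases gemb_e2 J c d C hdc u v u v x y hy h with ⟨h1, ⟨h2, _⟩ | ⟨_, h3⟩⟩ |
      ⟨h1, ⟨_, h3⟩ | ⟨h2, _⟩⟩ | h1
    · exact h2.trans h1.symm
    · exact absurd h3.symm huv
    · exact absurd h3 huv
    · exact h2.trans h1.symm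
    · exact h1.1
  · rw [not_or, Bool.not_eq_true] at hy
    rcases gemb_cases (V := V) J c d C hdc y with ⟨hyc, e'⟩ | ⟨hyd, e'⟩ | ⟨hyc, hyd, hCy, e'⟩ |
      ⟨hyc, hyd, hCy, e'⟩
    · exact absurd hyc hy.1
    · rcases gemb_cases (V := V) J c d C hdc x with ⟨hxc, e⟩ | ⟨hxd, e⟩ | ⟨hxc, hxd, hCx, e⟩ |
        ⟨hxc, hxd, hCx, e⟩
      · rw [e, e', Prod.mk.injEq, Prod.mk.injEq, Prod.mk.injEq] at h
        exact absurd h.2.2.1 huv
      · exact hxd.trans hyd.symm
      · rw [e, e', Prod.mk.injEq] at h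
        exact absurd h.1 (by norm_num)
      · rw [e, e', Prod.mk.injEq] at h
        exact absurd h.1 (by norm_num)
    · rw [hCy] at hy
      exact absurd hy.2 (by decide)
    · rcases gemb_cases (V := V) J c d C hdc x with ⟨hxc, e⟩ | ⟨hxd, e⟩ | ⟨hxc, hxd, hCx, e⟩ |
        ⟨hxc, hxd, hCx, e⟩
      · rw [e, e', Prod.mk.injEq] at h
        exact absurd h.1 (by norm_num)
      · rw [e, e', Prod.mk.injEq] at h
        exact absurd h.1 (by norm_num)
      · rw [e, e', Prod.mk.injEq] at h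
        exact absurd h.1 (by norm_num)
      · rw [e, e', Prod.mk.injEq, Prod.mk.injEq, Prod.mk.injEq] at h
        exact Fin.ext h.2.1

theorem p_gemb : S_gemb := by
  intro hadj J c L d l s C hJ hJ2 hLc hL hC V _ B hA e he
  obtain ⟨u, v⟩ := e
  dsimp only
  have hdc := hL.dne
  have hCd : C d = true := (hC d).2 ⟨hL.dne, hL.dl⟩
  have hirr : ∀ w w' : V, (w, w') ∈ B → w ≠ w' := by
    rintro w w' h rfl
    exact hA w w h h
  have huv : u ≠ v := hirr u v he
  have hu : u ∈ ends B := by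
    unfold ends
    rw [List.mem_flatMap]
    exact ⟨(u, v), he, by simp⟩
  have hout : ∀ x : Fin J.1, C x = false → plJ J c d C u v x = plJ J c d C u u x := by
    intro x hx
    rcases gemb_cases (V := V) J c d C hdc x with ⟨_, e⟩ | ⟨h, e⟩ | ⟨_, _, h, e⟩ | ⟨_, _, _, e⟩
    · rw [e, e]
    · rw [h, hCd] at hx
      exact Bool.noConfusion hx
    · rw [h] at hx
      exact Bool.noConfusion hx
    · rw [e, e]
  have hfw : ∀ x y : Fin J.1, J.2.Adj x y →
      adjL (gad J c d C L B) (plJ J c d C u v x) (plJ J c d C u v y) := by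
    intro x y hxy
    rw [hadj]
    by_cases h : C x = true ∨ C y = true
    · right; left
      exact ⟨(u, v), he, x, y, hxy, h, rfl, rfl⟩
    · rw [not_or, Bool.not_eq_true, Bool.not_eq_true] at h
      left
      exact ⟨u, hu, x, y, hxy, h.1, h.2, hout x h.1, hout y h.2⟩
  have hbw : ∀ x y : Fin J.1,
      adjL (gad J c d C L B) (plJ J c d C u v x) (plJ J c d C u v y) → J.2.Adj x y := by
    intro x y h
    rcases (hadj J c d C L V B _ _).1 h with ⟨w, hw, x', y', hxy, hx, hy, e1, e2⟩ |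
      ⟨⟨u', v'⟩, he', x', y', hxy, hxy', e1, e2⟩ | ⟨e', he', i, x', y', hxy, e1, e2⟩
    · have hne : x' ≠ y' := hxy.ne
      rcases gemb_e1 J c d C hdc hCd u v w x x' hx e1 with ⟨h1, h1'⟩ | ⟨h1, h1', h1''⟩
      · rcases gemb_e1 J c d C hdc hCd u v w y y' hy e2 with ⟨h2, h2'⟩ | ⟨h2, h2', h2''⟩
        · rw [h1, h2]; exact hxy
        · exact absurd (h1'.trans h2''.symm) huv
      · rcases gemb_e1 J c d C hdc hCd u v w y y' hy e2 with ⟨h2, h2'⟩ | ⟨h2, h2', h2''⟩
        · exact absurd (h2'.trans h1''.symm) huv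
        · exact absurd (h1'.trans h2'.symm) hne
    · dsimp only at e1 e2
      have hne : x' ≠ y' := hxy.ne
      have hne' : u' ≠ v' := hirr u' v' he'
      have hx' : x' = c ∨ C x' = true := by
        by_cases hxc : x' = c
        · exact Or.inl hxc
        · right
          rcases hxy' with h | h
          · exact h
          · have hy := (hC y').1 h
            exact (hC x').2 ⟨hxc, (hL.adj x' y' hxy hxc hy.1).trans hy.2⟩
      have hy' : y' = c ∨ C y' = true := by
        by_cases hyc : y' = c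
        · exact Or.inl hyc
        · right
          rcases hxy' with h | h
          · have hx := (hC x').1 h
            exact (hC y').2 ⟨hyc, (hL.adj x' y' hxy hx.1 hyc).symm.trans hx.2⟩
          · exact h
      have hswap : ¬ (v = u' ∧ u = v') := by
        rintro ⟨rfl, rfl⟩
        exact hA _ _ he he'
      rcases gemb_e2 J c d C hdc u v u' v' x x' hx' e1 with ⟨a1, a2⟩ | ⟨a1, a2⟩ | ⟨a1, a2, a3⟩
      · rcases gemb_e2 J c d C hdc u v u' v' y y' hy' e2 with ⟨b1, b2⟩ | ⟨b1, b2⟩ | ⟨b1, b2, b3⟩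
        · exact absurd (a1.trans b1.symm) hne
        · rcases a2 with ⟨a2, a3⟩ | ⟨a2, a3⟩
          · rcases b2 with ⟨b2, b3⟩ | ⟨b2, b3⟩
            · exact absurd (a3.symm.trans b3) hne'
            · rw [a2, b2, ← a1, ← b1]; exact hxy
          · rcases b2 with ⟨b2, b3⟩ | ⟨b2, b3⟩
            · exact absurd ⟨a3, b3⟩ hswap
            · exact absurd (a3.symm.trans b3) hne'
        · subst b2; subst b3
          have : x = x' := gemb_inj J c d C hdc u v huv x x' e1
          rw [this, b1]; exact hxy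
      · rcases gemb_e2 J c d C hdc u v u' v' y y' hy' e2 with ⟨b1, b2⟩ | ⟨b1, b2⟩ | ⟨b1, b2, b3⟩
        · rcases a2 with ⟨a2, a3⟩ | ⟨a2, a3⟩
          · rcases b2 with ⟨b2, b3⟩ | ⟨b2, b3⟩
            · exact absurd (b3.symm.trans a3) hne'
            · exact absurd ⟨b3, a3⟩ hswap
          · rcases b2 with ⟨b2, b3⟩ | ⟨b2, b3⟩
            · rw [a2, b2, ← a1, ← b1]; exact hxy
            · exact absurd (b3.symm.trans a3) hne'
        · exact absurd (a1.trans b1.symm) hne
        · subst b2; subst b3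
          have : x = x' := gemb_inj J c d C hdc u v huv x x' e1
          rw [this, b1]; exact hxy
      · subst a2; subst a3
        have : y = y' := gemb_inj J c d C hdc u v huv y y' e2
        rw [this, a1]; exact hxy
    · have h1 := congrArg Prod.fst e1
      have h2 := gemb_tag J c d C hdc u v x
      dsimp only at h1
      omega
  refine ⟨fun x y => ⟨gemb_inj J c d C hdc u v huv x y, ?_, hfw x y, hbw x y⟩, fun i x y => ?_⟩
  · obtain ⟨z, hz⟩ := gemb_nb J.2 hJ hJ2 x
    exact gemb_ends (hfw x z hz)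
  · have hi := hLc (L.get i) (List.get_mem L i)
    have hf : ∀ z w : Fin (L.get i).1, (L.get i).2.Adj z w →
        adjL (gad J c d C L B) (4 + (i : ℕ), (z : ℕ), u, v) (4 + (i : ℕ), (w : ℕ), u, v) := by
      intro z w hzw
      rw [hadj]
      right; right
      exact ⟨(u, v), he, i, z, w, hzw, rfl, rfl⟩
    refine ⟨?_, hf x y, ?_⟩
    · obtain ⟨z, hz⟩ := gemb_nb (L.get i).2 hi.1 hi.2 x
      exact gemb_ends (hf x z hz)
    · intro h
      rcases (hadj J c d C L V B _ _).1 h with ⟨w, hw, x', y', hxy, hx, hy, e1, e2⟩ |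
        ⟨⟨u', v'⟩, he', x', y', hxy, hxy', e1, e2⟩ | ⟨e', he', j, x', y', hxy, e1, e2⟩
      · have h1 := congrArg Prod.fst e1
        have h2 := gemb_tag J c d C hdc w w x'
        dsimp only at h1
        omega
      · have h1 := congrArg Prod.fst e1
        have h2 := gemb_tag J c d C hdc u' v' x'
        dsimp only at h1
        omega
      · rw [Prod.mk.injEq, Prod.mk.injEq] at e1 e2
        have hij : i = j := Fin.ext (by have := e1.1; omega)
        subst hij
        have hx : x = x' := Fin.ext e1.2.1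
        have hy : y = y' := Fin.ext e2.2.1
        rw [hx, hy]; exact hxy

end Pool.Agent.Lib.MP_87d05f_lc.ND
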