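import Pool.Agent.Lib.MP_87d05f_lc.ND.Stm

set_option autoImplicit false

/-!
# Project ND, piece gloc: adjacent vertices of the gadget graph have the same root and label
-/

namespace Pool.Agent.Lib.MP_87d05f_lc.ND

open Pool.Agent.PolyTime Function Turing

private theorem gloc_c {V : Type} (J : FG) (c d : Fin J.1) (C : ℕ → Bool) (u v : V) :
    plJ J c d C u v c = (0, 0, u, u) := by
  simp [plJ, slotJ, place]

private theorem gloc_d {V : Type} (J : FG) (c d : Fin J.1) (C : ℕ → Bool) (u v : V) (h : d ≠ c) :
    plJ J c d C u v d = (0, 0, v, v) := by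
  have h' : (d : ℕ) ≠ c := fun e => h (Fin.ext e)
  simp [plJ, slotJ, place, h']

private theorem gloc_2 {V : Type} (J : FG) (c d : Fin J.1) (C : ℕ → Bool) (u v : V) (x : Fin J.1)
    (h : x ≠ c) (h' : x ≠ d) (hC : C x = true) :
    plJ J c d C u v x = (2, (x : ℕ), u, v) := by
  have h1 : (x : ℕ) ≠ c := fun e => h (Fin.ext e)
  have h2 : (x : ℕ) ≠ d := fun e => h' (Fin.ext e)
  simp [plJ, slotJ, place, h1, h2, hC]

private theorem gloc_3 {V : Type} (J : FG) (c d : Fin J.1) (C : ℕ → Bool) (u v : V) (x : Fin J.1)
    (h : x ≠ c) (h' : x ≠ d) (hC : C x = false) :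
    plJ J c d C u v x = (3, (x : ℕ), u, u) := by
  have h1 : (x : ℕ) ≠ c := fun e => h (Fin.ext e)
  have h2 : (x : ℕ) ≠ d := fun e => h' (Fin.ext e)
  simp [plJ, slotJ, place, h1, h2, hC]

theorem p_gloc : S_gloc := by
  intro hadj J c L d l s C hL hC V _ B a hA hcov p q hpq hp hq
  have hCd : C d = true := (hC d).2 ⟨hL.dne, hL.dl⟩
  have hCc : C c = false := by
    by_contra h
    rw [Bool.not_eq_false] at h
    exact ((hC c).1 h).1 rfl
  rcases (hadj J c d C L V B p q).1 hpq with ⟨u, hu, x, y, hxy, hx, hy, rfl, rfl⟩ |
    ⟨e, he, x, y, hxy, hxy', rfl, rfl⟩ | ⟨e, he, i, x, y, hxy, rfl, rfl⟩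
  · have hxd : x ≠ d := by rintro rfl; rw [hCd] at hx; exact Bool.noConfusion hx
    have hyd : y ≠ d := by rintro rfl; rw [hCd] at hy; exact Bool.noConfusion hy
    by_cases hxc : x = c
    · subst hxc
      by_cases hyc : y = x
      · subst hyc
        exact absurd hxy (J.2.loopless.irrefl _)
      · rw [gloc_c, gloc_3 J x d C u u y hyc hyd hy]
        refine ⟨fun h => absurd h (by norm_num), fun _ => ⟨by norm_num, ?_, fun h => absurd rfl h⟩⟩
        simp [root]
    · by_cases hyc : y = c
      · subst hyc
        rw [gloc_c, gloc_3 J y d C u u x hxc hxd hx]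
        refine ⟨fun h => absurd h (by norm_num), fun _ => ⟨by norm_num, ?_,
          fun _ h => absurd rfl h⟩⟩
        simp [root]
      · rw [gloc_3 J c d C u u x hxc hxd hx, gloc_3 J c d C u u y hyc hyd hy]
        refine ⟨fun h => absurd h (by norm_num), fun _ => ⟨by norm_num, ?_, fun _ _ => ?_⟩⟩
        · simp [root]
        · have := hL.adj x y hxy hxc hyc
          simp [labG, this]
  · obtain ⟨u, v⟩ := e
    have hcv := hcov (u, v) he
    dsimp only at hcv hp hq ⊢
    have hx : x = c ∨ C x = true := by
      by_cases hxc : x = c
      · exact Or.inl hxc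
      · right
        rcases hxy' with h | h
        · exact h
        · have hy := (hC y).1 h
          exact (hC x).2 ⟨hxc, (hL.adj x y hxy hxc hy.1).trans hy.2⟩
    have hy : y = c ∨ C y = true := by
      by_cases hyc : y = c
      · exact Or.inl hyc
      · right
        rcases hxy' with h | h
        · have hx := (hC x).1 h
          exact (hC y).2 ⟨hyc, (hL.adj x y hxy hx.1 hyc).symm.trans hx.2⟩
        · exact h
    have hne : x ≠ y := hxy.ne
    rcases hx with rfl | hx
    · rcases hy with rfl | hy
      · exact absurd rfl hne
      · rw [gloc_c] at hp ⊢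
        have hau : a u = false := by simpa using hp
        by_cases hyd : y = d
        · subst hyd
          rw [gloc_d _ _ _ _ _ _ hL.dne] at hq
          have hav : a v = false := by simpa using hq
          rcases hcv with h | h
          · rw [hau] at h; exact Bool.noConfusion h
          · rw [hav] at h; exact Bool.noConfusion h
        · rw [gloc_2 J x d C u v y hne.symm hyd hy]
          refine ⟨fun h => absurd h (by norm_num), fun _ => ⟨by norm_num, ?_,
            fun h => absurd rfl h⟩⟩
          simp [root, hau]
    · rcases hy with rfl | hy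
      · rw [gloc_c] at hq ⊢
        have hau : a u = false := by simpa using hq
        by_cases hxd : x = d
        · subst hxd
          rw [gloc_d _ _ _ _ _ _ hL.dne] at hp
          have hav : a v = false := by simpa using hp
          rcases hcv with h | h
          · rw [hau] at h; exact Bool.noConfusion h
          · rw [hav] at h; exact Bool.noConfusion h
        · rw [gloc_2 J y d C u v x hne hxd hx]
          refine ⟨fun h => absurd h (by norm_num), fun _ => ⟨by norm_num, ?_,
            fun _ h => absurd rfl h⟩⟩
          simp [root, hau]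
      · have hxc : x ≠ c := by rintro rfl; rw [hCc] at hx; exact Bool.noConfusion hx
        have hyc : y ≠ c := by rintro rfl; rw [hCc] at hy; exact Bool.noConfusion hy
        by_cases hxd : x = d
        · subst hxd
          rw [gloc_d _ _ _ _ _ _ hL.dne] at hp ⊢
          have hav : a v = false := by simpa using hp
          have hau : a u = true := by
            rcases hcv with h | h
            · exact h
            · rw [hav] at h; exact Bool.noConfusion h
          rw [gloc_2 J c x C u v y hyc hne.symm hy]
          refine ⟨fun h => absurd h (by norm_num), fun _ => ⟨by norm_num, ?_,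
            fun h => absurd rfl h⟩⟩
          simp [root, hau]
        · by_cases hyd : y = d
          · subst hyd
            rw [gloc_d _ _ _ _ _ _ hL.dne] at hq ⊢
            have hav : a v = false := by simpa using hq
            have hau : a u = true := by
              rcases hcv with h | h
              · exact h
              · rw [hav] at h; exact Bool.noConfusion h
            rw [gloc_2 J c y C u v x hxc hne hx]
            refine ⟨fun h => absurd h (by norm_num), fun _ => ⟨by norm_num, ?_,
              fun _ h => absurd rfl h⟩⟩
            simp [root, hau]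
          · rw [gloc_2 J c d C u v x hxc hxd hx, gloc_2 J c d C u v y hyc hyd hy]
            refine ⟨fun h => absurd h (by norm_num), fun _ => ⟨by norm_num, ?_, fun _ _ => ?_⟩⟩
            · simp [root]
            · simp [labG]
  · refine ⟨fun _ => ⟨rfl, rfl⟩, fun h => absurd h ?_⟩
    show ¬ (4 + (i : ℕ) < 4)
    omega

end Pool.Agent.Lib.MP_87d05f_lc.ND
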