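import Pool.Agent.Lib.MP_87d05f_lc.ND.Stm

set_option autoImplicit false

/-!
# ND, piece gloop: the gadget graph has no loops
-/

namespace Pool.Agent.Lib.MP_87d05f_lc.ND

theorem gloop_edges (H : FG) (e : ℕ × ℕ) (he : e ∈ edgesOf H) : e.1 ≠ e.2 := by
  unfold edgesOf at he
  rw [List.mem_flatMap] at he
  obtain ⟨x, -, hx⟩ := he
  rw [List.mem_map] at hx
  obtain ⟨y, hy, rfl⟩ := hx
  rw [List.mem_filter] at hy
  have h : x < y ∧ H.2.Adj x y := by simpa using hy.2
  intro h1
  have h2 : (x : ℕ) < (y : ℕ) := h.1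
  have h3 : (x : ℕ) = (y : ℕ) := h1
  omega

theorem gloop_place {V : Type} (u v : V) (huv : u ≠ v) (c d : ℕ) (hcd : c ≠ d) (C : ℕ → Bool)
    (x y : ℕ) (hxy : x ≠ y) : place u v (slotJ c d C x) ≠ place u v (slotJ c d C y) := by
  have hvu : v ≠ u := huv.symm
  unfold slotJ place
  split_ifs <;> simp_all [Prod.ext_iff]

theorem gloop_placeV {V : Type} (u : V) (c d : ℕ) (C : ℕ → Bool) (hd : C d = true)
    (x y : ℕ) (hx : C x = false) (hy : C y = false) (hxy : x ≠ y) :
    place u u (slotJ c d C x) ≠ place u u (slotJ c d C y) := by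
  have hxd : x ≠ d := by
    rintro rfl
    rw [hd] at hx
    exact Bool.noConfusion hx
  have hyd : y ≠ d := by
    rintro rfl
    rw [hd] at hy
    exact Bool.noConfusion hy
  unfold slotJ place
  split_ifs <;> simp_all [Prod.ext_iff]

theorem p_gloop : S_gloop := by
  intro J c d C L V _ B hc hd hB e he
  have hcd : (c : ℕ) ≠ d := by
    intro h
    rw [h, hd] at hc
    exact Bool.noConfusion hc
  have hne : ∀ u v : V, (u, v) ∈ B → u ≠ v := by
    rintro u v h rfl
    exact hB u u h h
  unfold gad gadT at he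
  rw [List.mem_append, List.mem_flatMap, List.mem_flatMap] at he
  rcases he with ⟨u, -, h⟩ | ⟨⟨u, v⟩, huv, h⟩
  · rw [List.mem_map] at h
    obtain ⟨s, hs, rfl⟩ := h
    unfold tabV at hs
    rw [List.mem_map] at hs
    obtain ⟨f, hf, rfl⟩ := hs
    rw [List.mem_filter] at hf
    have h2 := hf.2
    simp only [Bool.and_eq_true, Bool.not_eq_true'] at h2
    exact gloop_placeV u c d C hd f.1 f.2 h2.1 h2.2 (gloop_edges J f hf.1)
  · rw [List.mem_map] at h
    obtain ⟨s, hs, rfl⟩ := h
    unfold tabE at hs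
    rw [List.mem_append] at hs
    rcases hs with hs | hs
    · rw [List.mem_map] at hs
      obtain ⟨f, hf, rfl⟩ := hs
      rw [List.mem_filter] at hf
      exact gloop_place u v (hne u v huv) c d hcd C f.1 f.2 (gloop_edges J f hf.1)
    · rw [List.mem_flatMap] at hs
      obtain ⟨p, -, hp⟩ := hs
      rw [List.mem_map] at hp
      obtain ⟨f, hf, rfl⟩ := hp
      have h1 := gloop_edges p.1 f hf
      unfold place
      have e0 : ¬ (4 + p.2 = 0) := by omega
      have e1 : ¬ (4 + p.2 = 1) := by omega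
      have e3 : ¬ (4 + p.2 = 3) := by omega
      simp only [e0, e1, e3, decide_false, cond_false]
      intro h2
      exact h1 (congrArg (fun q => q.2.1) h2)

end Pool.Agent.Lib.MP_87d05f_lc.ND
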