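import Pool.Agent.Lib.MP_87d05f_lc.ND.Stm

set_option autoImplicit false

/-!
# [ND gno] solutions of the gadget graph give vertex covers (helper94)
-/

namespace Pool.Agent.Lib.MP_87d05f_lc.ND

open Pool.Agent.PolyTime Function Turing

/-- edges of the copies -/
theorem gno_mem_cop {V : Type} (K : ℕ) (B : List (V × V)) (e : (ℕ × V) × (ℕ × V)) :
    e ∈ cop K B ↔ ∃ κ, κ < K ∧ ∃ b ∈ B, e = ((κ, b.1), (κ, b.2)) := by
  unfold cop
  simp only [List.mem_flatMap, List.mem_range, List.mem_map]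
  constructor
  · rintro ⟨κ, hκ, b, hb, rfl⟩
    exact ⟨κ, hκ, b, hb, rfl⟩
  · rintro ⟨κ, hκ, b, hb, rfl⟩
    exact ⟨κ, hκ, b, hb, rfl⟩

theorem gno_asym {V : Type} (K : ℕ) (B : List (V × V)) (hB : Asym B) : Asym (cop K B) := by
  intro u v huv hvu
  obtain ⟨κ, -, b, hb, h1⟩ := (gno_mem_cop K B _).1 huv
  obtain ⟨κ', -, b', hb', h2⟩ := (gno_mem_cop K B _).1 hvu
  have h3 := congrArg Prod.fst h1
  have h4 := congrArg Prod.snd h1
  have h5 := congrArg Prod.fst h2
  have h6 := congrArg Prod.snd h2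
  simp only at h3 h4 h5 h6
  have h7 : b'.1 = b.2 := by
    have := h5.symm.trans h4
    exact congrArg Prod.snd this
  have h8 : b'.2 = b.1 := by
    have := h6.symm.trans h3
    exact congrArg Prod.snd this
  apply hB b.1 b.2 hb
  rw [← h7, ← h8]
  exact hb'

/-- the third component of a place -/
theorem gno_place_snd {V : Type} (J : FG) (c d : Fin J.1) (C : ℕ → Bool) (u v : V) (x : ℕ) :
    (plJ J c d C u v x).2.2.1 = u ∨ (plJ J c d C u v x).2.2.1 = v := by
  unfold plJ place
  cases h0 : decide ((slotJ (↑c) (↑d) C x).1 = 0)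
  · cases h1 : decide ((slotJ (↑c) (↑d) C x).1 = 1)
    · cases h3 : decide ((slotJ (↑c) (↑d) C x).1 = 3)
      · left; rfl
      · left; rfl
    · right; rfl
  · left; rfl

/-- the tag of a place -/
theorem gno_place_tag {V : Type} (J : FG) (c d : Fin J.1) (C : ℕ → Bool) (u v : V) (x : ℕ) :
    (plJ J c d C u v x).1 ≤ 3 := by
  unfold plJ place slotJ
  split_ifs <;> simp

/-- places outside of `C` -/
theorem gno_place_out {V : Type} (J : FG) (c d : Fin J.1) (C : ℕ → Bool) (u v : V) (x : ℕ)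
    (hd : C d = true) (hx : C x = false) :
    plJ J c d C u v x = if x = c then (0, 0, u, u) else (3, x, u, u) := by
  have hxd : x ≠ d := by
    intro h
    rw [h, hd] at hx
    exact absurd hx (by simp)
  unfold plJ place slotJ
  by_cases hc : x = c
  · simp [hc]
  · simp [hc, hxd, hx]

/-- adjacent vertices have the same copy number, and equal tags if they are large -/
theorem gno_adj (hadj : R_gadj) {V : Type} [DecidableEq V] (J : FG) (c d : Fin J.1) (C : ℕ → Bool)
    (L : List FG) (K : ℕ) (B : List (V × V)) (p q : GV (ℕ × V))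
    (h : adjL (gad J c d C L (cop K B)) p q) :
    p.2.2.1.1 = q.2.2.1.1 ∧ ((p.1 ≤ 3 ∧ q.1 ≤ 3) ∨ p.1 = q.1) := by
  rcases (hadj J c d C L (ℕ × V) (cop K B) p q).1 h with
    ⟨u, hu, x, y, -, -, -, hp, hq⟩ | ⟨e, he, x, y, -, -, hp, hq⟩ | ⟨e, he, i, x, y, -, hp, hq⟩
  · refine ⟨?_, Or.inl ⟨?_, ?_⟩⟩
    · rw [hp, hq]
      rcases gno_place_snd J c d C u u x with h1 | h1 <;>
      rcases gno_place_snd J c d C u u y with h2 | h2 <;> rw [h1, h2]
    · rw [hp]; exact gno_place_tag J c d C u u x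
    · rw [hq]; exact gno_place_tag J c d C u u y
  · obtain ⟨κ, -, b, -, rfl⟩ := (gno_mem_cop K B e).1 he
    refine ⟨?_, Or.inl ⟨?_, ?_⟩⟩
    · rw [hp, hq]
      rcases gno_place_snd J c d C (κ, b.1) (κ, b.2) x with h1 | h1 <;>
      rcases gno_place_snd J c d C (κ, b.1) (κ, b.2) y with h2 | h2 <;> rw [h1, h2]
    · rw [hp]; exact gno_place_tag J c d C _ _ x
    · rw [hq]; exact gno_place_tag J c d C _ _ y
  · exact ⟨by rw [hp, hq], Or.inr (by rw [hp, hq])⟩

/-- there are no loops -/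
theorem gno_loop (hadj : R_gadj) (hemb : R_gemb) {FF : Set FG} {V : Type} [DecidableEq V] (J : FG)
    (c : Fin J.1) (L : List FG) (N : ℕ) (d : Fin J.1) (l : Fin J.1 → ℕ) (s : ℕ) (C : ℕ → Bool)
    (hcore : Core FF J c L N) (hlab : Lab J c d l s) (hC : CLab J c l C)
    (B : List (V × V)) (hB : Asym B) (p : GV V) :
    ¬ adjL (gad J c d C L B) p p := by
  intro h
  have hd : C d = true := (hC d).2 ⟨hlab.dne, hlab.dl⟩
  rcases (hadj J c d C L V B p p).1 h with
    ⟨u, hu, x, y, hxy, hx, hy, hp, hq⟩ | ⟨e, he, x, y, hxy, -, hp, hq⟩ | ⟨e, he, i, x, y, hxy, hp, hq⟩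
  · have h1 := hp.symm.trans hq
    rw [gno_place_out J c d C u u x hd hx, gno_place_out J c d C u u y hd hy] at h1
    have hne : x ≠ y := hxy.ne
    have hne' : (x : ℕ) ≠ y := fun hh => hne (Fin.ext hh)
    by_cases h2 : (x : ℕ) = c
    · have h3 : (y : ℕ) ≠ c := fun hh => hne' (h2.trans hh.symm)
      rw [if_pos h2, if_neg h3] at h1
      exact absurd (congrArg Prod.fst h1) (by simp)
    · by_cases h3 : (y : ℕ) = c
      · rw [if_neg h2, if_pos h3] at h1
        exact absurd (congrArg Prod.fst h1) (by simp)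
      · rw [if_neg h2, if_neg h3] at h1
        exact hne' (congrArg (fun t => t.2.1) h1)
  · have h1 := (hemb J c L d l s C hcore.conn hcore.two hcore.mem hlab hC V B hB e he).1 x y
    exact hxy.ne (h1.1 (hp.symm.trans hq))
  · have h1 := hp.symm.trans hq
    have h2 : (x : ℕ) = y := congrArg (fun t => t.2.1) h1
    exact hxy.ne (Fin.ext h2)

theorem p_gno : S_gno := by
  classical
  intro hadj hemb FF J c L N d l s C hcore hlab hC V _ B K a' hB hsol
  have hB' : Asym (cop K B) := gno_asym K B hB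
  have hE := hemb J c L d l s C hcore.conn hcore.two hcore.mem hlab hC (ℕ × V) (cop K B) hB'
  have hloop := fun p => gno_loop hadj hemb J c L N d l s C hcore hlab hC (cop K B) hB' p
  have hcopy := fun p q => gno_adj hadj J c d C L K B p q
  revert hsol hE hloop hcopy
  generalize hEd : gad J c d C L (cop K B) = E
  intro hsol hE hloop hcopy
  -- open copies
  let opn : ℕ → Prop := fun κ => ∃ e ∈ B, (∀ x : Fin J.1, a' (plJ J c d C (κ, e.1) (κ, e.2) x) = false) ∧
    ∀ (i : Fin L.length) (x : Fin (L.get i).1),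
      a' ((4 + (i : ℕ), (x : ℕ), (κ, e.1), (κ, e.2)) : GV (ℕ × V)) = false
  have hopn : ((Finset.range K).filter opn).card < N := by
    by_contra hge
    push Not at hge
    obtain ⟨S', hS', hcard⟩ := Finset.exists_subset_card_eq hge
    let g := S'.orderEmbOfFin hcard
    have hg : ∀ n, g n ∈ (Finset.range K).filter opn := fun n =>
      hS' (Finset.orderEmbOfFin_mem S' hcard n)
    have hginj : ∀ n m, g n = g m → n = m := fun n m h => g.injective h
    let G : SimpleGraph {p : GV (ℕ × V) // p ∈ ends E ∧ a' p = false} :=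
      SimpleGraph.fromRel (fun p q => (p.1, q.1) ∈ E)
    have hGadj : ∀ p q, G.Adj p q ↔ p ≠ q ∧ adjL E p.1 q.1 := by
      intro p q
      exact SimpleGraph.fromRel_adj _ p q
    have key : ∀ (n : Fin N) (k : Fin (J :: L).length), ∃ ψ : ((J :: L).get k).2 ↪g G,
        ∀ x, (ψ x).1.2.2.1.1 = g n ∧
          (((k : ℕ) = 0 ∧ (ψ x).1.1 ≤ 3) ∨ ((k : ℕ) ≠ 0 ∧ (ψ x).1.1 = 3 + k)) := by
      intro n k
      obtain ⟨hgK, e, he, ho1, ho2⟩ := Finset.mem_filter.1 (hg n)
      have hmem : (((g n, e.1), (g n, e.2)) : (ℕ × V) × (ℕ × V)) ∈ cop K B :=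
        (gno_mem_cop K B _).2 ⟨g n, Finset.mem_range.1 hgK, e, he, rfl⟩
      have hE1 := hE _ hmem
      rcases k with ⟨_ | i, hk⟩
      · refine ⟨⟨⟨fun x : Fin J.1 => ⟨plJ J c d C (g n, e.1) (g n, e.2) x, (hE1.1 x x).2.1, ho1 x⟩,
          ?_⟩, ?_⟩, ?_⟩
        · intro x y hxy
          exact (hE1.1 x y).1 (congrArg Subtype.val hxy)
        · intro x y
          rw [hGadj]
          constructor
          · rintro ⟨-, h⟩
            exact (hE1.1 x y).2.2.2 h
          · intro h
            refine ⟨?_, (hE1.1 x y).2.2.1 h⟩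
            intro hh
            have h2 := (hE1.1 x y).1 (congrArg Subtype.val hh)
            exact h.ne h2
        · intro x
          refine ⟨?_, Or.inl ⟨rfl, gno_place_tag J c d C _ _ _⟩⟩
          show (plJ J c d C (g n, e.1) (g n, e.2) x).2.2.1.1 = g n
          rcases gno_place_snd J c d C (g n, e.1) (g n, e.2) x with h1 | h1 <;> rw [h1]
      · have hi : i < L.length := by
          simpa using hk
        have hE2 := hE1.2 ⟨i, hi⟩
        refine ⟨⟨⟨fun x : Fin (L.get ⟨i, hi⟩).1 => ⟨(4 + i, (x : ℕ), (g n, e.1), (g n, e.2)),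
          (hE2 x x).1, ho2 ⟨i, hi⟩ x⟩, ?_⟩, ?_⟩, ?_⟩
        · intro x y hxy
          have h1 : (x : ℕ) = y := congrArg (fun t => t.1.2.1) hxy
          exact Fin.ext h1
        · intro x y
          rw [hGadj]
          constructor
          · rintro ⟨-, h⟩
            exact (hE2 x y).2.2 h
          · intro h
            refine ⟨?_, (hE2 x y).2.1 h⟩
            intro hh
            have h1 : (x : ℕ) = y := congrArg (fun t => t.1.2.1) hh
            exact h.ne (Fin.ext h1)
        · intro x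
          refine ⟨rfl, Or.inr ⟨Nat.succ_ne_zero i, ?_⟩⟩
          show 4 + i = 3 + (i + 1)
          omega
    choose ψ hψ using key
    obtain ⟨H, hH, ⟨φ⟩⟩ := hcore.bad _ G (fun p => ψ p.1 p.2) (by
      intro i j hij x y
      have hx := hψ i.1 i.2 x
      have hy := hψ j.1 j.2 y
      constructor
      · intro hh
        apply hij
        have h1 : g i.1 = g j.1 := by
          rw [← hx.1, ← hy.1]
          exact congrArg (fun t => t.1.2.2.1.1) hh
        have h2 : (ψ i.1 i.2 x).1.1 = (ψ j.1 j.2 y).1.1 := congrArg (fun t => t.1.1) hh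
        have h3 : (i.2 : ℕ) = j.2 := by
          rcases hx.2 with ⟨ha, hb⟩ | ⟨ha, hb⟩ <;> rcases hy.2 with ⟨hc, hd⟩ | ⟨hc, hd⟩ <;> omega
        exact Prod.ext (hginj _ _ h1) (Fin.ext h3)
      · intro hh
        obtain ⟨-, h0⟩ := (hGadj _ _).1 hh
        obtain ⟨h1, h2⟩ := hcopy _ _ h0
        apply hij
        have h1' : g i.1 = g j.1 := by
          rw [← hx.1, ← hy.1]
          exact h1
        have h2' : ((ψ i.1 i.2 x).1.1 ≤ 3 ∧ (ψ j.1 j.2 y).1.1 ≤ 3) ∨
            (ψ i.1 i.2 x).1.1 = (ψ j.1 j.2 y).1.1 := h2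
        have h3 : (i.2 : ℕ) = j.2 := by
          rcases hx.2 with ⟨ha, hb⟩ | ⟨ha, hb⟩ <;> rcases hy.2 with ⟨hc, hd⟩ | ⟨hc, hd⟩ <;>
            rcases h2' with ⟨h4, h5⟩ | h4 <;> omega
        exact Prod.ext (hginj _ _ h1') (Fin.ext h3))
    apply hsol H hH
    refine ⟨fun i => (φ i).1, ?_, fun i => (φ i).2, ?_⟩
    · intro i j hij
      exact φ.injective (Subtype.ext hij)
    · intro i j
      have h1 : H.2.Adj i j ↔ G.Adj (φ i) (φ j) := φ.map_rel_iff.symm
      rw [h1, hGadj]
      constructor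
      · rintro ⟨-, h⟩
        exact h
      · intro h
        refine ⟨?_, h⟩
        intro hh
        have h' : adjL E (φ i).1 (φ j).1 := h
        rw [hh] at h'
        exact hloop _ h'
  -- the covers
  have hcard : K + 1 - N ≤ ((Finset.range K).filter (fun κ => ¬ opn κ)).card := by
    have h1 := Finset.card_filter_add_card_filter_not (s := Finset.range K) opn
    rw [Finset.card_range] at h1
    omega
  rcases Nat.eq_zero_or_pos (K + 1 - N) with h0 | h0
  · exact ⟨fun _ => true, fun _ _ => Or.inl rfl, by rw [h0, zero_mul]; exact Nat.zero_le _⟩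
  have hne : ((Finset.range K).filter (fun κ => ¬ opn κ)).Nonempty :=
    Finset.card_pos.1 (lt_of_lt_of_le h0 hcard)
  let aκ : ℕ → V → Bool := fun κ u => decide (∃ p ∈ ends E, a' p = true ∧ p.2.2.1 = (κ, u))
  have hcov : ∀ κ ∈ (Finset.range K).filter (fun κ => ¬ opn κ), Cov B (aκ κ) := by
    intro κ hκ e he
    obtain ⟨hκK, hno⟩ := Finset.mem_filter.1 hκ
    have hmem : (((κ, e.1), (κ, e.2)) : (ℕ × V) × (ℕ × V)) ∈ cop K B :=
      (gno_mem_cop K B _).2 ⟨κ, Finset.mem_range.1 hκK, e, he, rfl⟩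
    have hE1 := hE _ hmem
    by_contra hcon
    push Not at hcon
    apply hno
    refine ⟨e, he, ?_, ?_⟩
    · intro x
      by_contra hx
      have hx' : a' (plJ J c d C (κ, e.1) (κ, e.2) x) = true := by
        simpa using hx
      have hmemx := (hE1.1 x x).2.1
      rcases gno_place_snd J c d C (κ, e.1) (κ, e.2) x with h1 | h1
      · exact hcon.1 (decide_eq_true ⟨_, hmemx, hx', h1⟩)
      · exact hcon.2 (decide_eq_true ⟨_, hmemx, hx', h1⟩)
    · intro i x
      by_contra hx
      have hx' : a' ((4 + (i : ℕ), (x : ℕ), (κ, e.1), (κ, e.2)) : GV (ℕ × V)) = true := by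
        simpa using hx
      have hmemx := (hE1.2 i x x).1
      exact hcon.1 (decide_eq_true ⟨_, hmemx, hx', rfl⟩)
  have hsz : ∀ κ, dsz B (aκ κ) ≤
      (((ends E).toFinset.filter (fun v => a' v = true)).filter (fun p => p.2.2.1.1 = κ)).card := by
    intro κ
    have hsub : (ends B).toFinset.filter (fun v => aκ κ v = true) ⊆
        (((ends E).toFinset.filter (fun v => a' v = true)).filter
          (fun p => p.2.2.1.1 = κ)).image (fun p => p.2.2.1.2) := by
      intro u hu
      obtain ⟨-, hu2⟩ := Finset.mem_filter.1 hu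
      obtain ⟨p, hp, hpa, hpu⟩ := of_decide_eq_true hu2
      rw [Finset.mem_image]
      refine ⟨p, Finset.mem_filter.2 ⟨Finset.mem_filter.2 ⟨List.mem_toFinset.2 hp, hpa⟩, ?_⟩, ?_⟩
      · rw [hpu]
      · rw [hpu]
    exact (Finset.card_le_card hsub).trans Finset.card_image_le
  obtain ⟨κ₀, hκ₀, hmin⟩ := Finset.exists_min_image _ (fun κ => dsz B (aκ κ)) hne
  refine ⟨aκ κ₀, hcov κ₀ hκ₀, ?_⟩
  calc (K + 1 - N) * dsz B (aκ κ₀)
      ≤ ((Finset.range K).filter (fun κ => ¬ opn κ)).card * dsz B (aκ κ₀) :=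
        Nat.mul_le_mul_right _ hcard
    _ = ∑ κ ∈ (Finset.range K).filter (fun κ => ¬ opn κ), dsz B (aκ κ₀) := by
        rw [Finset.sum_const, smul_eq_mul]
    _ ≤ ∑ κ ∈ (Finset.range K).filter (fun κ => ¬ opn κ),
        (((ends E).toFinset.filter (fun v => a' v = true)).filter
          (fun p => p.2.2.1.1 = κ)).card :=
        Finset.sum_le_sum fun κ hκ => (hmin κ hκ).trans (hsz κ)
    _ ≤ ((ends E).toFinset.filter (fun v => a' v = true)).card := by
        rw [← Finset.card_biUnion]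
        · apply Finset.card_le_card
          intro p hp
          obtain ⟨κ, -, hp2⟩ := Finset.mem_biUnion.1 hp
          exact (Finset.mem_filter.1 hp2).1
        · intro x _ y _ hxy
          refine Finset.disjoint_left.2 fun p hp hq => hxy ?_
          rw [← (Finset.mem_filter.1 hp).2, ← (Finset.mem_filter.1 hq).2]
    _ = dsz E a' := rfl

end Pool.Agent.Lib.MP_87d05f_lc.ND
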