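import Pool.Agent.Lib.MP_87d05f_lc.ND.Stm

set_option autoImplicit false

/-!
# A vertex cover of the base graph gives a solution
-/

namespace Pool.Agent.Lib.MP_87d05f_lc.ND

open Pool.Agent.PolyTime Function Turing

section aux

variable {V : Type}

/-- the number in `p` as a vertex of `J` -/
private def gyes_num (J : FG) (c : Fin J.1) (p : GV V) : Fin J.1 :=
  if h : p.2.1 < J.1 then ⟨p.2.1, h⟩ else c

private theorem gyes_num_eq (J : FG) (c : Fin J.1) (t : ℕ) (x : Fin J.1) (u v : V) :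
    gyes_num J c (t, (x : ℕ), u, v) = x := by
  unfold gyes_num
  rw [dif_pos x.2]

private theorem gyes_lab3 (J : FG) (l : Fin J.1 → ℕ) (t : ℕ) (ht : t ≠ 2) (x : Fin J.1) (u v : V) :
    labG J l (t, (x : ℕ), u, v) = Sum.inl (l x) := by
  unfold labG
  rw [if_neg ht, dif_pos x.2]

private theorem gyes_lab2 (J : FG) (l : Fin J.1 → ℕ) (x : ℕ) (u v : V) :
    labG J l (2, x, u, v) = Sum.inr (u, v) := by
  unfold labG
  rw [if_pos rfl]

private theorem gyes_root (a : V → Bool) (t x : ℕ) (ht : t ≠ 2) (u v : V) :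
    root a (t, x, u, v) = u := by
  unfold root
  simp [ht]

/-- the size of the label classes -/
private theorem gyes_cls [DecidableEq V] (hshp : R_gshp) (J : FG) (c : Fin J.1) (L : List FG)
    (d : Fin J.1) (l : Fin J.1 → ℕ) (s : ℕ) (C : ℕ → Bool) (hl : Lab J c d l s)
    (hC : CLab J c l C) (hc : C c = false) (hd : C d = true)
    (B : List (V × V)) (a : V → Bool) (r : V) (m : ℕ ⊕ (V × V)) (W : Set (GV V))
    (hW : ∀ p ∈ W, p ∈ ends (gad J c d C L B) ∧ p.1 ≠ 0 ∧ p.1 < 4 ∧ root a p = r ∧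
      labG J l p = m) :
    (∃ k, m = Sum.inl k ∧ k ≠ 0 ∧ W.ncard ≤ {x | x ≠ c ∧ l x = k}.ncard) ∨ W.ncard < s := by
  rcases m with k | ⟨v1, v2⟩
  · have h3 : ∀ p ∈ W, ∃ x : Fin J.1, C x = false ∧ x ≠ c ∧ p = (3, (x : ℕ), r, r) ∧ l x = k := by
      intro p hp
      obtain ⟨h1, h2, h4, h5, h6⟩ := hW p hp
      rcases hshp J c d C L V B hc hd p h1 with ⟨u, _, rfl⟩ | ⟨e, _, x, _, _, rfl⟩ |
        ⟨u, _, x, hx1, hx2, rfl⟩ | ⟨e, _, i, x, rfl⟩
      · exact absurd rfl h2
      · rw [gyes_lab2] at h6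
        exact absurd h6 (by simp)
      · rw [gyes_lab3 _ _ _ (by norm_num)] at h6
        rw [gyes_root _ _ _ (by norm_num)] at h5
        refine ⟨x, hx1, hx2, ?_, ?_⟩
        · rw [h5]
        · simpa using h6
      · simp at h4
    by_cases hk : k = 0
    · right
      have : W = ∅ := by
        rw [Set.eq_empty_iff_forall_notMem]
        intro p hp
        obtain ⟨x, hx1, hx2, _, hx3⟩ := h3 p hp
        rw [(hC x).2 ⟨hx2, hx3.trans hk⟩] at hx1
        exact absurd hx1 (by simp)
      rw [this, Set.ncard_empty]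
      exact hl.pos
    · left
      refine ⟨k, rfl, hk, ?_⟩
      refine Set.ncard_le_ncard_of_injOn (gyes_num J c) ?_ ?_ (Set.toFinite _)
      · intro p hp
        obtain ⟨x, _, hx2, hx3, hx4⟩ := h3 p hp
        rw [hx3, gyes_num_eq]
        exact ⟨hx2, hx4⟩
      · intro p hp q hq hpq
        obtain ⟨x, _, _, hx3, _⟩ := h3 p hp
        obtain ⟨y, _, _, hy3, _⟩ := h3 q hq
        rw [hx3, hy3, gyes_num_eq, gyes_num_eq] at hpq
        rw [hx3, hy3, hpq]
  · right
    have h3 : ∀ p ∈ W, ∃ x : Fin J.1, C x = true ∧ x ≠ d ∧ p = (2, (x : ℕ), v1, v2) := by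
      intro p hp
      obtain ⟨h1, h2, h4, h5, h6⟩ := hW p hp
      rcases hshp J c d C L V B hc hd p h1 with ⟨u, _, rfl⟩ | ⟨e, _, x, hx1, hx2, rfl⟩ |
        ⟨u, _, x, hx1, hx2, rfl⟩ | ⟨e, _, i, x, rfl⟩
      · exact absurd rfl h2
      · rw [gyes_lab2] at h6
        simp only [Sum.inr.injEq, Prod.mk.injEq] at h6
        exact ⟨x, hx1, hx2, by rw [h6.1, h6.2]⟩
      · rw [gyes_lab3 _ _ _ (by norm_num)] at h6
        exact absurd h6 (by simp)
      · simp at h4
    have h4 : W.ncard ≤ ({x | x ≠ c ∧ l x = 0} \ {d}).ncard := by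
      refine Set.ncard_le_ncard_of_injOn (gyes_num J c) ?_ ?_ (Set.toFinite _)
      · intro p hp
        obtain ⟨x, hx1, hx2, hx3⟩ := h3 p hp
        rw [hx3, gyes_num_eq]
        exact ⟨(hC x).1 hx1, hx2⟩
      · intro p hp q hq hpq
        obtain ⟨x, _, _, hx3⟩ := h3 p hp
        obtain ⟨y, _, _, hy3⟩ := h3 q hq
        rw [hx3, hy3, gyes_num_eq, gyes_num_eq] at hpq
        rw [hx3, hy3, hpq]
    have h5 : ({x | x ≠ c ∧ l x = 0} \ {d}).ncard < {x | x ≠ c ∧ l x = 0}.ncard :=
      Set.ncard_diff_singleton_lt_of_mem ⟨hl.dne, hl.dl⟩ (Set.toFinite _)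
    exact h4.trans_lt (h5.trans_le (hl.cls 0))

/-- functions that are constant on edges are constant on components -/
private theorem gyes_const {T α : Type} (G : SimpleGraph T) (F : T → α)
    (h : ∀ p q, G.Adj p q → F p = F q) (p q : T) (hr : G.Reachable p q) : F p = F q := by
  obtain ⟨w⟩ := hr
  induction w with
  | nil => rfl
  | cons h1 _ ih => exact (h _ _ h1).trans ih

private theorem gyes_constX {T α : Type} (G : SimpleGraph T) (F : T → α)
    (X : G.ConnectedComponent)
    (h : ∀ p q, p ∈ X.supp → q ∈ X.supp → G.Adj p q → F p = F q) (p q : T)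
    (hp : p ∈ X.supp) (hr : G.Reachable p q) : F p = F q := by
  obtain ⟨w⟩ := hr
  induction w with
  | nil => rfl
  | cons h1 _ ih =>
    have h2 := (SimpleGraph.ConnectedComponent.mem_supp_congr_adj X h1).1 hp
    exact (h _ _ hp h2 h1).trans (ih h2)

end aux

theorem p_gyes : S_gyes := by
  intro hshp hloc hemb hloop hpro FF J c L N d l s C hcore hl hC V _ B a hB hcov
  have hc : C c = false := by
    cases h : C c with
    | false => rfl
    | true => exact absurd rfl ((hC c).1 h).1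
  have hd : C d = true := (hC d).2 ⟨hl.dne, hl.dl⟩
  rintro H hH ⟨f, hf1, hf2, hf3⟩
  let T : Type := {p : GV V // p ∈ ends (gad J c d C L B) ∧
    (decide (p.1 = 0) && a p.2.2.1) = false}
  have hT : Finite T := by
    have h1 : {p : GV V | p ∈ ends (gad J c d C L B) ∧
      (decide (p.1 = 0) && a p.2.2.1) = false}.Finite :=
      (List.finite_toSet (ends (gad J c d C L B))).subset (fun p hp => hp.1)
    exact h1.to_subtype
  have hirr : ∀ p : GV V, ¬ adjL (gad J c d C L B) p p := by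
    intro p hp
    rcases hp with h | h
    · exact hloop J c d C L V B hc hd hB _ h rfl
    · exact hloop J c d C L V B hc hd hB _ h rfl
  let G : SimpleGraph T := SimpleGraph.mk (fun p q : T => adjL (gad J c d C L B) p.1 q.1)
    (by constructor; intro p q h; exact Or.symm h) (by constructor; intro p h; exact hirr p.1 h)
  have hGadj : ∀ p q : T, G.Adj p q ↔ adjL (gad J c d C L B) p.1 q.1 := fun p q => Iff.rfl
  refine (hcore.good T G ?_ H hH).false ⟨⟨fun i => ⟨f i, hf2 i⟩, ?_⟩, ?_⟩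
  swap
  · intro i j hij
    exact hf1 (congrArg Subtype.val hij)
  swap
  · intro i j
    exact (hf3 i j).symm
  -- the components
  intro X
  obtain ⟨p₀, hX⟩ := X.exists_rep
  have hX' : G.connectedComponentMk p₀ = X := hX
  clear hX
  have hp₀ : p₀ ∈ X.supp := hX'
  have hreach : ∀ q ∈ X.supp, G.Reachable p₀ q := by
    intro q hq
    rw [SimpleGraph.ConnectedComponent.mem_supp_iff, ← hX', SimpleGraph.ConnectedComponent.eq] at hq
    exact hq.symm
  have hgl := fun p q : T => hloc J c L d l s C hl hC V B a hB hcov p.1 q.1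
  by_cases h4 : 4 ≤ p₀.1.1
  · -- an additional component
    left
    have hconst : ∀ q ∈ X.supp, q.1.1 = p₀.1.1 ∧ q.1.2.2 = p₀.1.2.2 := by
      have h1 : ∀ p q : T, G.Reachable p q → 4 ≤ p.1.1 → q.1.1 = p.1.1 ∧ q.1.2.2 = p.1.2.2 := by
        intro p q hr
        obtain ⟨w⟩ := hr
        induction w with
        | nil => exact fun _ => ⟨rfl, rfl⟩
        | @cons p r q h _ ih =>
          intro hp
          have h2 := (hgl p r h p.2.2 r.2.2).1 hp
          have h3 := ih (h2.1 ▸ hp)
          exact ⟨h3.1.trans h2.1, h3.2.trans h2.2⟩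
      intro q hq
      exact h1 p₀ q (hreach q hq) h4
    obtain ⟨e, he, i, x, hpx⟩ : ∃ e ∈ B, ∃ (i : Fin L.length) (x : Fin (L.get i).1),
        p₀.1 = (4 + (i : ℕ), (x : ℕ), e.1, e.2) := by
      rcases hshp J c d C L V B hc hd p₀.1 p₀.2.1 with ⟨u, _, h⟩ | ⟨e, _, x, _, _, h⟩ |
        ⟨u, _, x, _, _, h⟩ | h
      · rw [h] at h4; simp at h4
      · rw [h] at h4; simp at h4
      · rw [h] at h4; simp at h4
      · exact h
    have hem := (hemb J c L d l s C hcore.conn hcore.two hcore.mem hl hC V B hB e he).2 i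
    have hLi : (L.get i).2.Connected := (hcore.mem _ (List.get_mem L i)).1
    let ψ : Fin (L.get i).1 → T := fun y => ⟨(4 + (i : ℕ), (y : ℕ), e.1, e.2), (hem y y).1, by simp⟩
    have hψinj : Injective ψ := by
      intro y y' h
      have h1 := congrArg (fun p : T => p.1.2.1) h
      exact Fin.ext h1
    have hψadj : ∀ y y', (L.get i).2.Adj y y' ↔ G.Adj (ψ y) (ψ y') := fun y y' => (hem y y').2
    have hψx : ψ x = p₀ := Subtype.ext hpx.symm
    have hψmem : ∀ y, ψ y ∈ X.supp := by
      intro y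
      rw [SimpleGraph.ConnectedComponent.mem_supp_iff, ← hX', SimpleGraph.ConnectedComponent.eq,
        ← hψx]
      let hom : (L.get i).2 →g G := ⟨ψ, fun {y y'} h => (hψadj y y').1 h⟩
      exact (hLi.preconnected y x).map hom
    have hψsurj : ∀ q ∈ X.supp, ∃ y, ψ y = q := by
      intro q hq
      obtain ⟨h1, h2⟩ := hconst q hq
      rw [hpx] at h1 h2
      simp only at h1 h2
      rcases hshp J c d C L V B hc hd q.1 q.2.1 with ⟨u, _, h⟩ | ⟨e, _, x, _, _, h⟩ |
        ⟨u, _, x, _, _, h⟩ | ⟨e', _, i', y, h⟩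
      · exfalso; rw [h] at h1; change 0 = 4 + (i : ℕ) at h1; omega
      · exfalso; rw [h] at h1; change 2 = 4 + (i : ℕ) at h1; omega
      · exfalso; rw [h] at h1; change 3 = 4 + (i : ℕ) at h1; omega
      · rw [h] at h1 h2
        simp only at h1 h2
        have hi : i' = i := Fin.ext (by omega)
        subst hi
        refine ⟨y, Subtype.ext ?_⟩
        rw [h]
        change (4 + (i' : ℕ), (y : ℕ), e.1, e.2) = (4 + (i' : ℕ), (y : ℕ), e'.1, e'.2)
        rw [h2]
    refine ⟨L.get i, List.get_mem L i, ⟨RelIso.symm ?_⟩⟩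
    refine ⟨Equiv.ofBijective (fun y => (⟨ψ y, hψmem y⟩ : X.supp)) ⟨?_, ?_⟩, ?_⟩
    · intro y y' h
      exact hψinj (congrArg Subtype.val h)
    · rintro ⟨q, hq⟩
      obtain ⟨y, hy⟩ := hψsurj q hq
      exact ⟨y, Subtype.ext hy⟩
    · intro y y'
      exact (hψadj y y').symm
  · -- a component with a root
    right
    have hlt : p₀.1.1 < 4 := by omega
    have hroot : ∀ q ∈ X.supp, q.1.1 < 4 ∧ root a q.1 = root a p₀.1 := by
      have h1 : ∀ p q : T, G.Reachable p q → p.1.1 < 4 → q.1.1 < 4 ∧ root a q.1 = root a p.1 := by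
        intro p q hr
        obtain ⟨w⟩ := hr
        induction w with
        | nil => exact fun h => ⟨h, rfl⟩
        | @cons p r q h _ ih =>
          intro hp
          have h2 := (hgl p r h p.2.2 r.2.2).2 hp
          have h3 := ih h2.1
          exact ⟨h3.1, h3.2.trans h2.2.1.symm⟩
      intro q hq
      exact h1 p₀ q (hreach q hq) hlt
    have hlab : ∀ p q : T, p ∈ X.supp → G.Adj p q → p.1.1 ≠ 0 → q.1.1 ≠ 0 →
        labG J l p.1 = labG J l q.1 := by
      intro p q hp hpq h0 h0'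
      exact ((hgl p q hpq p.2.2 q.2.2).2 (hroot p hp).1).2.2 h0 h0'
    have hsub : ∀ S : Set X.supp, S.ncard = ((fun w : X.supp => (w.1.1 : GV V)) '' S).ncard := by
      intro S
      rw [Set.ncard_image_of_injective]
      intro w w' h
      exact Subtype.ext (Subtype.ext h)
    have hXf : Finite X.supp := inferInstance
    by_cases h0 : ∃ u ∈ X.supp, u.1.1 = 0
    · obtain ⟨u, hu, hu0⟩ := h0
      have huniq : ∀ q ∈ X.supp, q.1.1 = 0 → q = u := by
        have h1 : ∀ q ∈ X.supp, q.1.1 = 0 → q.1 = (0, 0, root a p₀.1, root a p₀.1) := by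
          intro q hq hq0
          rcases hshp J c d C L V B hc hd q.1 q.2.1 with ⟨v, _, h⟩ | ⟨e, _, x, _, _, h⟩ |
            ⟨v, _, x, _, _, h⟩ | ⟨e', _, i', y, h⟩
          · have h2 := (hroot q hq).2
            rw [h, gyes_root _ _ _ (by norm_num)] at h2
            rw [h, h2]
          · rw [h] at hq0; simp at hq0
          · rw [h] at hq0; simp at hq0
          · rw [h] at hq0; simp at hq0
        intro q hq hq0
        exact Subtype.ext ((h1 q hq hq0).trans (h1 u hu hu0).symm)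
      refine ⟨⟨u, hu⟩, ?_⟩
      have hcls : ∀ m, (∃ k, m = Sum.inl k ∧ k ≠ 0 ∧
          {w : X.supp | w ≠ ⟨u, hu⟩ ∧ labG J l w.1.1 = m}.ncard ≤
            {x | x ≠ c ∧ l x = k}.ncard) ∨
          {w : X.supp | w ≠ ⟨u, hu⟩ ∧ labG J l w.1.1 = m}.ncard < s := by
        intro m
        rw [hsub]
        refine gyes_cls hshp J c L d l s C hl hC hc hd B a (root a p₀.1) m _ ?_
        rintro _ ⟨w, ⟨hw1, hw2⟩, rfl⟩
        refine ⟨w.1.2.1, ?_, (hroot w.1 w.2).1, (hroot w.1 w.2).2, hw2⟩
        intro hw0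
        exact hw1 (Subtype.ext (huniq w.1 w.2 hw0))
      refine hpro (cnt J.2 c) s hl.pos hl.top X.supp (G.induce X.supp) ⟨u, hu⟩ (ℕ ⊕ (V × V))
        (fun w => labG J l w.1.1) ?_ ?_ ?_
      · intro w w' hww hw hw'
        refine hlab w.1 w'.1 w.2 hww ?_ ?_
        · intro h; exact hw (Subtype.ext (huniq w.1 w.2 h))
        · intro h; exact hw' (Subtype.ext (huniq w'.1 w'.2 h))
      · intro m
        rcases hcls m with ⟨k, _, _, h⟩ | h
        · exact h.trans (hl.cls k)
        · exact h.le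
      · refine lt_of_le_of_lt ?_ hl.num
        have hfin : {m | m ≠ 0 ∧ {x | x ≠ c ∧ l x = m}.ncard = s}.Finite := by
          refine (Set.finite_range l).subset ?_
          rintro m ⟨_, hm⟩
          have h1 : {x | x ≠ c ∧ l x = m}.ncard ≠ 0 := by
            rw [hm]
            have := hl.pos
            omega
          obtain ⟨x, hx⟩ := Set.nonempty_of_ncard_ne_zero h1
          exact ⟨x, hx.2⟩
        rw [← Set.ncard_image_of_injective _ (Sum.inl_injective (α := ℕ) (β := V × V))]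
        refine Set.ncard_le_ncard ?_ (hfin.image _)
        intro m hm
        have hm' : {w : X.supp | w ≠ ⟨u, hu⟩ ∧ labG J l w.1.1 = m}.ncard = s := hm
        rcases hcls m with ⟨k, h1, h2, h3⟩ | h
        · refine ⟨k, ⟨h2, ?_⟩, h1.symm⟩
          exact le_antisymm (hl.cls k) (hm' ▸ h3)
        · omega
    · push Not at h0
      refine ⟨⟨p₀, hp₀⟩, ?_⟩
      have hconst : ∀ q ∈ X.supp, labG J l q.1 = labG J l p₀.1 := by
        intro q hq
        refine (gyes_constX G (fun p : T => labG J l p.1) X ?_ p₀ q hp₀ (hreach q hq)).symm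
        intro p q hp hq hpq
        exact hlab p q hp hpq (h0 p hp) (h0 q hq)
      have hcard : (Set.univ : Set X.supp).ncard ≤ s := by
        rw [hsub]
        rcases gyes_cls hshp J c L d l s C hl hC hc hd B a (root a p₀.1) (labG J l p₀.1)
          ((fun w : X.supp => (w.1.1 : GV V)) '' Set.univ) (by
            rintro _ ⟨w, _, rfl⟩
            exact ⟨w.1.2.1, h0 w.1 w.2, (hroot w.1 w.2).1, (hroot w.1 w.2).2,
              hconst w.1 w.2⟩) with ⟨k, _, _, h⟩ | h
        · exact h.trans (hl.cls k)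
        · exact h.le
      have hlt' : ∀ m : Unit, {w : X.supp | w ≠ ⟨p₀, hp₀⟩ ∧ () = m}.ncard < s := by
        intro m
        refine lt_of_lt_of_le (Set.ncard_lt_ncard ?_ (Set.toFinite _)) hcard
        rw [Set.ssubset_univ_iff]
        intro h
        have h1 : (⟨p₀, hp₀⟩ : X.supp) ∈ {w : X.supp | w ≠ ⟨p₀, hp₀⟩ ∧ () = m} := by
          rw [h]; exact Set.mem_univ _
        exact h1.1 rfl
      refine hpro (cnt J.2 c) s hl.pos hl.top X.supp (G.induce X.supp) ⟨p₀, hp₀⟩ Unit
        (fun _ => ()) ?_ ?_ ?_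
      · intro _ _ _ _ _
        rfl
      · intro m
        exact (hlt' m).le
      · refine lt_of_le_of_lt (le_of_eq ?_) (lt_of_le_of_lt (Nat.zero_le _) hl.num)
        have : {m : Unit | {w : X.supp | w ≠ ⟨p₀, hp₀⟩ ∧ () = m}.ncard = s} = ∅ := by
          rw [Set.eq_empty_iff_forall_notMem]
          intro m hm
          exact (hlt' m).ne hm
        rw [this, Set.ncard_empty]

end Pool.Agent.Lib.MP_87d05f_lc.ND
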