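import Pool.Agent.Lib.MP_87d05f_lc.ND.Stm

set_option autoImplicit false

/-!
# Piece gysz: the number of vertices of the solution
-/

namespace Pool.Agent.Lib.MP_87d05f_lc.ND

open Function

private theorem gysz_place {V : Type} (u v : V) (s : Slt) (h : (place u v s).1 = 0) :
    place u v s = (0, 0, u, u) ∨ place u v s = (0, 0, v, v) := by
  unfold place at h ⊢
  by_cases h0 : s.1 = 0
  · left; simp [h0]
  · by_cases h1 : s.1 = 1
    · right; simp [h1]
    · by_cases h3 : s.1 = 3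
      · simp [h3] at h
      · simp [h0, h1, h3] at h

private theorem gysz_ends {V : Type} [DecidableEq V] (tv te : List (Slt × Slt)) (B : List (V × V))
    (p : GV V) (hp : p ∈ ends (gadT tv te B)) (h0 : p.1 = 0) :
    ∃ u ∈ ends B, p = (0, 0, u, u) := by
  have hB1 : ∀ e ∈ B, e.1 ∈ ends B := fun e he => List.mem_flatMap.2 ⟨e, he, by simp⟩
  have hB2 : ∀ e ∈ B, e.2 ∈ ends B := fun e he => List.mem_flatMap.2 ⟨e, he, by simp⟩
  obtain ⟨e, he, hpe⟩ := List.mem_flatMap.1 hp
  unfold gadT at he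
  rw [List.mem_append] at he
  rcases he with he | he
  · obtain ⟨u, hu, he⟩ := List.mem_flatMap.1 he
    rw [mem_ded] at hu
    obtain ⟨s, _, rfl⟩ := List.mem_map.1 he
    have h1 : p = place u u s.1 ∨ p = place u u s.2 := by simpa using hpe
    rcases h1 with rfl | rfl
    · rcases gysz_place _ _ _ h0 with h | h <;> exact ⟨u, hu, h⟩
    · rcases gysz_place _ _ _ h0 with h | h <;> exact ⟨u, hu, h⟩
  · obtain ⟨f, hf, he⟩ := List.mem_flatMap.1 he
    obtain ⟨s, _, rfl⟩ := List.mem_map.1 he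
    have h1 : p = place f.1 f.2 s.1 ∨ p = place f.1 f.2 s.2 := by simpa using hpe
    rcases h1 with rfl | rfl
    · rcases gysz_place _ _ _ h0 with h | h
      · exact ⟨f.1, hB1 f hf, h⟩
      · exact ⟨f.2, hB2 f hf, h⟩
    · rcases gysz_place _ _ _ h0 with h | h
      · exact ⟨f.1, hB1 f hf, h⟩
      · exact ⟨f.2, hB2 f hf, h⟩

theorem p_gysz : S_gysz := by
  intro J c d C L V _ B a
  unfold dsz
  have key : ∀ p ∈ (ends (gad J c d C L B)).toFinset.filter
      (fun p => (decide (p.1 = 0) && a p.2.2.1) = true),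
      ∃ u ∈ ends B, p = (0, 0, u, u) ∧ a u = true := by
    intro p hp
    rw [Finset.mem_filter, List.mem_toFinset, Bool.and_eq_true, decide_eq_true_eq] at hp
    obtain ⟨hp1, hp2, hp3⟩ := hp
    obtain ⟨u, hu, rfl⟩ := gysz_ends _ _ B p hp1 hp2
    exact ⟨u, hu, rfl, hp3⟩
  apply Finset.card_le_card_of_injOn (fun p : GV V => p.2.2.1)
  · intro p hp
    obtain ⟨u, hu, rfl, hau⟩ := key p hp
    rw [Finset.mem_coe, Finset.mem_filter, List.mem_toFinset]
    exact ⟨hu, hau⟩
  · intro p hp q hq hpq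
    obtain ⟨u, _, rfl, _⟩ := key p hp
    obtain ⟨v, _, rfl, _⟩ := key q hq
    have h : u = v := hpq
    rw [h]

end Pool.Agent.Lib.MP_87d05f_lc.ND
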