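import Pool.Agent.Lib.MP_87d05f_lc.ND.Stm

set_option autoImplicit false

/-!
# Vertex deletion problems: assembly of the hardness part
-/

namespace Pool.Agent.Lib.MP_87d05f_lc.ND

open Pool.Agent.PolyTime Function Turing

theorem hard_mem_cop {V : Type} {K : ℕ} {B : List (V × V)} {g : (ℕ × V) × (ℕ × V)} :
    g ∈ cop K B ↔ ∃ κ < K, ∃ e ∈ B, g = ((κ, e.1), (κ, e.2)) := by
  unfold cop
  rw [List.mem_flatMap]
  constructor
  · rintro ⟨κ, hκ, hg⟩
    obtain ⟨e, he, rfl⟩ := List.mem_map.1 hg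
    exact ⟨κ, List.mem_range.1 hκ, e, he, rfl⟩
  · rintro ⟨κ, hκ, e, he, rfl⟩
    exact ⟨κ, List.mem_range.2 hκ, List.mem_map.2 ⟨e, he, rfl⟩⟩

theorem hard_asym {V : Type} {K : ℕ} {B : List (V × V)} (h : Asym B) : Asym (cop K B) := by
  intro u v h1 h2
  obtain ⟨κ, _, e, he, h3⟩ := hard_mem_cop.1 h1
  obtain ⟨κ', _, e', he', h4⟩ := hard_mem_cop.1 h2
  rw [Prod.mk.injEq] at h3 h4
  have h5 : e.1 = e'.2 := (Prod.mk.inj (h3.1.symm.trans h4.2)).2
  have h6 : e.2 = e'.1 := (Prod.mk.inj (h3.2.symm.trans h4.1)).2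
  refine h e.1 e.2 he ?_
  rw [h5, h6]
  exact he'

theorem hard_cov {V : Type} {K : ℕ} {B : List (V × V)} {a : V → Bool} (h : Cov B a) :
    Cov (cop K B) (fun p => a p.2) := by
  intro g hg
  obtain ⟨κ, _, e, he, rfl⟩ := hard_mem_cop.1 hg
  exact h e he

theorem hard_mem_ends {T : Type} {E : List (T × T)} {v : T} :
    v ∈ ends E ↔ ∃ e ∈ E, v = e.1 ∨ v = e.2 := by
  unfold ends
  rw [List.mem_flatMap]
  constructor
  · rintro ⟨e, he, hv⟩
    refine ⟨e, he, ?_⟩
    simpa using hv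
  · rintro ⟨e, he, hv⟩
    refine ⟨e, he, ?_⟩
    simpa using hv

theorem hard_dsz {V : Type} [DecidableEq V] (K : ℕ) (B : List (V × V)) (a : V → Bool) :
    dsz (cop K B) (fun p => a p.2) ≤ K * dsz B a := by
  unfold dsz
  have h1 : ((ends (cop K B)).toFinset.filter (fun v => a v.2 = true)) ⊆
      (Finset.range K) ×ˢ ((ends B).toFinset.filter (fun v => a v = true)) := by
    intro p hp
    rw [Finset.mem_filter, List.mem_toFinset] at hp
    obtain ⟨hp, ha⟩ := hp
    obtain ⟨g, hg, hpg⟩ := hard_mem_ends.1 hp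
    obtain ⟨κ, hκ, e, he, rfl⟩ := hard_mem_cop.1 hg
    rw [Finset.mem_product, Finset.mem_range, Finset.mem_filter, List.mem_toFinset]
    rcases hpg with rfl | rfl
    · exact ⟨hκ, hard_mem_ends.2 ⟨e, he, Or.inl rfl⟩, ha⟩
    · exact ⟨hκ, hard_mem_ends.2 ⟨e, he, Or.inr rfl⟩, ha⟩
  refine (Finset.card_le_card h1).trans ?_
  rw [Finset.card_product, Finset.card_range]

theorem hard_count {T : Type} (b₁ b₂ : BEq T) (h₁ : @LawfulBEq T b₁) (h₂ : @LawfulBEq T b₂) (v : T)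
    (l : List T) : @List.count T b₁ v l = @List.count T b₂ v l := by
  have h : b₁ = b₂ := lawful_beq_subsingleton b₁ b₂
  subst h
  rfl

theorem hard_nlit {F : List (List (Bool × ℕ))} (hne : [] ∉ F) (h3 : ∀ c ∈ F, c.length ≤ 3) :
    F.length ≤ nlit (binF F) ∧ nlit (binF F) ≤ 3 * F.length := by
  unfold nlit binF
  induction F with
  | nil => simp
  | cons c F ih =>
    obtain ⟨i1, i2⟩ := ih (fun h => hne (List.mem_cons_of_mem _ h))
      (fun c hc => h3 c (List.mem_cons_of_mem _ hc))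
    have h1 : c ≠ [] := by
      rintro rfl
      exact hne List.mem_cons_self
    have h2 : 0 < c.length := List.length_pos_iff.2 h1
    have h4 := h3 c List.mem_cons_self
    rw [List.map_cons, List.map_cons, List.sum_cons, List.length_cons, List.length_map]
    omega

theorem hard_falsB (F : List (List (Bool × ℕ))) (al : List Bool → Bool) :
    F.countP (falsB (fun v => al (Nat.bits v))) = (binF F).countP (falsB al) := by
  unfold binF
  rw [List.countP_map]
  congr 1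
  funext c
  simp only [Function.comp, falsB, List.any_map]
  rfl

theorem hard_arith {p q N K m x f z w : ℕ} (hp : 0 < p) (hq : 0 < q) (hN : 1 ≤ N)
    (hK : K = 8 * q * N) (hm : 0 < m) (hx : x ≤ 2 * m) (hf : p * m ≤ q * f)
    (hz : x + f ≤ z) (hw : (K + 1 - N) * z ≤ w) : (8 * q + p) * (K * x) < 8 * q * w := by
  have hKpos : 0 < K := by
    rw [hK]
    positivity
  have hNK : N ≤ K := by
    rw [hK]
    exact Nat.le_mul_of_pos_left N (by omega)
  have h1 : (K - N) * (x + f) ≤ w := by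
    refine le_trans ?_ hw
    exact Nat.mul_le_mul (by omega) hz
  have h2 : 8 * q * (K - N) = K * (8 * q - 1) := by
    rw [Nat.mul_sub, Nat.mul_sub, Nat.mul_one, ← hK, Nat.mul_comm]
  have h3 : K * (8 * q - 1) * (x + f) ≤ 8 * q * w := by
    rw [← h2, Nat.mul_assoc]
    exact Nat.mul_le_mul_left _ h1
  refine lt_of_lt_of_le ?_ h3
  have h4 : (8 * q + p) * (K * x) = K * ((8 * q + p) * x) := by ring
  rw [h4, Nat.mul_assoc]
  refine Nat.mul_lt_mul_of_pos_left ?_ hKpos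
  obtain ⟨r, hr⟩ : ∃ r, 8 * q = r + 1 := ⟨8 * q - 1, by omega⟩
  have h5 : (p + 1) * x ≤ 4 * (p * m) := by
    calc (p + 1) * x ≤ (p + p) * (2 * m) := Nat.mul_le_mul (by omega) hx
      _ = 4 * (p * m) := by ring
  have h6 : 7 * (q * f) ≤ r * f := by
    rw [← Nat.mul_assoc]
    exact Nat.mul_le_mul_right _ (by omega)
  have h7 : 0 < p * m := Nat.mul_pos hp hm
  rw [hr, Nat.add_sub_cancel]
  have h8 : (r + 1 + p) * x = r * x + (p + 1) * x := by ring
  rw [h8, Nat.mul_add]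
  omega

theorem hard_rat {p q t w : ℕ} (hq : 0 < q) (h : (8 * q + p) * t < 8 * q * w) :
    (1 + (p : ℚ) / ((8 * q : ℕ) : ℚ)) * (t : ℚ) < (w : ℚ) := by
  have hq' : (0 : ℚ) < ((8 * q : ℕ) : ℚ) := by
    have : 0 < 8 * q := by omega
    exact_mod_cast this
  have h1 : (((8 * q + p) * t : ℕ) : ℚ) < ((8 * q * w : ℕ) : ℚ) := by exact_mod_cast h
  have h2 : (1 + (p : ℚ) / ((8 * q : ℕ) : ℚ)) * (t : ℚ) =
      (((8 * q + p) * t : ℕ) : ℚ) / ((8 * q : ℕ) : ℚ) := by
    rw [eq_div_iff hq'.ne']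
    have h3 : (1 + (p : ℚ) / ((8 * q : ℕ) : ℚ)) * (t : ℚ) * ((8 * q : ℕ) : ℚ) =
        (((8 * q : ℕ) : ℚ) + (p : ℚ) / ((8 * q : ℕ) : ℚ) * ((8 * q : ℕ) : ℚ)) * (t : ℚ) := by ring
    rw [h3, div_mul_cancel₀ _ hq'.ne']
    push_cast
    ring
  rw [h2, div_lt_iff₀ hq']
  refine h1.trans_le (le_of_eq ?_)
  push_cast
  ring

theorem p_hard : S_hard := by
  intro hcore hlab hgyes hgysz hgno hgdeg hgloop hnrm hmap hconf hvc hnmG hptA FF hne hedge hG
  obtain ⟨p, q, b, hp, hpq, hb, hno⟩ := sparse_of hG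
  obtain ⟨J, c, L, N, hC⟩ := hcore FF hne hedge
  obtain ⟨d, l, s, hL⟩ := hlab J c hC.two
  obtain ⟨C, hCL⟩ : ∃ C : ℕ → Bool, CLab J c l C := by
    refine ⟨fun x => decide (∃ y : Fin J.1, (y : ℕ) = x ∧ y ≠ c ∧ l y = 0), fun x => ?_⟩
    rw [decide_eq_true_eq]
    constructor
    · rintro ⟨y, hy, h1, h2⟩
      have : y = x := Fin.ext hy
      rw [← this]
      exact ⟨h1, h2⟩
    · rintro ⟨h1, h2⟩
      exact ⟨x, rfl, h1, h2⟩
  have hCc : C c = false := by
    rw [← Bool.not_eq_true]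
    intro h
    exact ((hCL c).1 h).1 rfl
  have hCd : C d = true := (hCL d).2 ⟨hL.dne, hL.dl⟩
  obtain ⟨D₁, hD₁⟩ := hgdeg (tabV J c d C) (tabE J c d C L)
  have hq : 0 < q := by omega
  have hN := hC.pos
  obtain ⟨K, hK⟩ : ∃ K, K = 8 * q * N := ⟨_, rfl⟩
  have hKpos : 0 < K := by
    rw [hK]
    positivity
  have hε : (0 : ℚ) < (p : ℚ) / ((8 * q : ℕ) : ℚ) := by
    have h1 : (0 : ℚ) < p := by exact_mod_cast hp
    have h2 : (0 : ℚ) < ((8 * q : ℕ) : ℚ) := by
      have : 0 < 8 * q := by omega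
      exact_mod_cast this
    positivity
  refine ⟨D₁ * 13, (p : ℚ) / ((8 * q : ℕ) : ℚ), hε, (D₁ + 1) * (K * 36) * b, by positivity,
    fun hsep => hno ?_⟩
  have hh : PTime (fun x => mydiv (parse x).length b) :=
    mydiv_ptime (PTime.length parse_ptime) (PTime.const b)
  refine transfer (hptA (tabV J c d C) (tabE J c d C L) K) hh (fun F _ => length_le_encF F) ?_ hsep
  rintro F ⟨hne, h3, h0, hocc⟩
  have hlen : (parse (encF F)).length = F.length := by
    rw [parse_encF]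
    unfold binF
    rw [List.length_map]
  have hm : 0 < F.length := List.length_pos_iff.2 hne
  obtain ⟨hn1, hn2⟩ := hard_nlit h0 h3
  simp only [hlen, mydiv_eq hb]
  rw [parse_encF]
  have hlenb : (binF F).length = F.length := by
    unfold binF
    rw [List.length_map]
  have hocc' : ∀ w, (vlist (binF F)).count w ≤ 3 := by
    intro w
    refine le_trans (le_of_eq ?_) (countP_binF hocc w)
    rw [List.count_eq_countP]
    refine List.countP_congr fun u _ => ?_
    simp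
  have hocc'' : ∀ w, @List.count (List Bool) instBEqOfDecidableEq w (vlist (binF F)) ≤ 3 := by
    intro w
    refine le_trans (le_of_eq ?_) (hocc' w)
    exact hard_count _ _ inferInstance inferInstance _ _
  have h3' : ∀ c ∈ binF F, c.length ≤ 3 := by
    intro c hc
    obtain ⟨c₀, hc₀, rfl⟩ := List.mem_map.1 hc
    rw [List.length_map]
    exact h3 c₀ hc₀
  obtain ⟨hasy, hconf2⟩ := hconf (List Bool) (binF F)
  obtain ⟨hcnt, hBlen⟩ := hconf2 h3' hocc''
  obtain ⟨hvc1, hvc2⟩ := hvc (List Bool) (binF F)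
  obtain ⟨hdeg, hnv⟩ := hD₁ (ℕ × ℕ) (confE (binF F)) K 12
    (fun v => (hard_count _ _ inferInstance inferInstance _ _).le.trans (hcnt v))
  have hasyK : Asym (cop K (confE (binF F))) := hard_asym hasy
  have hloop := hgloop J c d C L (ℕ × (ℕ × ℕ)) (cop K (confE (binF F))) hCc hCd hasyK
  obtain ⟨hsim, hcn, hnrm3⟩ := hnrm (GV (ℕ × (ℕ × ℕ))) (gad J c d C L (cop K (confE (binF F))))
  obtain ⟨hsol, hdsz, hnvn⟩ := hnrm3 hloop
  obtain ⟨m1, m2, m3, m4, m5, m6⟩ := hmap (GV (ℕ × (ℕ × ℕ))) ℕ nmG hnmG.1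
    (nrm (gad J c d C L (cop K (confE (binF F)))))
  have hE : redD (tabV J c d C) (tabE J c d C L) K (binF F) =
      nrm (gad J c d C L (cop K (confE (binF F)))) := rfl
  rw [hE]
  obtain ⟨E', hE'⟩ : ∃ E' : List (ℕ × ℕ), E' = (nrm (gad J c d C L (cop K (confE (binF F))))).map
    (fun e => (nmG e.1, nmG e.2)) := ⟨_, rfl⟩
  rw [← hE'] at m1 m2 m3 m4 m5
  refine ⟨(K * (nlit (binF F) - (binF F).length), E'), ⟨(m1 hsim).1, (m1 hsim).2,
    m2 (D₁ * 13) (fun v => (hcn v).trans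
      ((hard_count _ _ inferInstance inferInstance _ _).le.trans (hdeg v)))⟩, ?_, ?_, ?_, ?_, le_rfl⟩
  · unfold enCut
    simp only
    rw [hE', List.map_map, hlenb]
    congr 2
    refine List.map_congr_left fun e _ => ?_
    simp only [Function.comp, wordE, hnmG.2]
  · rintro ⟨a, ha⟩
    have h1 : ∃ a : List Bool → Bool, ∀ c ∈ binF F, ∃ l ∈ c, a l.2 = l.1 := by
      refine ⟨fun w => a (unbits w), ?_⟩
      intro c hc
      obtain ⟨c₀, hc₀, rfl⟩ := List.mem_map.1 hc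
      obtain ⟨l₀, hl₀, hl⟩ := ha c₀ hc₀
      refine ⟨(l₀.1, Nat.bits l₀.2), List.mem_map.2 ⟨l₀, hl₀, rfl⟩, ?_⟩
      simp only [unbits_bits]
      exact hl
    obtain ⟨a', hcov, hle⟩ := hvc1 h1
    have h2 := hgyes FF J c L N d l s C hC hL hCL (ℕ × (ℕ × ℕ)) (cop K (confE (binF F)))
      (fun p => a' p.2) hasyK (hard_cov hcov)
    have h4 := hgysz J c d C L (ℕ × (ℕ × ℕ)) (cop K (confE (binF F))) (fun p => a' p.2)
    obtain ⟨a'', ha''⟩ := m6 (fun p => decide (p.1 = 0) && (fun p : ℕ × (ℕ × ℕ) => a' p.2) p.2.2.1)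
    refine ⟨a'', ?_, ?_⟩
    · simp only
      rw [m4, ha'', hsol]
      exact h2
    · simp only
      rw [m5, ha'', hdsz]
      refine h4.trans ((hard_dsz K _ a').trans ?_)
      exact Nat.mul_le_mul_left _ (by omega)
  · intro hN3 a hs
    simp only at hs ⊢
    rw [m4, hsol] at hs
    obtain ⟨a₁, hcov, hle⟩ := hgno FF J c L N d l s C hC hL hCL (ℕ × ℕ) (confE (binF F)) K
      (fun v => a (nmG v)) hasy hs
    obtain ⟨α, hα⟩ := hvc2 a₁ hcov
    rw [← hard_falsB, hlenb] at hα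
    have h1 := hN3 (fun v => α (Nat.bits v))
    rw [frac_iff hq] at h1
    rw [m5, hdsz]
    refine hard_rat hq ?_
    refine hard_arith (f := F.countP (falsB (fun v => α (Nat.bits v))))
      (z := dsz (confE (binF F)) a₁) hp hq hN hK hm ?_ h1 ?_ hle
    · omega
    · omega
  · have h1 : nvCut (K * (nlit (binF F) - (binF F).length), E') ≤
        (D₁ + 1) * (K * 36) * F.length := by
      have h2 : nvCut (K * (nlit (binF F) - (binF F).length), E') = nv E' := rfl
      rw [h2, m3, hnvn]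
      refine hnv.trans ?_
      rw [Nat.mul_assoc, Nat.mul_assoc]
      refine Nat.mul_le_mul (by omega) (Nat.mul_le_mul_left _ ?_)
      rw [← hlenb]
      exact hBlen
    have h2 := Nat.div_le_div_right (c := (D₁ + 1) * (K * 36) * b) h1
    rwa [Nat.mul_div_mul_left _ _ (by positivity)] at h2

end Pool.Agent.Lib.MP_87d05f_lc.ND
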