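import Pool.Agent.Lib.MP_87d05f_lc.ND.Stm

set_option autoImplicit false

namespace Pool.Agent.Lib.MP_87d05f_lc.ND

open Pool.Agent.PolyTime Function Turing

theorem p_hit : S_hit := by
  intro hcopy T _ _ G E a
  constructor
  · intro hsol t ht
    unfold cps at ht
    rw [List.mem_flatMap] at ht
    obtain ⟨H, hH, ht⟩ := ht
    obtain ⟨f, hinj, hends, hadj, rfl⟩ := (hcopy T H E t).1 ht
    by_contra hno
    refine hsol H hH ⟨f, hinj, fun i => ⟨hends i, ?_⟩, hadj⟩
    cases hai : a (f i) with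
    | false => rfl
    | true => exact absurd ⟨f i, List.mem_ofFn.2 ⟨i, rfl⟩, hai⟩ hno
  · rintro hall H hH ⟨f, hinj, hfa, hadj⟩
    have ht : List.ofFn f ∈ cps G E := by
      unfold cps
      rw [List.mem_flatMap]
      exact ⟨H, hH, (hcopy T H E _).2 ⟨f, hinj, fun i => (hfa i).1, hadj, rfl⟩⟩
    obtain ⟨w, hw, haw⟩ := hall _ ht
    obtain ⟨i, rfl⟩ := List.mem_ofFn.1 hw
    rw [(hfa i).2] at haw
    exact absurd haw (by decide)

end Pool.Agent.Lib.MP_87d05f_lc.ND
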