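import Pool.Agent.Lib.MP_87d05f_lc.ND.Stm

set_option autoImplicit false

/-!
Project ND, piece `lab`: labels of the components of a graph without one vertex.
-/

namespace Pool.Agent.Lib.MP_87d05f_lc.ND

theorem p_lab : S_lab := by
  classical
  intro J c hJ
  set G' := J.2.induce {w : Fin J.1 | w ≠ c} with hG'
  obtain ⟨x₀, hx₀⟩ : ∃ x₀ : Fin J.1, x₀ ≠ c := by
    have : Nontrivial (Fin J.1) := Fin.nontrivial_iff_two_le.2 hJ
    exact exists_ne c
  have hne : Nonempty G'.ConnectedComponent := ⟨G'.connectedComponentMk ⟨x₀, hx₀⟩⟩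
  obtain ⟨C₁, hC₁⟩ := Finite.exists_max (fun C : G'.ConnectedComponent => C.supp.ncard)
  obtain ⟨d, hd⟩ := C₁.exists_rep
  obtain ⟨g, hg⟩ : ∃ g : G'.ConnectedComponent → ℕ, Function.Injective g :=
    exists_injective_nat _
  set num : G'.ConnectedComponent → ℕ := fun C => if C = C₁ then 0 else g C + 1 with hnum
  have hninj : Function.Injective num := by
    intro A B hAB
    simp only [hnum] at hAB
    split_ifs at hAB with h1 h2 h2
    · rw [h1, h2]
    · exact hg (by omega)
  have hn0 : num C₁ = 0 := by simp [hnum]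
  set l : Fin J.1 → ℕ := fun x => if h : x ≠ c then num (G'.connectedComponentMk ⟨x, h⟩) else 0
    with hl
  have hlx : ∀ (x : Fin J.1) (h : x ≠ c), l x = num (G'.connectedComponentMk ⟨x, h⟩) := by
    intro x h
    simp only [hl]
    rw [dif_pos h]
  have hcls : ∀ C : G'.ConnectedComponent, {x | x ≠ c ∧ l x = num C} =
      Subtype.val '' C.supp := by
    intro C
    ext x
    constructor
    · rintro ⟨h1, h2⟩
      rw [hlx x h1] at h2
      exact ⟨⟨x, h1⟩, hninj h2, rfl⟩
    · rintro ⟨y, hy, rfl⟩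
      refine ⟨y.2, ?_⟩
      rw [hlx y.1 y.2]
      congr 1
  have hcard : ∀ C : G'.ConnectedComponent, {x | x ≠ c ∧ l x = num C}.ncard =
      C.supp.ncard := by
    intro C
    rw [hcls C, Set.ncard_image_of_injective _ Subtype.val_injective]
  have hempty : ∀ m, (∀ C, num C ≠ m) → {x | x ≠ c ∧ l x = m} = ∅ := by
    intro m hm
    ext x
    simp only [Set.mem_ofPred_eq, Set.mem_empty_iff_false, iff_false, not_and]
    intro h1 h2
    rw [hlx x h1] at h2
    exact hm _ h2
  have hpos : 1 ≤ C₁.supp.ncard := by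
    have h1 : d ∈ C₁.supp := hd
    exact Nat.succ_le_of_lt ((Set.ncard_pos (Set.toFinite _)).2 ⟨d, h1⟩)
  have hcnt : ∀ s, cnt J.2 c s = {C : G'.ConnectedComponent | C.supp.ncard = s}.ncard := by
    intro s
    unfold cnt
    exact Nat.card_coe_set_eq _
  refine ⟨d.1, l, C₁.supp.ncard, ?_, d.2, ?_, hpos, ?_, ?_, ?_⟩
  · intro x y hxy hx hy
    rw [hlx x hx, hlx y hy]
    congr 1
    rw [SimpleGraph.ConnectedComponent.eq]
    refine SimpleGraph.Adj.reachable ?_
    exact hxy
  · rw [hlx d.1 d.2, ← hn0]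
    congr 1
  · intro m
    by_cases hm : ∃ C, num C = m
    · obtain ⟨C, rfl⟩ := hm
      rw [hcard C]
      exact hC₁ C
    · rw [hempty m (fun C hC => hm ⟨C, hC⟩)]
      simp
  · rw [hcnt]
    refine lt_of_le_of_lt (b := {C : G'.ConnectedComponent | C ≠ C₁ ∧
      C.supp.ncard = C₁.supp.ncard}.ncard) ?_ ?_
    · rw [← Set.ncard_image_of_injective _ hninj]
      refine Set.ncard_le_ncard ?_ (Set.toFinite _)
      rintro m ⟨hm0, hm⟩
      by_cases hm' : ∃ C, num C = m
      · obtain ⟨C, rfl⟩ := hm'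
        rw [hcard C] at hm
        refine ⟨C, ⟨?_, hm⟩, rfl⟩
        rintro rfl
        exact hm0 hn0
      · rw [hempty m (fun C hC => hm' ⟨C, hC⟩), Set.ncard_empty] at hm
        omega
    · refine Set.ncard_lt_ncard ?_ (Set.toFinite _)
      rw [Set.ssubset_iff_of_subset (fun C hC => hC.2)]
      exact ⟨C₁, rfl, fun h => h.1 rfl⟩
  · intro s' hs'
    rw [hcnt]
    have h1 : {C : G'.ConnectedComponent | C.supp.ncard = s'} = ∅ := by
      ext C
      simp only [Set.mem_ofPred_eq, Set.mem_empty_iff_false, iff_false]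
      intro h
      have := hC₁ C

      omega
    rw [h1, Set.ncard_empty]

end Pool.Agent.Lib.MP_87d05f_lc.ND
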