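import Pool.Agent.Lib.MP_87d05f_lc.ND.Stm

set_option autoImplicit false

/-!
# Vertex deletion problems, piece map: renaming of vertices by an injective map
-/

namespace Pool.Agent.Lib.MP_87d05f_lc.ND

open Function

private theorem map_ends {T T' : Type} (f : T → T') (E : List (T × T)) :
    ends (E.map (fun e => (f e.1, f e.2))) = (ends E).map f := by
  unfold ends
  rw [List.flatMap_map, List.map_flatMap]
  rfl

private theorem map_mem {T T' : Type} (f : T → T') (hf : Injective f) (E : List (T × T))
    (x y : T) : (f x, f y) ∈ E.map (fun e => (f e.1, f e.2)) ↔ (x, y) ∈ E := by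
  rw [List.mem_map]
  constructor
  · rintro ⟨⟨u, v⟩, h, he⟩
    have h1 : f u = f x := congrArg Prod.fst he
    have h2 : f v = f y := congrArg Prod.snd he
    rw [hf h1, hf h2] at h
    exact h
  · intro h
    exact ⟨(x, y), h, rfl⟩

private theorem map_has {T T' : Type} (f : T → T') (hf : Injective f) (E : List (T × T))
    (a : T' → Bool) (H : FG) :
    Has (E.map (fun e => (f e.1, f e.2))) a H ↔ Has E (fun v => a (f v)) H := by
  constructor
  · rintro ⟨φ, hφ, h1, h2⟩
    have h3 : ∀ i, ∃ t, t ∈ ends E ∧ f t = φ i := by
      intro i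
      have := (h1 i).1
      rw [map_ends, List.mem_map] at this
      exact this
    choose ψ h4 h5 using h3
    refine ⟨ψ, ?_, ?_, ?_⟩
    · intro i j hij
      apply hφ
      rw [← h5, ← h5, hij]
    · intro i
      refine ⟨h4 i, ?_⟩
      show a (f (ψ i)) = false
      rw [h5]
      exact (h1 i).2
    · intro i j
      rw [h2, ← h5 i, ← h5 j, map_mem f hf, map_mem f hf]
  · rintro ⟨ψ, hψ, h1, h2⟩
    refine ⟨fun i => f (ψ i), hf.comp hψ, ?_, ?_⟩
    · intro i
      refine ⟨?_, (h1 i).2⟩
      rw [map_ends]
      exact List.mem_map_of_mem (h1 i).1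
    · intro i j
      rw [map_mem f hf, map_mem f hf]
      exact h2 i j

private theorem map_fin {T T' : Type} [DecidableEq T] [DecidableEq T'] (f : T → T')
    (E : List (T × T)) :
    (ends (E.map (fun e => (f e.1, f e.2)))).toFinset = (ends E).toFinset.image f := by
  rw [map_ends]
  ext v
  rw [List.mem_toFinset, List.mem_map, Finset.mem_image]
  simp only [List.mem_toFinset]

theorem p_map : S_map := by
  intro T T' _ _ f hf E
  refine ⟨?_, ?_, ?_, ?_, ?_, ?_⟩
  · rintro ⟨h1, h2⟩
    refine ⟨?_, ?_⟩
    · intro e he
      rw [List.mem_map] at he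
      obtain ⟨e, he, rfl⟩ := he
      exact fun h => h1 e he (hf h)
    · rw [List.pairwise_map]
      refine h2.imp ?_
      rintro ⟨u, v⟩ ⟨u', v'⟩ ⟨h3, h4⟩
      refine ⟨fun h => h3 ?_, fun h => h4 ?_⟩
      · have e1 : f u = f u' := congrArg Prod.fst h
        have e2 : f v = f v' := congrArg Prod.snd h
        rw [hf e1, hf e2]
      · have e1 : f u = f v' := congrArg Prod.fst h
        have e2 : f v = f u' := congrArg Prod.snd h
        show (u, v) = (v', u')
        rw [hf e1, hf e2]
  · intro D hD v
    rw [map_ends]
    by_cases hv : ∃ w, f w = v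
    · obtain ⟨w, rfl⟩ := hv
      rw [List.count_map_of_injective _ f hf]
      exact hD w
    · rw [List.count_eq_zero_of_not_mem]
      · exact Nat.zero_le D
      · intro h
        rw [List.mem_map] at h
        obtain ⟨w, -, hw⟩ := h
        exact hv ⟨w, hw⟩
  · unfold nv
    rw [map_fin, Finset.card_image_of_injective _ hf]
  · intro FF a
    unfold Sol
    constructor
    · intro h H hH hc
      exact h H hH ((map_has f hf E a H).2 hc)
    · intro h H hH hc
      exact h H hH ((map_has f hf E a H).1 hc)
  · intro a
    unfold dsz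
    rw [map_fin, Finset.filter_image, Finset.card_image_of_injective _ hf]
  · intro a
    refine ⟨Function.extend f a (fun _ => false), ?_⟩
    funext v
    exact hf.extend_apply a _ v

end Pool.Agent.Lib.MP_87d05f_lc.ND
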