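import Pool.Agent.Lib.MP_87d05f_lc.ND.Stm

set_option autoImplicit false

/-!
# Vertex deletion problems, piece nmG: the names of the vertices
-/

namespace Pool.Agent.Lib.MP_87d05f_lc.ND

open Pool.Agent.PolyTime Function Turing

private theorem nmG_cons (a : ℕ) (l : List ℕ) :
    wdL (a :: l) = List.replicate a false ++ (true :: wdL l) := by
  unfold wdL
  rw [List.flatMap_cons, List.append_assoc, List.singleton_append]

private theorem nmG_rep : ∀ (a b : ℕ) (X Y : List Bool),
    List.replicate a false ++ (true :: X) = List.replicate b false ++ (true :: Y) →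
    a = b ∧ X = Y := by
  intro a
  induction a with
  | zero =>
    intro b X Y h
    cases b with
    | zero => simpa using h
    | succ b => simp [List.replicate_succ] at h
  | succ a ih =>
    intro b X Y h
    cases b with
    | zero => simp [List.replicate_succ] at h
    | succ b =>
      rw [List.replicate_succ, List.replicate_succ, List.cons_append, List.cons_append,
        List.cons.injEq] at h
      obtain ⟨h1, h2⟩ := ih b X Y h.2
      exact ⟨by rw [h1], h2⟩

private theorem nmG_wdL_inj : ∀ l m : List ℕ, wdL l = wdL m → l = m := by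
  intro l
  induction l with
  | nil =>
    intro m h
    cases m with
    | nil => rfl
    | cons b m =>
      rw [nmG_cons] at h
      have h1 := congrArg List.length h
      simp [wdL] at h1
  | cons a l ih =>
    intro m h
    cases m with
    | nil =>
      rw [nmG_cons] at h
      have h1 := congrArg List.length h
      simp [wdL] at h1
    | cons b m =>
      rw [nmG_cons, nmG_cons] at h
      obtain ⟨h1, h2⟩ := nmG_rep a b _ _ h
      rw [h1, ih m h2]

private theorem nmG_bits (p : GV (ℕ × (ℕ × ℕ))) : Nat.bits (nmG p) = wdG p := by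
  have h : wdG p = (wdL [p.1, p.2.1, p.2.2.1.1, p.2.2.1.2.1, p.2.2.1.2.2, p.2.2.2.1, p.2.2.2.2.1] ++
      List.replicate p.2.2.2.2.2 false) ++ [true] := by
    unfold wdG numsG wdL
    simp only [List.flatMap_cons, List.flatMap_nil, List.append_nil, List.append_assoc]
  unfold nmG
  rw [h, bits_unbits]

/-- **ND nmG**: the names are injective and their binary expansions are the words. -/
theorem p_nmG : S_nmG := by
  refine ⟨?_, nmG_bits⟩
  intro p q h
  have h1 : wdG p = wdG q := by rw [← nmG_bits p, ← nmG_bits q, h]
  have h2 := nmG_wdL_inj _ _ h1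
  unfold numsG at h2
  simp only [List.cons.injEq, and_true] at h2
  obtain ⟨e1, e2, e3, e4, e5, e6, e7, e8⟩ := h2
  exact Prod.ext e1 (Prod.ext e2 (Prod.ext (Prod.ext e3 (Prod.ext e4 e5))
    (Prod.ext e6 (Prod.ext e7 e8))))

end Pool.Agent.Lib.MP_87d05f_lc.ND
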