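import Pool.Agent.Lib.MP_87d05f_lc.ND.Stm

/-! Piece `nrm` of project ND (helper16): normalisation of a list of edges. -/

set_option autoImplicit false

namespace Pool.Agent.Lib.MP_87d05f_lc.ND

open Pool.Agent.PolyTime Function Turing

section nrmsec

variable {T : Type} [DecidableEq T]

theorem nrm_cons (e : T × T) (E : List (T × T)) :
    nrm (e :: E) = if e.1 = e.2 ∨ e ∈ nrm E ∨ (e.2, e.1) ∈ nrm E then nrm E else e :: nrm E := by
  have h : nrm (e :: E) = bif decide (e.1 = e.2) || decide (e ∈ nrm E) ||
      decide ((e.2, e.1) ∈ nrm E) then nrm E else e :: nrm E := rfl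
  rw [h]
  by_cases h1 : e.1 = e.2
  · simp [h1]
  · by_cases h2 : e ∈ nrm E
    · simp [h2]
    · by_cases h3 : (e.2, e.1) ∈ nrm E
      · simp [h3]
      · simp [h1, h2, h3]

theorem nrm_sub (E : List (T × T)) : (nrm E).Sublist E := by
  induction E with
  | nil => exact List.Sublist.refl _
  | cons e E ih =>
    rw [nrm_cons]
    split_ifs
    · exact ih.cons e
    · exact ih.cons_cons e

theorem nrm_simple (E : List (T × T)) : Simple (nrm E) := by
  induction E with
  | nil =>
    refine ⟨?_, ?_⟩
    · intro e he
      cases he
    · exact List.Pairwise.nil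
  | cons e E ih =>
    rw [nrm_cons]
    split_ifs with h
    · exact ih
    · push Not at h
      obtain ⟨h1, h2, h3⟩ := h
      refine ⟨?_, ?_⟩
      · intro f hf
        rcases List.mem_cons.1 hf with rfl | hf
        · exact h1
        · exact ih.1 f hf
      · refine List.Pairwise.cons ?_ ih.2
        intro f hf
        refine ⟨?_, ?_⟩
        · rintro rfl
          exact h2 hf
        · intro hef
          apply h3
          have : (e.2, e.1) = f := by
            rw [hef]
          rw [this]
          exact hf

theorem nrm_count (E : List (T × T)) (v : T) : (ends (nrm E)).count v ≤ (ends E).count v := by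
  have h : ∀ (A B : List (T × T)), A.Sublist B → (ends A).Sublist (ends B) := by
    intro A B hAB
    induction hAB with
    | slnil => exact List.Sublist.refl _
    | cons e _ ih =>
      exact ih.trans (List.sublist_append_right _ _)
    | cons_cons e _ ih =>
      exact List.Sublist.append (List.Sublist.refl _) ih
  exact (h _ _ (nrm_sub E)).count_le v

theorem nrm_adj (E : List (T × T)) (hE : ∀ e ∈ E, e.1 ≠ e.2) (p q : T) :
    adjL (nrm E) p q ↔ adjL E p q := by
  constructor
  · rintro (h | h)
    · exact Or.inl ((nrm_sub E).subset h)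
    · exact Or.inr ((nrm_sub E).subset h)
  · induction E with
    | nil => exact id
    | cons e E ih =>
      have ih' := ih (fun f hf => hE f (List.mem_cons_of_mem _ hf))
      have he := hE e List.mem_cons_self
      have key : adjL (nrm E) p q → adjL (nrm (e :: E)) p q := by
        rw [nrm_cons]
        split_ifs
        · exact id
        · rintro (h | h)
          · exact Or.inl (List.mem_cons_of_mem _ h)
          · exact Or.inr (List.mem_cons_of_mem _ h)
      have key2 : adjL (nrm (e :: E)) e.1 e.2 := by
        rw [nrm_cons]
        split_ifs with h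
        · rcases h with h | h | h
          · exact absurd h he
          · exact Or.inl h
          · exact Or.inr h
        · exact Or.inl List.mem_cons_self
      rintro (h | h)
      · rcases List.mem_cons.1 h with h | h
        · subst h
          exact key2
        · exact key (ih' (Or.inl h))
      · rcases List.mem_cons.1 h with h | h
        · subst h
          exact Or.symm key2
        · exact key (ih' (Or.inr h))

omit [DecidableEq T] in
theorem nrm_mem_ends (E : List (T × T)) (v : T) : v ∈ ends E ↔ ∃ w, adjL E v w := by
  unfold ends adjL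
  rw [List.mem_flatMap]
  constructor
  · rintro ⟨e, he, hv⟩
    simp only [List.mem_cons, List.not_mem_nil, or_false] at hv
    rcases hv with rfl | rfl
    · exact ⟨e.2, Or.inl he⟩
    · exact ⟨e.1, Or.inr he⟩
  · rintro ⟨w, h | h⟩
    · exact ⟨(v, w), h, by simp⟩
    · exact ⟨(w, v), h, by simp⟩

theorem nrm_mem (E : List (T × T)) (hE : ∀ e ∈ E, e.1 ≠ e.2) (v : T) :
    v ∈ ends (nrm E) ↔ v ∈ ends E := by
  rw [nrm_mem_ends, nrm_mem_ends]
  exact exists_congr (fun w => nrm_adj E hE v w)

theorem nrm_has (E : List (T × T)) (hE : ∀ e ∈ E, e.1 ≠ e.2) (a : T → Bool) (H : FG) :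
    Has (nrm E) a H ↔ Has E a H := by
  unfold Has
  refine exists_congr (fun f => and_congr Iff.rfl (and_congr ?_ ?_))
  · exact forall_congr' (fun i => and_congr (nrm_mem E hE (f i)) Iff.rfl)
  · exact forall_congr' (fun i => forall_congr' (fun j =>
      iff_congr Iff.rfl (nrm_adj E hE (f i) (f j))))

theorem nrm_toFinset (E : List (T × T)) (hE : ∀ e ∈ E, e.1 ≠ e.2) :
    (ends (nrm E)).toFinset = (ends E).toFinset := by
  ext v
  rw [List.mem_toFinset, List.mem_toFinset]
  exact nrm_mem E hE v

end nrmsec

theorem p_nrm : S_nrm := by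
  intro T _ E
  refine ⟨nrm_simple E, nrm_count E, ?_⟩
  intro hE
  refine ⟨?_, ?_, ?_⟩
  · intro FF a
    unfold Sol
    exact forall_congr' (fun H => forall_congr' (fun _ => not_congr (nrm_has E hE a H)))
  · intro a
    unfold dsz
    rw [nrm_toFinset E hE]
  · unfold nv
    rw [nrm_toFinset E hE]

end Pool.Agent.Lib.MP_87d05f_lc.ND
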