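import Pool.Agent.Lib.MP_87d05f_lc.ND.Stm

/-!
# MP_87d05f_lc, ND: the well-founded order (ord)
-/

set_option autoImplicit false

namespace Pool.Agent.Lib.MP_87d05f_lc.ND

private theorem ord_fin (f : ℕ → ℕ) (h : ∃ m, ∀ s, m < s → f s = 0) :
    (Function.support f).Finite := by
  obtain ⟨m, hm⟩ := h
  refine (Set.finite_Iic m).subset fun s hs => ?_
  by_contra hlt
  exact hs (hm s (not_le.1 hlt))

/-- The piece ord. -/
theorem p_ord : S_ord := by
  classical
  refine ⟨Colex (ℕ →₀ ℕ), inferInstance, inferInstance,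
    fun f => if h : (Function.support f).Finite then toColex (Finsupp.ofSupportFinite f h)
      else toColex 0, ?_⟩
  intro f g hf hg hlt
  have hf' := ord_fin f hf
  have hg' := ord_fin g hg
  obtain ⟨s, hs, hs'⟩ := hlt
  beta_reduce
  rw [dif_pos hf', dif_pos hg']
  exact ⟨s, fun j hj => hs' j hj, hs⟩

end Pool.Agent.Lib.MP_87d05f_lc.ND
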