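import Pool.Agent.Lib.MP_87d05f_lc.ND.Stm

set_option autoImplicit false

/-!
# Vertex deletion problems, piece pro: comparison of component counts from labels
-/

namespace Pool.Agent.Lib.MP_87d05f_lc.ND

/-- [ND pro] -/
theorem p_pro : S_pro := by
  intro f s hs hf V _ K u Λ l hl hc hn
  classical
  set G := K.induce {w | w ≠ u} with hG
  -- labels are constant on components
  have h1 : ∀ x y : {w | w ≠ u}, G.Reachable x y → l x.1 = l y.1 := by
    rintro x y ⟨p⟩
    induction p with
    | nil => rfl
    | @cons a b c h _ ih => exact (hl a.1 b.1 h a.2 b.2).trans ih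
  have h2 : ∀ C : G.ConnectedComponent, ∃ m : Λ, ∀ x ∈ C.supp, l x.1 = m := by
    intro C
    obtain ⟨y, hy⟩ := C.nonempty_supp
    refine ⟨l y.1, fun x hx => h1 x y ?_⟩
    rw [SimpleGraph.ConnectedComponent.mem_supp_iff] at hx hy
    exact SimpleGraph.ConnectedComponent.exact (hx.trans hy.symm)
  choose lab hlab using h2
  have h3 : ∀ C : G.ConnectedComponent, Subtype.val '' C.supp ⊆ {w | w ≠ u ∧ l w = lab C} := by
    rintro C _ ⟨x, hx, rfl⟩
    exact ⟨x.2, hlab C x hx⟩
  have h4 : ∀ C : G.ConnectedComponent, (Subtype.val '' C.supp).ncard = C.supp.ncard := fun C =>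
    Set.ncard_image_of_injective _ Subtype.val_injective
  have h5 : ∀ C : G.ConnectedComponent, C.supp.ncard ≤ s := by
    intro C
    rw [← h4 C]
    exact (Set.ncard_le_ncard (h3 C) (Set.toFinite _)).trans (hc (lab C))
  have h6 : ∀ C : G.ConnectedComponent, C.supp.ncard = s →
      Subtype.val '' C.supp = {w | w ≠ u ∧ l w = lab C} := by
    intro C hC
    refine Set.eq_of_subset_of_ncard_le (h3 C) ?_ (Set.toFinite _)
    rw [h4 C, hC]
    exact hc (lab C)
  refine ⟨s, ?_, ?_⟩
  · refine lt_of_le_of_lt ?_ hn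
    have hfin : {m | {w | w ≠ u ∧ l w = m}.ncard = s}.Finite := by
      refine (Set.finite_range l).subset ?_
      intro m hm
      have hne : {w | w ≠ u ∧ l w = m}.Nonempty := by
        rw [← Set.ncard_pos (Set.toFinite _)]
        have : {w | w ≠ u ∧ l w = m}.ncard = s := hm
        omega
      obtain ⟨w, hw⟩ := hne
      exact ⟨w, hw.2⟩
    have hF : Finite {m | {w | w ≠ u ∧ l w = m}.ncard = s} := hfin.to_subtype
    rw [← Nat.card_coe_set_eq]
    refine Nat.card_le_card_of_injective
      (fun C : {C : G.ConnectedComponent // C.supp.ncard = s} =>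
        (⟨lab C.1, ?_⟩ : {m | {w | w ≠ u ∧ l w = m}.ncard = s})) ?_
    · show {w | w ≠ u ∧ l w = lab C.1}.ncard = s
      rw [← h6 C.1 C.2, h4 C.1, C.2]
    · intro C C' hCC
      have h7 : lab C.1 = lab C'.1 := congrArg Subtype.val hCC
      have h8 := h6 C.1 C.2
      rw [h7, ← h6 C'.1 C'.2] at h8
      apply Subtype.ext
      apply SimpleGraph.ConnectedComponent.supp_injective
      exact Set.image_injective.2 Subtype.val_injective h8
  · intro s' hs'
    rw [hf s' hs']
    have hE : IsEmpty {C : G.ConnectedComponent // C.supp.ncard = s'} := by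
      refine ⟨fun C => ?_⟩
      have := h5 C.1
      have h9 := C.2
      omega
    exact Nat.card_of_isEmpty

end Pool.Agent.Lib.MP_87d05f_lc.ND
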