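import Pool.Agent.Lib.MP_87d05f_lc.ND.Stm

set_option autoImplicit false

/-!
# Vertex deletion problems: the reduction is computable in polynomial time
-/

namespace Pool.Agent.Lib.MP_87d05f_lc.ND

open Pool.Agent.PolyTime Function Turing

section clo

variable {α : Type} [SCode α]

theorem ptA_ends {T : Type} [SCode T] {E : α → List (T × T)} (hE : PTime E) :
    PTime (fun a => ends (E a)) := by
  unfold ends
  exact PTime.flatMap (f := fun (_ : α) (e : T × T) => [e.1, e.2]) hE
    (PTime.cons (PTime.fst.comp PTime.snd) (PTime.cons (PTime.snd.comp PTime.snd)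
      (PTime.const [])))

theorem ptA_mem {β : Type} [DecidableEq β] [SCode β] {f : α → β} {l : α → List β}
    (i : ∀ a, Decidable (f a ∈ l a)) (hf : PTime f) (hl : PTime l) :
    PTime (fun a => @decide (f a ∈ l a) (i a)) := by
  exact (PTime.mem hf hl).of_eq fun a =>
    congrArg (fun j => @decide (f a ∈ l a) j) (Subsingleton.elim _ _)

theorem ptA_nrm {T : Type} [DecidableEq T] [SCode T] {E : α → List (T × T)} (hE : PTime E) :
    PTime (fun a => nrm (E a)) := by
  have h : PTime (fun l : List (T × T) => nrm l) := by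
    unfold nrm
    refine PTime.foldr (f := fun (_ : List (T × T)) e r => bif decide (e.1 = e.2) ||
      decide (e ∈ r) || decide ((e.2, e.1) ∈ r) then r else e :: r)
      PTime.id (PTime.const []) ?_ (Polynomial.X + 1) ?_
    · have he : PTime (fun p : List (T × T) × (T × T) × List (T × T) => p.2.1) :=
        PTime.fst.comp PTime.snd
      have hr : PTime (fun p : List (T × T) × (T × T) × List (T × T) => p.2.2) :=
        PTime.snd.comp PTime.snd
      have he1 : PTime (fun p : List (T × T) × (T × T) × List (T × T) => p.2.1.1) :=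
        PTime.fst.comp he
      have he2 : PTime (fun p : List (T × T) × (T × T) × List (T × T) => p.2.1.2) :=
        PTime.snd.comp he
      exact PTime.cond (PTime.or (PTime.or (PTime.eq he1 he2) (ptA_mem _ he hr))
        (ptA_mem _ (he2.pair he1) hr)) hr (PTime.cons he hr)
    · intro a s b hb
      have := sz_le_of_mem hb
      simp only [Polynomial.eval_add, Polynomial.eval_X, Polynomial.eval_one]
      rcases decide (b.1 = b.2) || decide (b ∈ s) || decide ((b.2, b.1) ∈ s) with _ | _
      · simp only [cond_false, sz_cons]; omega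
      · simp only [cond_true]; omega
  exact h.comp hE

theorem ptA_place {V : Type} [DecidableEq V] [SCode V] {u v : α → V} {s : α → Slt}
    (hu : PTime u) (hv : PTime v) (hs : PTime s) :
    PTime (fun a => place (u a) (v a) (s a)) := by
  unfold place
  have h1 : PTime (fun a => (s a).1) := PTime.fst.comp hs
  have h2 : PTime (fun a => (s a).2) := PTime.snd.comp hs
  exact PTime.cond (PTime.nat_eq h1 (PTime.const 0))
    ((PTime.const 0).pair ((PTime.const 0).pair (hu.pair hu)))
    (PTime.cond (PTime.nat_eq h1 (PTime.const 1))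
      ((PTime.const 0).pair ((PTime.const 0).pair (hv.pair hv)))
      (PTime.cond (PTime.nat_eq h1 (PTime.const 3))
        ((PTime.const 3).pair (h2.pair (hu.pair hu)))
        (h1.pair (h2.pair (hu.pair hv)))))

theorem ptA_gadT {V : Type} [DecidableEq V] [SCode V] (tv te : List (Slt × Slt))
    {B : α → List (V × V)} (hB : PTime B) : PTime (fun a => gadT tv te (B a)) := by
  unfold gadT
  refine PTime.append ?_ ?_
  · refine PTime.flatMap (f := fun (_ : α) (u : V) =>
      tv.map (fun s => (place u u s.1, place u u s.2))) (ded_ptime (ptA_ends hB)) ?_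
    refine PTime.map (l := fun _ : α × V => tv) (f := fun (p : α × V) (s : Slt × Slt) =>
      (place p.2 p.2 s.1, place p.2 p.2 s.2)) (PTime.const tv) ?_
    have hu : PTime (fun q : (α × V) × (Slt × Slt) => q.1.2) := PTime.snd.comp PTime.fst
    exact (ptA_place hu hu (PTime.fst.comp PTime.snd)).pair
      (ptA_place hu hu (PTime.snd.comp PTime.snd))
  · refine PTime.flatMap (f := fun (_ : α) (e : V × V) =>
      te.map (fun s => (place e.1 e.2 s.1, place e.1 e.2 s.2))) hB ?_
    refine PTime.map (l := fun _ : α × (V × V) => te)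
      (f := fun (p : α × (V × V)) (s : Slt × Slt) =>
        (place p.2.1 p.2.2 s.1, place p.2.1 p.2.2 s.2)) (PTime.const te) ?_
    have hu : PTime (fun q : (α × (V × V)) × (Slt × Slt) => q.1.2.1) :=
      PTime.fst.comp (PTime.snd.comp PTime.fst)
    have hv : PTime (fun q : (α × (V × V)) × (Slt × Slt) => q.1.2.2) :=
      PTime.snd.comp (PTime.snd.comp PTime.fst)
    exact (ptA_place hu hv (PTime.fst.comp PTime.snd)).pair
      (ptA_place hu hv (PTime.snd.comp PTime.snd))

theorem ptA_cop {V : Type} [DecidableEq V] [SCode V] (K : ℕ) {B : α → List (V × V)}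
    (hB : PTime B) : PTime (fun a => cop K (B a)) := by
  unfold cop
  refine PTime.flatMap (l := fun _ : α => List.range K) (f := fun (a : α) (κ : ℕ) =>
    (B a).map (fun e => ((κ, e.1), (κ, e.2)))) (PTime.const _) ?_
  refine PTime.map (l := fun p : α × ℕ => B p.1) (f := fun (p : α × ℕ) (e : V × V) =>
    ((p.2, e.1), (p.2, e.2))) (hB.comp PTime.fst) ?_
  have hk : PTime (fun q : (α × ℕ) × (V × V) => q.1.2) := PTime.snd.comp PTime.fst
  exact (hk.pair (PTime.fst.comp PTime.snd)).pair (hk.pair (PTime.snd.comp PTime.snd))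

theorem ptA_lits {W : Type} [DecidableEq W] [SCode W] {G : α → List (List (Lit W))}
    (hG : PTime G) : PTime (fun a => lits (G a)) := by
  unfold lits
  refine PTime.flatMap (f := fun (_ : α) (p : List (Lit W) × ℕ) =>
    p.1.zipIdx.map (fun q => ((p.2, q.2), q.1))) (PTime.zipIdx hG) ?_
  refine PTime.map (l := fun p : α × (List (Lit W) × ℕ) => p.2.1.zipIdx)
    (f := fun (p : α × (List (Lit W) × ℕ)) (q : Lit W × ℕ) => ((p.2.2, q.2), q.1))
    (PTime.zipIdx (PTime.fst.comp PTime.snd)) ?_
  have h1 : PTime (fun q : (α × (List (Lit W) × ℕ)) × (Lit W × ℕ) => q.1.2.2) :=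
    PTime.snd.comp (PTime.snd.comp PTime.fst)
  exact (h1.pair (PTime.snd.comp PTime.snd)).pair (PTime.fst.comp PTime.snd)

theorem ptA_bfr {p q : α → ℕ × ℕ} (hp : PTime p) (hq : PTime q) :
    PTime (fun a => bfr (p a) (q a)) := by
  unfold bfr
  have p1 : PTime (fun a => (p a).1) := PTime.fst.comp hp
  have p2 : PTime (fun a => (p a).2) := PTime.snd.comp hp
  have q1 : PTime (fun a => (q a).1) := PTime.fst.comp hq
  have q2 : PTime (fun a => (q a).2) := PTime.snd.comp hq
  exact PTime.or (PTime.nat_lt p1 q1) (PTime.and (PTime.nat_eq p1 q1) (PTime.nat_lt p2 q2))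

theorem ptA_xor {f g : α → Bool} (hf : PTime f) (hg : PTime g) :
    PTime (fun a => xor (f a) (g a)) := by
  refine (PTime.cond hf (PTime.not hg) hg).of_eq fun a => ?_
  rcases f a with _ | _ <;> rcases g a with _ | _ <;> rfl

theorem ptA_cfl {W : Type} [DecidableEq W] [SCode W] {p q : α → (ℕ × ℕ) × Lit W}
    (hp : PTime p) (hq : PTime q) : PTime (fun a => cfl (p a) (q a)) := by
  unfold cfl
  have p1 : PTime (fun a => (p a).1) := PTime.fst.comp hp
  have p2 : PTime (fun a => (p a).2) := PTime.snd.comp hp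
  have q1 : PTime (fun a => (q a).1) := PTime.fst.comp hq
  have q2 : PTime (fun a => (q a).2) := PTime.snd.comp hq
  have p11 : PTime (fun a => (p a).1.1) := PTime.fst.comp p1
  have q11 : PTime (fun a => (q a).1.1) := PTime.fst.comp q1
  have p21 : PTime (fun a => (p a).2.1) := PTime.fst.comp p2
  have q21 : PTime (fun a => (q a).2.1) := PTime.fst.comp q2
  have p22 : PTime (fun a => (p a).2.2) := PTime.snd.comp p2
  have q22 : PTime (fun a => (q a).2.2) := PTime.snd.comp q2
  exact PTime.and (ptA_bfr p1 q1) (PTime.or (PTime.nat_eq p11 q11)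
    (PTime.and (PTime.eq p22 q22) (ptA_xor p21 q21)))

theorem ptA_confE {W : Type} [DecidableEq W] [SCode W] {G : α → List (List (Lit W))}
    (hG : PTime G) : PTime (fun a => confE (G a)) := by
  unfold confE
  have hl := ptA_lits hG
  refine PTime.flatMap (l := fun a => lits (G a)) (f := fun (a : α) (p : (ℕ × ℕ) × Lit W) =>
    ((lits (G a)).filter (fun q => cfl p q)).map (fun q => (p.1, q.1))) hl ?_
  refine PTime.map (l := fun p : α × ((ℕ × ℕ) × Lit W) =>
      (lits (G p.1)).filter (fun q => cfl p.2 q))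
    (f := fun (p : α × ((ℕ × ℕ) × Lit W)) (q : (ℕ × ℕ) × Lit W) => (p.2.1, q.1)) ?_ ?_
  · exact PTime.filter (l := fun p : α × ((ℕ × ℕ) × Lit W) => lits (G p.1))
      (p := fun (p : α × ((ℕ × ℕ) × Lit W)) (q : (ℕ × ℕ) × Lit W) => cfl p.2 q)
      (hl.comp PTime.fst) (ptA_cfl (PTime.snd.comp PTime.fst) PTime.snd)
  · exact (PTime.fst.comp (PTime.snd.comp PTime.fst)).pair (PTime.fst.comp PTime.snd)

theorem ptA_nlit {W : Type} [DecidableEq W] [SCode W] {G : α → List (List (Lit W))}
    (hG : PTime G) : PTime (fun a => nlit (G a)) := by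
  refine (PTime.length (PTime.flatten hG)).of_eq fun a => ?_
  unfold nlit
  rw [List.length_flatten]

theorem ptA_wdL {l : α → List ℕ} (hl : PTime l) : PTime (fun a => wdL (l a)) := by
  unfold wdL
  exact PTime.flatMap (f := fun (_ : α) (k : ℕ) => List.replicate k false ++ [true]) hl
    (PTime.append (PTime.replicate PTime.snd (PTime.const false)) (PTime.const [true]))

theorem ptA_wdG {p : α → GV (ℕ × (ℕ × ℕ))} (hp : PTime p) : PTime (fun a => wdG (p a)) := by
  unfold wdG
  refine ptA_wdL ?_
  unfold numsG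
  have h1 : PTime (fun a => (p a).1) := PTime.fst.comp hp
  have h2 : PTime (fun a => (p a).2) := PTime.snd.comp hp
  have h21 : PTime (fun a => (p a).2.1) := PTime.fst.comp h2
  have h22 : PTime (fun a => (p a).2.2) := PTime.snd.comp h2
  have hu : PTime (fun a => (p a).2.2.1) := PTime.fst.comp h22
  have hv : PTime (fun a => (p a).2.2.2) := PTime.snd.comp h22
  have hu1 : PTime (fun a => (p a).2.2.1.1) := PTime.fst.comp hu
  have hu2 : PTime (fun a => (p a).2.2.1.2) := PTime.snd.comp hu
  have hu21 : PTime (fun a => (p a).2.2.1.2.1) := PTime.fst.comp hu2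
  have hu22 : PTime (fun a => (p a).2.2.1.2.2) := PTime.snd.comp hu2
  have hv1 : PTime (fun a => (p a).2.2.2.1) := PTime.fst.comp hv
  have hv2 : PTime (fun a => (p a).2.2.2.2) := PTime.snd.comp hv
  have hv21 : PTime (fun a => (p a).2.2.2.2.1) := PTime.fst.comp hv2
  have hv22 : PTime (fun a => (p a).2.2.2.2.2) := PTime.snd.comp hv2
  exact PTime.cons h1 (PTime.cons h21 (PTime.cons hu1 (PTime.cons hu21 (PTime.cons hu22
    (PTime.cons hv1 (PTime.cons hv21 (PTime.cons hv22 (PTime.const []))))))))

theorem ptA_redD {W : Type} [DecidableEq W] [SCode W] (tv te : List (Slt × Slt)) (K : ℕ)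
    {G : α → List (List (Lit W))} (hG : PTime G) : PTime (fun a => redD tv te K (G a)) := by
  unfold redD
  exact ptA_nrm (ptA_gadT tv te (ptA_cop K (ptA_confE hG)))

end clo

theorem p_ptA : S_ptA := by
  intro tv te K
  refine encW_ptime (PTime.cons (PTime.cons (PTime.replicate (PTime.mul (PTime.const K)
    (PTime.sub (ptA_nlit parse_ptime) (PTime.length parse_ptime))) (PTime.const true))
    (PTime.const [])) ?_)
  refine PTime.map (l := fun x : List Bool => redD tv te K (parse x))
    (f := fun (_ : List Bool) (e : GV (ℕ × (ℕ × ℕ)) × GV (ℕ × (ℕ × ℕ))) => [wdG e.1, wdG e.2])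
    (ptA_redD tv te K parse_ptime) ?_
  exact PTime.cons (ptA_wdG (PTime.fst.comp PTime.snd))
    (PTime.cons (ptA_wdG (PTime.snd.comp PTime.snd)) (PTime.const []))

end Pool.Agent.Lib.MP_87d05f_lc.ND
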