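import Pool.Agent.Lib.MP_87d05f_lc.ND.Stm

set_option autoImplicit false

/-!
Piece ptC: the copies and the constraints are computable in polynomial time.
-/

namespace Pool.Agent.Lib.MP_87d05f_lc.ND

open Pool.Agent.PolyTime Function Turing

theorem ptC_tup : ∀ k : ℕ, PTime (fun l : List Wd => tup l k)
  | 0 => PTime.const [[]]
  | k + 1 => by
    have h1 : PTime (fun p : List Wd × Wd => (tup p.1 k).map (fun t => p.2 :: t)) :=
      PTime.map (l := fun p : List Wd × Wd => tup p.1 k)
        (f := fun (p : List Wd × Wd) (t : List Wd) => p.2 :: t) ((ptC_tup k).comp PTime.fst)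
        (PTime.cons (PTime.snd.comp PTime.fst) PTime.snd)
    exact PTime.flatMap (l := fun l : List Wd => l)
      (f := fun (l : List Wd) (a : Wd) => (tup l k).map (fun t => a :: t)) PTime.id h1

theorem ptC_beq {α : Type} [SCode α] {f g : α → Bool} (hf : PTime f) (hg : PTime g) :
    PTime (fun a => f a == g a) :=
  (PTime.eq hf hg).of_eq fun a => by cases f a <;> cases g a <;> rfl

theorem ptC_mem {α : Type} [SCode α] {f : α → Wd × Wd} {l : α → List (Wd × Wd)} (hf : PTime f)
    (hl : PTime l) : PTime (fun a => decide (f a ∈ l a)) :=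
  (PTime.mem hf hl).of_eq fun _ => decide_eq_decide.2 Iff.rfl

theorem ptC_ends {α : Type} [SCode α] {E : α → List (Wd × Wd)} (hE : PTime E) :
    PTime (fun a => ends (E a)) := by
  have h : PTime (fun E : List (Wd × Wd) => ends E) :=
    PTime.flatMap (l := fun E : List (Wd × Wd) => E)
      (f := fun (_ : List (Wd × Wd)) (e : Wd × Wd) => [e.1, e.2]) PTime.id
      (PTime.cons (PTime.fst.comp PTime.snd)
        (PTime.cons (PTime.snd.comp PTime.snd) (PTime.const [])))
  exact h.comp hE

theorem ptC_isCopy (pat : List ((ℕ × ℕ) × Bool)) :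
    PTime (fun p : List (Wd × Wd) × List Wd => isCopy pat p.1 p.2) := by
  have r1 : PTime (fun q : (List (Wd × Wd) × List Wd) × ((ℕ × ℕ) × Bool) => q.2.1.1) :=
    PTime.fst.comp (PTime.fst.comp PTime.snd)
  have r2 : PTime (fun q : (List (Wd × Wd) × List Wd) × ((ℕ × ℕ) × Bool) => q.2.1.2) :=
    PTime.snd.comp (PTime.fst.comp PTime.snd)
  have r3 : PTime (fun q : (List (Wd × Wd) × List Wd) × ((ℕ × ℕ) × Bool) => q.2.2) :=
    PTime.snd.comp PTime.snd
  have hE : PTime (fun q : (List (Wd × Wd) × List Wd) × ((ℕ × ℕ) × Bool) => q.1.1) :=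
    PTime.fst.comp PTime.fst
  have ht : PTime (fun q : (List (Wd × Wd) × List Wd) × ((ℕ × ℕ) × Bool) => q.1.2) :=
    PTime.snd.comp PTime.fst
  have g1 : PTime (fun q : (List (Wd × Wd) × List Wd) × ((ℕ × ℕ) × Bool) =>
      q.1.2.getD q.2.1.1 default) := PTime.getD r1 ht (PTime.const default)
  have g2 : PTime (fun q : (List (Wd × Wd) × List Wd) × ((ℕ × ℕ) × Bool) =>
      q.1.2.getD q.2.1.2 default) := PTime.getD r2 ht (PTime.const default)
  refine PTime.of_eq (PTime.all (l := fun _ : List (Wd × Wd) × List Wd => pat)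
    (p := fun (p : List (Wd × Wd) × List Wd) (r : (ℕ × ℕ) × Bool) =>
      (decide (r.1.1 = r.1.2) || !(decide (p.2.getD r.1.1 default =
        p.2.getD r.1.2 default))) && (r.2 == (decide ((p.2.getD r.1.1 default,
          p.2.getD r.1.2 default) ∈ p.1) || decide ((p.2.getD r.1.2 default,
            p.2.getD r.1.1 default) ∈ p.1))))
    (PTime.const pat)
    (PTime.and (PTime.or (PTime.nat_eq r1 r2) (PTime.not (PTime.eq g1 g2)))
      (ptC_beq r3 (PTime.or (ptC_mem (g1.pair g2) hE) (ptC_mem (g2.pair g1) hE)))))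
    fun p => ?_
  have hd : ∀ (P : Prop) (i j : Decidable P), @decide P i = @decide P j := fun P i j => by
    rw [Subsingleton.elim i j]
  unfold isCopy
  refine congrArg (fun f => pat.all f) (funext fun r => ?_)
  congr 2
  exact congrArg₂ (fun x y => x || y) (hd _ _ _) (hd _ _ _)

theorem ptC_copies (H : FG) : PTime (fun E : List (Wd × Wd) => copies H E) := by
  have h1 : PTime (fun E : List (Wd × Wd) => tup (ded (ends E)) H.1) :=
    (ptC_tup H.1).comp (ded_ptime (ptC_ends PTime.id))
  exact PTime.filter (l := fun E : List (Wd × Wd) => tup (ded (ends E)) H.1)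
    (p := fun (E : List (Wd × Wd)) (t : List Wd) => isCopy (patH H) E t) h1 (ptC_isCopy (patH H))

theorem ptC_cps : ∀ G : List FG, PTime (fun E : List (Wd × Wd) => cps G E)
  | [] => PTime.const []
  | H :: G => (PTime.append (ptC_copies H) (ptC_cps G)).of_eq fun _ => rfl

theorem ptC_cons (G : List FG) : PTime (fun E : List (Wd × Wd) => cons G E) := by
  have h0 := ptC_cps G
  have h1 : PTime (fun E : List (Wd × Wd) =>
      (ded (cps G E).flatten).map (fun w => ((0, [w]) : ℕ × List Wd))) :=
    PTime.map (l := fun E : List (Wd × Wd) => ded (cps G E).flatten)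
      (f := fun (_ : List (Wd × Wd)) (w : Wd) => ((0, [w]) : ℕ × List Wd))
      (ded_ptime (PTime.flatten h0))
      ((PTime.const 0).pair (PTime.cons PTime.snd (PTime.const [])))
  have h2 : PTime (fun E : List (Wd × Wd) =>
      (cps G E).map (fun t => ((t.length, t) : ℕ × List Wd))) :=
    PTime.map (l := fun E : List (Wd × Wd) => cps G E)
      (f := fun (_ : List (Wd × Wd)) (t : List Wd) => ((t.length, t) : ℕ × List Wd)) h0
      ((PTime.length PTime.snd).pair PTime.snd)
  exact PTime.append h1 h2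

theorem p_ptC : S_ptC := ⟨ptC_copies, ptC_cps, ptC_cons, ptC_tup⟩

end Pool.Agent.Lib.MP_87d05f_lc.ND
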