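import Pool.Agent.Lib.MP_87d05f_lc.ND.Stm

set_option autoImplicit false

/-!
Piece ptI: the instance is computable in polynomial time.
-/

namespace Pool.Agent.Lib.MP_87d05f_lc.ND

open Pool.Agent.PolyTime Function Turing

/-- constraints with the index of a family -/
abbrev PtiC : Type := ℕ × List (ℕ × List Wd)

theorem ptI_zip (hc : ∀ G : List FG, PTime (fun E : List (Wd × Wd) => cons G E)) :
    ∀ L : List (List FG × ℕ), PTime (fun E : List (Wd × Wd) =>
      L.map (fun p => ((p.2, cons p.1 E) : PtiC)))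
  | [] => PTime.const []
  | p :: L => (PTime.cons ((PTime.const p.2).pair (hc p.1)) (ptI_zip hc L)).of_eq fun _ => rfl

theorem ptI_candL (C₀ : ℕ) : PTime (fun A : List PtiC => candL C₀ A) := by
  have h1 : PTime (fun q : (List PtiC × PtiC) × PtiC =>
      decide (q.1.2.2.length ≤ C₀ * q.2.2.length)) :=
    PTime.nat_le (PTime.length (PTime.snd.comp (PTime.snd.comp PTime.fst)))
      (PTime.mul (PTime.const C₀) (PTime.length (PTime.snd.comp PTime.snd)))
  have h2 : PTime (fun q : List PtiC × PtiC =>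
      q.1.all (fun r => decide (q.2.2.length ≤ C₀ * r.2.length))) :=
    PTime.all (l := fun q : List PtiC × PtiC => q.1)
      (p := fun (q : List PtiC × PtiC) (r : PtiC) => decide (q.2.2.length ≤ C₀ * r.2.length))
      PTime.fst h1
  exact PTime.filter (l := fun A : List PtiC => A)
    (p := fun (A : List PtiC) (p : PtiC) =>
      A.all (fun r => decide (p.2.length ≤ C₀ * r.2.length))) PTime.id h2

theorem ptI_conW (M : ℕ) : PTime (fun r : ℕ × (ℕ × List Wd) => conW M r) := by
  have h1 : PTime (fun r : ℕ × (ℕ × List Wd) =>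
      ((List.range (M + 1)).map Nat.bits).getD r.2.1 []) :=
    PTime.getD (PTime.fst.comp PTime.snd) (PTime.const ((List.range (M + 1)).map Nat.bits))
      (PTime.const [])
  have h2 : PTime (fun r : ℕ × (ℕ × List Wd) => r.2.2.map (fun w => nb w r.1)) :=
    PTime.map (l := fun r : ℕ × (ℕ × List Wd) => r.2.2)
      (f := fun (r : ℕ × (ℕ × List Wd)) (w : Wd) => nb w r.1) (PTime.snd.comp PTime.snd)
      (nb_ptime PTime.snd (PTime.fst.comp PTime.fst))
  exact PTime.cons h1 h2

theorem p_ptI : S_ptI := by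
  intro hC Φ C₀ M
  obtain ⟨-, -, hc, -⟩ := hC
  have hA : PTime (fun E : List (Wd × Wd) => allC Φ E) := ptI_zip hc Φ.zipIdx
  have h1 : PTime (fun E : List (Wd × Wd) => candL C₀ (allC Φ E)) := (ptI_candL C₀).comp hA
  have hm : PTime (fun p : PtiC => p.2.map (fun c => ((p.1, c) : ℕ × (ℕ × List Wd)))) :=
    PTime.map (l := fun p : PtiC => p.2)
      (f := fun (p : PtiC) (c : ℕ × List Wd) => ((p.1, c) : ℕ × (ℕ × List Wd))) PTime.snd
      ((PTime.fst.comp PTime.fst).pair PTime.snd)
  have h2 : PTime (fun E : List (Wd × Wd) => insW Φ C₀ E) :=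
    PTime.flatMap (l := fun E : List (Wd × Wd) => candL C₀ (allC Φ E))
      (f := fun (_ : List (Wd × Wd)) (p : PtiC) =>
        p.2.map (fun c => ((p.1, c) : ℕ × (ℕ × List Wd)))) h1 (hm.comp PTime.snd)
  have h3 : PTime (fun E : List (Wd × Wd) => (insW Φ C₀ E).map (conW M)) :=
    PTime.map (l := fun E : List (Wd × Wd) => insW Φ C₀ E)
      (f := fun (_ : List (Wd × Wd)) (r : ℕ × (ℕ × List Wd)) => conW M r) h2
      ((ptI_conW M).comp PTime.snd)
  have h4 : PTime edW :=
    PTime.map (l := fun x : List Bool => parseW x)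
      (f := fun (_ : List Bool) (c : List (List Bool)) => ((c.headD [], c.tail.headD []) : Wd × Wd))
      parseW_ptime
      ((PTime.headD PTime.snd (PTime.const [])).pair
        (PTime.headD (PTime.tail PTime.snd) (PTime.const [])))
  exact ⟨h1, h2, h3, h4⟩

end Pool.Agent.Lib.MP_87d05f_lc.ND
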