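import Pool.Agent.Lib.MP_87d05f_lc.ND.Stm

set_option autoImplicit false

/-!
Project ND: from the search machine to a separator.
-/

namespace Pool.Agent.Lib.MP_87d05f_lc.ND

open Pool.Agent.PolyTime Function Turing

/-- the number of different selected vertices -/
def sepf_num (z : List Bool × List Bool) : ℕ :=
  (ded (selW (parseW z.1).tail.flatten z.2)).length

/-- the answer computed from a solution -/
def sepf_out (p q : ℕ) (z : List Bool × List Bool) : List Bool :=
  [decide (q * sepf_num z ≤ (q + p) * thI z.1)]

theorem sepf_out_ptime (p q : ℕ) : PTime (sepf_out p q) := by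
  have hl : PTime (fun z : List Bool × List Bool => (parseW z.1).tail.flatten) :=
    PTime.flatten (PTime.tail (parseW_ptime.comp PTime.fst))
  have hs : PTime (fun z : List Bool × List Bool => selW (parseW z.1).tail.flatten z.2) := by
    unfold selW
    refine PTime.map (f := fun (_ : List Bool × List Bool) (p : Wd × ℕ) => p.1) ?_
      (PTime.fst.comp PTime.snd)
    exact PTime.filter (p := fun (z : List Bool × List Bool) (p : Wd × ℕ) => z.2.getD p.2 false)
      (PTime.zipIdx hl) (PTime.getD (PTime.snd.comp PTime.snd) (PTime.snd.comp PTime.fst)
        (PTime.const false))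
  have hn : PTime sepf_num := by
    unfold sepf_num
    exact PTime.length (ded_ptime hs)
  have ht : PTime (fun z : List Bool × List Bool => thI z.1) := thI_ptime.comp PTime.fst
  unfold sepf_out
  exact PTime.cons (PTime.nat_le (PTime.mul (PTime.const q) hn)
    (PTime.mul (PTime.const (q + p)) ht)) (PTime.const [])

theorem sepf_selW_aux (l : List Wd) (c : Wd → Bool) (pre : List Bool) :
    ((l.zipIdx pre.length).filter (fun p => (pre ++ l.map c).getD p.2 false)).map Prod.fst =
      l.filter c := by
  induction l generalizing pre with
  | nil => rfl
  | cons x l ih =>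
    have h1 := ih (pre ++ [c x])
    have h2 : (pre ++ [c x]).length = pre.length + 1 := by simp
    have h3 : pre ++ [c x] ++ l.map c = pre ++ (x :: l).map c := by simp
    rw [h2, h3] at h1
    rw [List.zipIdx_cons, List.filter_cons, List.filter_cons]
    have h4 : (pre ++ (x :: l).map c).getD pre.length false = c x := by
      simp [List.getD_eq_getElem?_getD]
    rw [h4]
    by_cases h : c x = true
    · rw [if_pos h, if_pos h, List.map_cons, h1]
    · rw [if_neg h, if_neg h, h1]

theorem sepf_selW (l : List Wd) (c : Wd → Bool) : selW l (l.map c) = l.filter c := by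
  have h := sepf_selW_aux l c []
  simpa [selW] using h

theorem sepf_num_eq (t : ℕ) (E : List (ℕ × ℕ)) (a : ℕ → Bool) :
    sepf_num (enCut (t, E), E.flatMap (fun e => [a e.1, a e.2])) = dsz E a := by
  have hx : parseW (enCut (t, E)) = [List.replicate t true] :: E.map wordE := by
    unfold enCut
    rw [parseW_encW]
  have h0 : (E.map wordE).flatten = (ends E).map Nat.bits := by
    unfold ends
    induction E with
    | nil => rfl
    | cons e E ih =>
      rw [List.map_cons, List.flatten_cons, List.flatMap_cons, List.map_append]
      rw [ih]
      · rfl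
      · unfold enCut
        rw [parseW_encW]
  have h1 : E.flatMap (fun e => [a e.1, a e.2]) =
      ((ends E).map Nat.bits).map (fun w => a (unbits w)) := by
    rw [List.map_map]
    have h2 : ((fun w => a (unbits w)) ∘ Nat.bits) = a := by
      funext v
      simp only [Function.comp_apply, unbits_bits]
    rw [h2]
    unfold ends
    rw [List.map_flatMap]
    rfl
  have h3 : ∀ l : List ℕ, (l.map Nat.bits).toFinset = l.toFinset.image Nat.bits := by
    intro l
    ext w
    simp
  unfold sepf_num
  simp only
  rw [hx, List.tail_cons, h0, h1, sepf_selW, List.filter_map, ded_length, h3,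
    Finset.card_image_of_injective _ bits_injective]
  unfold dsz
  congr 1
  ext v
  simp only [List.mem_toFinset, List.mem_filter, Finset.mem_filter, Function.comp_apply,
    unbits_bits]

theorem p_sepf : S_sepf := by
  intro FF D p q b hq hb hs
  refine sep_of_find ?_
  have hf : PTime (fun x => encW (parseW x).tail) := encW_ptime (PTime.tail parseW_ptime)
  have hh : PTime (fun x => mydiv (ded (parseW x).tail.flatten).length b) :=
    mydiv_ptime (PTime.length (ded_ptime (PTime.flatten (PTime.tail parseW_ptime))))
      (PTime.const b)
  have hx : ∀ (t : ℕ) (E : List (ℕ × ℕ)),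
      parseW (enCut (t, E)) = [List.replicate t true] :: E.map wordE := by
    intro t E
    unfold enCut
    rw [parseW_encW]
  have hlen : ∀ (t : ℕ) (E : List (ℕ × ℕ)), 2 * E.length ≤ (enCut (t, E)).length := by
    intro t E
    unfold enCut
    refine le_trans ?_ (encW_length _)
    have h1 : ∀ E : List (ℕ × ℕ), ((E.map wordE).map List.length).sum = 2 * E.length := by
      intro E
      induction E with
      | nil => rfl
      | cons e E ih =>
        rw [List.map_cons, List.map_cons, List.sum_cons, ih]
        unfold wordE
        simp only [List.length_cons, List.length_nil]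
        omega
    rw [List.map_cons, List.sum_cons, h1]
    dsimp only
    omega
  refine find_transfer (R := 1) hf hh (sepf_out_ptime p q) ?_ ?_ hs
  · rintro ⟨t, E⟩ _
    refine le_trans ?_ (hlen t E)
    unfold nvCut
    refine (List.toFinset_card_le _).trans ?_
    rw [length_ends]
  · rintro ⟨t, E⟩ hV
    refine ⟨E, hV, ?_, ?_, ?_, ?_⟩
    · rw [hx, List.tail_cons]
      rfl
    · rintro w ⟨a, rfl, hsol, ha⟩
      have hth : thI (enCut (t, E)) = t := by
        unfold thI
        rw [hx]
        simp
      constructor
      · rw [length_ends' E a, Nat.one_mul]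
        exact hlen t E
      · unfold sepf_out
        rw [sepf_num_eq]
        simp only
        rw [hth]
        have hq' : (0 : ℚ) < ((q : ℕ) : ℚ) := by exact_mod_cast hq
        have hmul : ∀ x : ℚ, ((q : ℕ) : ℚ) * ((1 + (p : ℚ) / ((q : ℕ) : ℚ)) * x) =
            (((q : ℕ) : ℚ) + (p : ℚ)) * x := by
          intro x
          field_simp
        constructor
        · rintro ⟨a', hsol', ha'⟩
          simp only at hsol' ha'
          have h1 := ha a' hsol'
          have h3 := mul_le_mul_of_nonneg_left h1 hq'.le
          rw [hmul] at h3
          have h4 : ((dsz E a' : ℕ) : ℚ) ≤ (t : ℚ) := by exact_mod_cast ha'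
          have h5 : (0 : ℚ) ≤ ((q : ℕ) : ℚ) + (p : ℚ) := by positivity
          have h6 := mul_le_mul_of_nonneg_left h4 h5
          have h9 : q * dsz E a ≤ (q + p) * t := by
            exact_mod_cast h3.trans h6
          rw [decide_eq_true h9]
        · intro hN
          have h1 := hN a hsol
          simp only at h1
          have h3 := mul_lt_mul_of_pos_left h1 hq'
          rw [hmul] at h3
          have h9 : (q + p) * t < q * dsz E a := by
            exact_mod_cast h3
          rw [decide_eq_false (by omega)]
    · rw [hx, List.tail_cons, nvCut_eq E 0, mydiv_eq hb]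
      rfl
    · rw [hx, List.tail_cons, nvCut_eq E t, mydiv_eq hb]

end Pool.Agent.Lib.MP_87d05f_lc.ND
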