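import Pool.Agent.Lib.MP_87d05f_lc.ND.Stm

set_option autoImplicit false

/-! Piece vc: vertex covers of the conflict graph and assignments. -/

namespace Pool.Agent.Lib.MP_87d05f_lc.ND

open Pool.Agent.PolyTime Function Turing

section vc

variable {W : Type}

private theorem vc_sum {α : Type} (f : List α → ℕ) (G : List (List α)) :
    ∑ i ∈ Finset.range G.length, f (G.getD i []) = (G.map f).sum := by
  induction G with
  | nil => simp
  | cons c G ih =>
    rw [List.length_cons, Finset.sum_range_succ']
    simp only [List.getD_cons_succ, List.getD_cons_zero, List.map_cons, List.sum_cons]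
    rw [ih]; omega

private theorem vc_countP {α : Type} (p : List α → Bool) (G : List (List α)) :
    ((Finset.range G.length).filter (fun i => p (G.getD i []) = true)).card = G.countP p := by
  rw [Finset.card_filter, vc_sum (fun c => if p c = true then 1 else 0)]
  induction G with
  | nil => simp
  | cons c G ih =>
    rw [List.map_cons, List.sum_cons, List.countP_cons, ih]; omega

/-- the places -/
private def vc_A (G : List (List (Lit W))) : Finset (ℕ × ℕ) :=
  ((Finset.range G.length).sigma (fun i => Finset.range (G.getD i []).length)).image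
    (fun s => (s.1, s.2))

private theorem vc_mem_A (G : List (List (Lit W))) (x : ℕ × ℕ) :
    x ∈ vc_A G ↔ x.1 < G.length ∧ x.2 < (G.getD x.1 []).length := by
  unfold vc_A
  rw [Finset.mem_image]
  constructor
  · rintro ⟨s, hs, rfl⟩
    rw [Finset.mem_sigma, Finset.mem_range, Finset.mem_range] at hs
    exact hs
  · intro h
    refine ⟨⟨x.1, x.2⟩, ?_, rfl⟩
    rw [Finset.mem_sigma, Finset.mem_range, Finset.mem_range]
    exact h

private theorem vc_card_A (G : List (List (Lit W))) : (vc_A G).card = nlit G := by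
  unfold vc_A
  rw [Finset.card_image_of_injective, Finset.card_sigma]
  · simp only [Finset.card_range]
    exact vc_sum List.length G
  · rintro ⟨a, b⟩ ⟨c, d⟩ h
    simp only [Prod.mk.injEq] at h
    obtain ⟨h1, h2⟩ := h
    subst h1 h2
    rfl

private theorem vc_mem_lits (G : List (List (Lit W))) (x : ℕ × ℕ) (l : Lit W) :
    (x, l) ∈ lits G ↔ (G.getD x.1 [])[x.2]? = some l := by
  unfold lits
  rw [List.mem_flatMap]
  constructor
  · rintro ⟨⟨c, i⟩, hc, h⟩
    rw [List.mem_map] at h
    obtain ⟨⟨m, j⟩, hm, h⟩ := h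
    rw [List.mem_zipIdx_iff_getElem?] at hc hm
    simp only [Prod.mk.injEq] at hc hm h
    obtain ⟨h1, h2⟩ := h
    rw [← h1, ← h2]
    simp only [List.getD_eq_getElem?_getD, hc, Option.getD_some]
    exact hm
  · intro h
    obtain ⟨i, j⟩ := x
    simp only at h
    rw [List.getD_eq_getElem?_getD] at h
    cases hc : G[i]? with
    | none => rw [hc] at h; simp at h
    | some c =>
      rw [hc] at h
      simp only [Option.getD_some] at h
      refine ⟨(c, i), ?_, ?_⟩
      · rw [List.mem_zipIdx_iff_getElem?]; exact hc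
      · rw [List.mem_map]
        refine ⟨(l, j), ?_, rfl⟩
        rw [List.mem_zipIdx_iff_getElem?]; exact h

private theorem vc_lits_A (G : List (List (Lit W))) (x : ℕ × ℕ) (l : Lit W)
    (h : (x, l) ∈ lits G) : x ∈ vc_A G := by
  rw [vc_mem_lits] at h
  rw [vc_mem_A]
  have h2 : x.2 < (G.getD x.1 []).length := by
    by_contra hc
    rw [List.getElem?_eq_none (by omega)] at h
    cases h
  refine ⟨?_, h2⟩
  by_contra hc
  rw [List.getD_eq_getElem?_getD, List.getElem?_eq_none (by omega)] at h2
  simp at h2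

private theorem vc_A_lits (G : List (List (Lit W))) (x : ℕ × ℕ) (h : x ∈ vc_A G) :
    ∃ l, (x, l) ∈ lits G := by
  rw [vc_mem_A] at h
  refine ⟨(G.getD x.1 [])[x.2]'h.2, ?_⟩
  rw [vc_mem_lits]
  exact List.getElem?_eq_getElem h.2

private theorem vc_uniq (G : List (List (Lit W))) (x : ℕ × ℕ) (l m : Lit W)
    (h : (x, l) ∈ lits G) (h' : (x, m) ∈ lits G) : l = m := by
  rw [vc_mem_lits] at h h'
  rw [h] at h'
  exact Option.some.inj h'

variable [DecidableEq W]

private theorem vc_mem_conf (G : List (List (Lit W))) (x y : ℕ × ℕ) :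
    (x, y) ∈ confE G ↔ ∃ l m, (x, l) ∈ lits G ∧ (y, m) ∈ lits G ∧ cfl (x, l) (y, m) = true := by
  unfold confE
  rw [List.mem_flatMap]
  constructor
  · rintro ⟨p, hp, h⟩
    rw [List.mem_map] at h
    obtain ⟨q, hq, he⟩ := h
    rw [List.mem_filter] at hq
    rw [Prod.mk.injEq] at he
    obtain ⟨h1, h2⟩ := he
    refine ⟨p.2, q.2, ?_, ?_, ?_⟩
    · rw [← h1]; exact hp
    · rw [← h2]; exact hq.1
    · rw [← h1, ← h2]; exact hq.2
  · rintro ⟨l, m, hl, hm, hc⟩
    refine ⟨(x, l), hl, ?_⟩
    rw [List.mem_map]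
    refine ⟨(y, m), ?_, rfl⟩
    rw [List.mem_filter]
    exact ⟨hm, hc⟩

private theorem vc_ends (G : List (List (Lit W))) (v : ℕ × ℕ) (h : v ∈ ends (confE G)) :
    v ∈ vc_A G := by
  unfold ends at h
  rw [List.mem_flatMap] at h
  obtain ⟨e, he, hv⟩ := h
  obtain ⟨l, m, hl, hm, -⟩ := (vc_mem_conf G e.1 e.2).mp he
  simp only [List.mem_cons, List.not_mem_nil, or_false] at hv
  rcases hv with rfl | rfl
  · exact vc_lits_A G _ _ hl
  · exact vc_lits_A G _ _ hm

private theorem vc_first (G : List (List (Lit W))) (a : W → Bool)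
    (ha : ∀ c ∈ G, ∃ l ∈ c, a l.2 = l.1) :
    ∃ a' : ℕ × ℕ → Bool, Cov (confE G) a' ∧ dsz (confE G) a' + G.length ≤ nlit G := by
  have hj : ∀ i, ∃ j, i < G.length → ∃ l, ((i, j), l) ∈ lits G ∧ a l.2 = l.1 := by
    intro i
    by_cases hi : i < G.length
    · obtain ⟨l, hl, hal⟩ := ha (G[i]'hi) (List.getElem_mem hi)
      obtain ⟨j, hj, hjl⟩ := List.getElem_of_mem hl
      refine ⟨j, fun _ => ⟨l, ?_, hal⟩⟩
      rw [vc_mem_lits]
      have e : G.getD (i, j).1 [] = G[i]'hi := by
        simp only [List.getD_eq_getElem?_getD, List.getElem?_eq_getElem hi, Option.getD_some]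
      rw [e]
      show (G[i]'hi)[j]? = some l
      rw [List.getElem?_eq_getElem hj, hjl]
    · exact ⟨0, fun h => absurd h hi⟩
  choose jf hjf using hj
  refine ⟨fun x => decide (x.2 ≠ jf x.1), ?_, ?_⟩
  · rintro ⟨x, y⟩ he
    obtain ⟨l, m, hl, hm, hc⟩ := (vc_mem_conf G x y).mp he
    by_contra hno
    rw [not_or] at hno
    obtain ⟨hx, hy⟩ := hno
    simp only [decide_eq_true_eq, not_not] at hx hy
    have hxA := (vc_mem_A G x).mp (vc_lits_A G x l hl)
    have hyA := (vc_mem_A G y).mp (vc_lits_A G y m hm)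
    obtain ⟨l', hl', hal⟩ := hjf x.1 hxA.1
    obtain ⟨m', hm', ham⟩ := hjf y.1 hyA.1
    have ex : (x.1, jf x.1) = x := by rw [← hx]
    have ey : (y.1, jf y.1) = y := by rw [← hy]
    rw [ex] at hl'
    rw [ey] at hm'
    have el := vc_uniq G x l l' hl hl'
    have em := vc_uniq G y m m' hm hm'
    subst el em
    unfold cfl bfr at hc
    simp only [Bool.and_eq_true, Bool.or_eq_true, decide_eq_true_eq] at hc
    obtain ⟨h1, h2 | ⟨h2, h3⟩⟩ := hc
    · rw [h2] at hx
      rcases h1 with h1 | ⟨_, h1⟩
      · omega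
      · omega
    · rw [h2] at hal
      rw [← hal, ← ham] at h3
      simp at h3
  · have h1 : dsz (confE G) (fun x => decide (x.2 ≠ jf x.1)) ≤
        ((vc_A G).filter (fun x => decide (x.2 ≠ jf x.1) = true)).card := by
      unfold dsz
      apply Finset.card_le_card
      intro v hv
      rw [Finset.mem_filter, List.mem_toFinset] at hv
      rw [Finset.mem_filter]
      exact ⟨vc_ends G v hv.1, hv.2⟩
    have h2 : G.length ≤ ((vc_A G).filter (fun x => ¬ decide (x.2 ≠ jf x.1) = true)).card := by
      have h3 : ((Finset.range G.length).image (fun i => (i, jf i))) ⊆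
          (vc_A G).filter (fun x => ¬ decide (x.2 ≠ jf x.1) = true) := by
        intro x hx
        rw [Finset.mem_image] at hx
        obtain ⟨i, hi, rfl⟩ := hx
        rw [Finset.mem_range] at hi
        obtain ⟨l, hl, -⟩ := hjf i hi
        rw [Finset.mem_filter]
        refine ⟨vc_lits_A G _ _ hl, ?_⟩
        simp
      have h4 := Finset.card_le_card h3
      rw [Finset.card_image_of_injective _ (fun i i' h => (Prod.mk.inj h).1),
        Finset.card_range] at h4
      exact h4
    have h5 := Finset.card_filter_add_card_filter_not (s := vc_A G)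
      (fun x => decide (x.2 ≠ jf x.1) = true)
    rw [vc_card_A] at h5
    omega

open Classical in
private theorem vc_second (G : List (List (Lit W))) (a' : ℕ × ℕ → Bool)
    (ha : Cov (confE G) a') :
    ∃ α : W → Bool, nlit G + G.countP (falsB α) ≤ dsz (confE G) a' + G.length := by
  set S : Finset (ℕ × ℕ) := ((ends (confE G)).toFinset.filter (fun v => a' v = true)) with hS
  have hSA : S ⊆ vc_A G := by
    intro v hv
    rw [hS, Finset.mem_filter, List.mem_toFinset] at hv
    exact vc_ends G v hv.1
  have hdsz : dsz (confE G) a' = S.card := rfl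
  have hI : (vc_A G \ S).card + S.card = nlit G := by
    rw [← vc_card_A]
    exact Finset.card_sdiff_add_card_eq_card hSA
  -- members of I are not in conflict
  have hind : ∀ x y l m, x ∈ vc_A G \ S → y ∈ vc_A G \ S → x ≠ y → (x, l) ∈ lits G →
      (y, m) ∈ lits G → ¬ (x.1 = y.1 ∨ (l.2 = m.2 ∧ l.1 ≠ m.1)) := by
    have key : ∀ x y l m, x ∈ vc_A G \ S → y ∈ vc_A G \ S → bfr x y = true → (x, l) ∈ lits G →
        (y, m) ∈ lits G → ¬ (x.1 = y.1 ∨ (l.2 = m.2 ∧ l.1 ≠ m.1)) := by
      intro x y l m hx hy hb hl hm hcon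
      have he : (x, y) ∈ confE G := by
        rw [vc_mem_conf]
        refine ⟨l, m, hl, hm, ?_⟩
        unfold cfl
        simp only [Bool.and_eq_true, Bool.or_eq_true, decide_eq_true_eq]
        refine ⟨hb, ?_⟩
        rcases hcon with h | ⟨h1, h2⟩
        · exact Or.inl h
        · refine Or.inr ⟨h1, ?_⟩
          cases h3 : l.1 <;> cases h4 : m.1 <;> rw [h3, h4] at h2 <;> simp at h2 ⊢
      rw [Finset.mem_sdiff] at hx hy
      have hxe : x ∈ ends (confE G) := by
        unfold ends
        rw [List.mem_flatMap]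
        exact ⟨(x, y), he, by simp⟩
      have hye : y ∈ ends (confE G) := by
        unfold ends
        rw [List.mem_flatMap]
        exact ⟨(x, y), he, by simp⟩
      rcases ha (x, y) he with h | h
      · apply hx.2
        rw [hS, Finset.mem_filter, List.mem_toFinset]
        exact ⟨hxe, h⟩
      · apply hy.2
        rw [hS, Finset.mem_filter, List.mem_toFinset]
        exact ⟨hye, h⟩
    intro x y l m hx hy hxy hl hm hcon
    by_cases hb : bfr x y = true
    · exact key x y l m hx hy hb hl hm hcon
    · have hb' : bfr y x = true := by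
        unfold bfr at hb ⊢
        simp only [Bool.or_eq_true, Bool.and_eq_true, decide_eq_true_eq] at hb ⊢
        have : ¬ (x.1 = y.1 ∧ x.2 = y.2) := fun h => hxy (Prod.ext h.1 h.2)
        omega
      refine key y x m l hy hx hb' hm hl ?_
      rcases hcon with h | ⟨h1, h2⟩
      · exact Or.inl h.symm
      · exact Or.inr ⟨h1.symm, fun h => h2 h.symm⟩
  refine ⟨fun w => decide (∃ x, x ∈ vc_A G \ S ∧ (x, (true, w)) ∈ lits G), ?_⟩
  set α : W → Bool := fun w => decide (∃ x, x ∈ vc_A G \ S ∧ (x, (true, w)) ∈ lits G) with hα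
  have hinj : Set.InjOn Prod.fst (↑(vc_A G \ S) : Set (ℕ × ℕ)) := by
    intro x hx y hy hxy
    by_contra hne
    have hx' := Finset.mem_coe.mp hx
    have hy' := Finset.mem_coe.mp hy
    obtain ⟨l, hl⟩ := vc_A_lits G x (Finset.mem_sdiff.mp hx').1
    obtain ⟨m, hm⟩ := vc_A_lits G y (Finset.mem_sdiff.mp hy').1
    exact hind x y l m hx' hy' hne hl hm (Or.inl hxy)
  have himg : ((vc_A G \ S).image Prod.fst) ⊆
      (Finset.range G.length).filter (fun i => ¬ falsB α (G.getD i []) = true) := by
    intro i hi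
    rw [Finset.mem_image] at hi
    obtain ⟨x, hx, rfl⟩ := hi
    have hxA := (vc_mem_A G x).mp (Finset.mem_sdiff.mp hx).1
    rw [Finset.mem_filter, Finset.mem_range]
    refine ⟨hxA.1, ?_⟩
    obtain ⟨l, hl⟩ := vc_A_lits G x (Finset.mem_sdiff.mp hx).1
    have hmem : l ∈ G.getD x.1 [] := by
      rw [vc_mem_lits] at hl
      exact List.mem_of_getElem? hl
    unfold falsB
    simp only [Bool.not_eq_true', Bool.not_eq_false, List.any_eq_true, beq_iff_eq]
    refine ⟨l, hmem, ?_⟩
    obtain ⟨b, w⟩ := l
    cases b with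
    | true =>
      simp only [hα, decide_eq_true_eq]
      exact ⟨x, hx, hl⟩
    | false =>
      simp only [hα, decide_eq_false_iff_not]
      rintro ⟨y, hy, hly⟩
      have hne : x ≠ y := by
        intro h
        rw [← h] at hly
        have := vc_uniq G x _ _ hl hly
        simp at this
      exact hind x y (false, w) (true, w) hx hy hne hl hly (Or.inr ⟨rfl, by simp⟩)
  have h1 := Finset.card_le_card himg
  rw [Finset.card_image_of_injOn hinj] at h1
  have h2 := Finset.card_filter_add_card_filter_not (s := Finset.range G.length)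
    (fun i => falsB α (G.getD i []) = true)
  rw [vc_countP (falsB α) G, Finset.card_range] at h2
  rw [hdsz]
  omega

end vc

theorem p_vc : S_vc := by
  intro W _ G
  refine ⟨?_, ?_⟩
  · rintro ⟨a, ha⟩
    exact vc_first G a ha
  · intro a' ha
    exact vc_second G a' ha

end Pool.Agent.Lib.MP_87d05f_lc.ND
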