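import Pool.Agent.Lib.MP_87d05f_lc.ND.Stm

set_option autoImplicit false

/-!
# Vertex deletion: search machines for families of connected graphs
-/

namespace Pool.Agent.Lib.MP_87d05f_lc.ND

open Pool.Agent.PolyTime Function Turing

/-- bounded degrees -/
def any_deg {T : Type} [DecidableEq T] (E : List (T × T)) (D : ℕ) : Prop :=
  ∀ v, (ends E).count v ≤ D

theorem any_edW (E : List (ℕ × ℕ)) : edW (enG E) = bE E := by
  unfold edW enG bE
  rw [parseW_encW, List.map_map]
  refine List.map_congr_left fun e _ => ?_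
  simp [Function.comp, wordE]

theorem any_ends_ptime : PTime (fun E : List (Wd × Wd) => ends E) := by
  unfold ends
  exact PTime.flatMap (f := fun (_ : List (Wd × Wd)) (e : Wd × Wd) => [e.1, e.2]) PTime.id
    (PTime.cons (PTime.fst.comp PTime.snd) (PTime.cons (PTime.snd.comp PTime.snd)
      (PTime.const [])))

theorem any_const {P : List FG → ℕ → Prop} (hmono : ∀ G c c', c ≤ c' → P G c → P G c')
    (Φ : List (List FG)) (h : ∀ G ∈ Φ, ∃ c, P G c) : ∃ c, 1 ≤ c ∧ ∀ G ∈ Φ, P G c := by
  induction Φ with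
  | nil => exact ⟨1, le_rfl, by simp⟩
  | cons G Φ ih =>
    obtain ⟨c, hc, h1⟩ := ih (fun G hG => h G (List.mem_cons_of_mem _ hG))
    obtain ⟨c', h2⟩ := h G List.mem_cons_self
    refine ⟨max c c', le_max_of_le_left hc, fun G' hG' => ?_⟩
    rcases List.mem_cons.1 hG' with rfl | hG'
    · exact hmono _ _ _ (le_max_right _ _) h2
    · exact hmono _ _ _ (le_max_left _ _) (h1 _ hG')

theorem any_insW_length (Φ : List (List FG)) (C₀ N : ℕ) (E : List (Wd × Wd))
    (h : ∀ G ∈ Φ, (cons G E).length ≤ N) : (insW Φ C₀ E).length ≤ Φ.length * N := by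
  have h1 : (insW Φ C₀ E).length = ((candL C₀ (allC Φ E)).map (fun p => p.2.length)).sum := by
    unfold insW
    rw [List.length_flatMap]
    congr 1
    refine List.map_congr_left fun p _ => ?_
    rw [List.length_map]
  have h2 : ((candL C₀ (allC Φ E)).map (fun p => p.2.length)).sum ≤
      ((candL C₀ (allC Φ E)).map (fun _ => N)).sum := by
    refine List.sum_le_sum fun p hp => ?_
    unfold candL at hp
    have hp1 := List.mem_of_mem_filter hp
    unfold allC at hp1
    obtain ⟨z, hz, rfl⟩ := List.mem_map.1 hp1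
    exact h _ (List.mem_of_getElem? (List.mem_zipIdx_iff_getElem?.1 hz))
  have h3 : (candL C₀ (allC Φ E)).length ≤ Φ.length := by
    unfold candL
    refine (List.length_filter_le _ _).trans ?_
    unfold allC
    rw [List.length_map, List.length_zipIdx]
  rw [List.map_const', List.sum_replicate, smul_eq_mul] at h2
  rw [h1]
  exact h2.trans (Nat.mul_le_mul_right _ h3)

theorem any_places (M : ℕ) (F : List (Con (arD M))) :
    (F.flatMap (fun c => List.ofFn c.2)).length ≤ F.length * (M + 1) := by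
  induction F with
  | nil => simp
  | cons c F ih =>
    rw [List.flatMap_cons, List.length_append, List.length_ofFn, List.length_cons, Nat.add_mul]
    have : arD M c.1 ≤ M + 1 := by
      unfold arD
      have := c.1.2
      split_ifs <;> omega
    omega

theorem any_indW (E : List (ℕ × ℕ)) (S : List Wd) :
    indW (bE E) S = E.flatMap (fun e => [decide (Nat.bits e.1 ∈ S), decide (Nat.bits e.2 ∈ S)]) := by
  unfold indW ends bE
  rw [List.flatMap_map, List.map_flatMap]
  rfl

theorem any_arith {X Y p q t : ℕ} (ht : 1 ≤ t)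
    (h : (q * t + p + 1) * X ≤ (q * t + p + 1) * Y + p * t * Y) : q * X ≤ q * Y + p * Y := by
  rcases Nat.le_total X Y with hXY | hXY
  · exact (Nat.mul_le_mul_left q hXY).trans (Nat.le_add_right _ _)
  · obtain ⟨Z, rfl⟩ := Nat.exists_eq_add_of_le hXY
    have h1 : (q * t + p + 1) * Z ≤ p * t * Y := by
      rw [Nat.mul_add] at h
      omega
    have h2 : t * (q * Z) ≤ t * (p * Y) := by
      calc t * (q * Z) = (q * t) * Z := by ring
        _ ≤ (q * t + p + 1) * Z := Nat.mul_le_mul_right _ (by omega)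
        _ ≤ p * t * Y := h1
        _ = t * (p * Y) := by ring
    have h3 : q * Z ≤ p * Y := Nat.le_of_mul_le_mul_left h2 (by omega)
    rw [Nat.mul_add]
    omega

theorem p_any : S_any := by
  intro hmap hclen hnear hinst hconv hI hO hQ Φ hΦ hc D p q b hp hq hb
  -- constants
  obtain ⟨M, _, hM⟩ := any_const (P := fun G m => ∀ H ∈ G, H.1 ≤ m)
    (fun G c c' hcc h H hH => (h H hH).trans hcc) Φ (fun G _ => by
      refine ⟨(G.map (fun H => H.1)).sum, fun H hH => ?_⟩
      exact List.single_le_sum (fun _ _ => Nat.zero_le _) _ (List.mem_map.2 ⟨H, hH, rfl⟩))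
  have hpos : ∀ G ∈ Φ, ∀ H ∈ G, 1 ≤ H.1 := by
    intro G hG H hH
    obtain ⟨v⟩ := (hc G hG H hH).nonempty
    have := v.2
    omega
  have hM' : ∀ G ∈ Φ, ∀ H ∈ G, 1 ≤ H.1 ∧ H.1 ≤ M := fun G hG H hH =>
    ⟨hpos G hG H hH, hM G hG H hH⟩
  obtain ⟨C₀, hC₀, hC⟩ := any_const (P := fun G c => ∀ E : List (Wd × Wd),
    any_deg E D → (cons G E).length ≤ c * nv E ∧
      ∀ a : Wd → Bool, Sol {H | H ∈ G} E a → (cons G E).length ≤ c * dsz E a)
    (fun G c c' hcc h E hE => ⟨(h E hE).1.trans (Nat.mul_le_mul_right _ hcc),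
      fun a ha => ((h E hE).2 a ha).trans (Nat.mul_le_mul_right _ hcc)⟩) Φ (fun G hG => by
      obtain ⟨c, h⟩ := hclen D G (hc G hG)
      exact ⟨c, fun E hE => h Wd E hE⟩)
  have hs : 1 ≤ Φ.length := List.length_pos_iff.2 hΦ
  obtain ⟨t, ht⟩ : ∃ t, t = Φ.length * C₀ ^ 2 := ⟨_, rfl⟩
  have ht1 : 1 ≤ t := by
    rw [ht]
    exact Nat.mul_pos hs (Nat.pow_pos hC₀)
  have hsb : 0 < Φ.length * C₀ * b := Nat.mul_pos (Nat.mul_pos hs hC₀) hb
  have hora := hQ M p (q * t + p + 1) (Φ.length * C₀ * b) hp (by omega) hsb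
  have hf : PTime (fun x => encW ((insW Φ C₀ (edW x)).map (conW M))) :=
    encW_ptime ((hI Φ C₀ M).2.2.1.comp (hI Φ C₀ M).2.2.2)
  have hh : PTime (fun x => mydiv (ded (ends (edW x))).length b) :=
    mydiv_ptime (PTime.length (ded_ptime (any_ends_ptime.comp (hI Φ C₀ M).2.2.2))) (PTime.const b)
  have ho : PTime (fun z : List Bool × List Bool =>
      indW (edW z.1) (outS Φ C₀ (edW z.1) (convV z.2))) := by
    have h1 : PTime (fun z : List Bool × List Bool => edW z.1) := (hI Φ C₀ M).2.2.2.comp PTime.fst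
    have h2 : PTime (fun z : List Bool × List Bool => convV z.2) := convV_ptime.comp PTime.snd
    exact (hO Φ C₀).2.1.comp (h1.pair ((hO Φ C₀).1.comp (h1.pair h2)))
  refine find_transfer (R := 2 * (M + 1) * (Φ.length * C₀)) hf hh ho (fun E _ => nvG_le E) ?_ hora
  intro E hE
  have hx := any_edW E
  obtain ⟨m1, m2, m3, m4, m5, m6⟩ := hmap ℕ Wd Nat.bits bits_injective E
  have hdeg : any_deg (bE E) D := m2 D hE.2.2
  have hnv : nv (bE E) = nvG E := m3
  have hlen : (insW Φ C₀ (bE E)).length ≤ Φ.length * (C₀ * nvG E) := by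
    refine any_insW_length Φ C₀ _ _ fun G hG => ?_
    rw [← hnv]
    exact (hC G hG _ hdeg).1
  obtain ⟨F, F1, F2, F3, F4, F5⟩ := hinst Φ M C₀ (bE E) hM'
  have hded : (ded (ends (edW (enG E)))).length = nvG E := by
    rw [hx, ded_length]
    exact hnv
  refine ⟨F, trivial, ?_, ?_, ?_, ?_⟩
  · rw [codeC_eq, F1, hx]
  · rintro w ⟨a, rfl, ha⟩
    constructor
    · refine (hconv _ _ F a).2.trans ?_
      have h1 := any_places M F
      have h2 : F.length * (M + 1) ≤ Φ.length * (C₀ * nvG E) * (M + 1) := by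
        rw [F2]
        exact Nat.mul_le_mul_right _ hlen
      have h3 : nvG E ≤ (enG E).length := nvG_le E
      calc 2 * (F.flatMap (fun c => List.ofFn c.2)).length
          ≤ 2 * (Φ.length * (C₀ * nvG E) * (M + 1)) := by omega
        _ = 2 * (M + 1) * (Φ.length * C₀) * nvG E := by ring
        _ ≤ 2 * (M + 1) * (Φ.length * C₀) * (enG E).length := Nat.mul_le_mul_left _ h3
    · simp only
      rw [hx, (hconv _ _ F a).1, F3 a]
      obtain ⟨β, hβ⟩ : ∃ β : ℕ → Wd → Bool, β = fun j v => decide (a (unbits (nb v j)) = 1) :=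
        ⟨_, rfl⟩
      obtain ⟨S, hS⟩ : ∃ S : List Wd, S = outS Φ C₀ (bE E) ((insW Φ C₀ (bE E)).flatMap
          (fun r => r.2.2.map (fun w => decide (a (unbits (nb w r.1)) = 1)))) := ⟨_, rfl⟩
      rw [← hS]
      have hS' : S = outS Φ C₀ (bE E) ((insW Φ C₀ (bE E)).flatMap
          (fun r => r.2.2.map (β r.1))) := by
        rw [hS, hβ]
      obtain ⟨n1, n2⟩ := hnear Φ C₀ p (q * t + p + 1) (bE E) hΦ (by omega) hpos
        (fun G hG a' ha' => (hC G hG _ hdeg).2 a' ha') β (by
          intro β'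
          obtain ⟨a', ha'⟩ := F5 β'
          have h1 := ha a'
          have h2 := F4 a
          have h3 := F4 a'
          have e1 : ((fun r : ℕ × (ℕ × List Wd) => vio r.2.1 (r.2.2.map (β r.1))) :
              ℕ × (ℕ × List Wd) → Bool) = fun r => vio r.2.1 (r.2.2.map
                (fun w => decide (a (unbits (nb w r.1)) = 1))) := by
            rw [hβ]
          have e2 : ((fun r : ℕ × (ℕ × List Wd) => vio r.2.1 (r.2.2.map (β' r.1))) :
              ℕ × (ℕ × List Wd) → Bool) = fun r => vio r.2.1 (r.2.2.map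
                (fun w => decide (a' (unbits (nb w r.1)) = 1))) := by
            funext r
            congr 2
            funext w
            rw [ha']
          rw [e1, e2]
          generalize (insW Φ C₀ (bE E)).countP (fun r => vio r.2.1 (r.2.2.map
            (fun w => decide (a (unbits (nb w r.1)) = 1)))) = c1 at h2 ⊢
          generalize (insW Φ C₀ (bE E)).countP (fun r => vio r.2.1 (r.2.2.map
            (fun w => decide (a' (unbits (nb w r.1)) = 1)))) = c2 at h3 ⊢
          generalize (insW Φ C₀ (bE E)).length = N at h2 h3 ⊢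
          generalize valC (phiD M) a F = v1 at h1 h2
          generalize valC (phiD M) a' F = v2 at h1 h3
          generalize hQ' : q * t + p + 1 = Q at h1 ⊢
          have hQ0 : (0 : ℚ) < (Q : ℚ) := by
            have : 0 < Q := by omega
            exact_mod_cast this
          have h4 : ((Q : ℕ) : ℚ) * ((1 - (p : ℚ) / ((Q : ℕ) : ℚ)) * (v2 : ℚ)) =
              ((Q : ℕ) : ℚ) * (v2 : ℚ) - (p : ℚ) * (v2 : ℚ) := by
            field_simp
          have h5 := mul_le_mul_of_nonneg_left h1 hQ0.le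
          rw [h4] at h5
          have h6 : Q * v2 ≤ Q * v1 + p * v2 := by
            have : (Q : ℚ) * (v2 : ℚ) ≤ (Q : ℚ) * (v1 : ℚ) + (p : ℚ) * (v2 : ℚ) := by linarith
            exact_mod_cast this
          have h7 : p * v2 ≤ p * N := Nat.mul_le_mul_left _ (by omega)
          have h8 : Q * v1 + Q * c1 = Q * v2 + Q * c2 := by
            rw [← Nat.mul_add, ← Nat.mul_add, h2, h3]
          omega) S hS'
      refine ⟨fun v => decide (Nat.bits v ∈ S), any_indW E S, ?_, ?_⟩
      · obtain ⟨G, hG, hGS⟩ := n1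
        exact ⟨G, hG, (m4 _ _).1 hGS⟩
      · intro G' hG' a' ha'
        obtain ⟨a'', ha''⟩ := m6 a'
        have h1 : Sol {H | H ∈ G'} (bE E) a'' := by
          refine (m4 _ _).2 ?_
          rw [ha'']
          exact ha'
        have h2 := n2 G' hG' a'' h1
        have e1 : dsz (bE E) (fun v => decide (v ∈ S)) =
            dsz E (fun v => decide (Nat.bits v ∈ S)) := m5 _
        have e2 : dsz (bE E) a'' = dsz E a' := by
          have := m5 a''
          rw [ha''] at this
          exact this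
        rw [e1, e2, ← ht] at h2
        have h3 := any_arith ht1 h2
        have hq' : (0 : ℚ) < (q : ℚ) := by exact_mod_cast hq
        have h4 : (q : ℚ) * (dsz E (fun v => decide (Nat.bits v ∈ S)) : ℚ) ≤
            (q : ℚ) * ((1 + (p : ℚ) / (q : ℚ)) * (dsz E a' : ℚ)) := by
          have h5 : (q : ℚ) * ((1 + (p : ℚ) / (q : ℚ)) * (dsz E a' : ℚ)) =
              q * (dsz E a' : ℚ) + p * (dsz E a' : ℚ) := by
            field_simp
          rw [h5]
          exact_mod_cast h3
        exact le_of_mul_le_mul_left h4 hq'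
  · rw [hded, mydiv_eq hb, F2]
    have h1 : (insW Φ C₀ (bE E)).length ≤ Φ.length * C₀ * nvG E := by
      rw [Nat.mul_assoc]
      exact hlen
    have h2 := Nat.div_le_div_right (c := Φ.length * C₀ * b) h1
    rwa [Nat.mul_div_mul_left _ _ (Nat.mul_pos hs hC₀)] at h2
  · rw [hded, mydiv_eq hb]

end Pool.Agent.Lib.MP_87d05f_lc.ND
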