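import Pool.Agent.Lib.MP_87d05f_lc.ND.Stm

set_option autoImplicit false

/-!
Project ND, piece conv: reading the values of the places.
-/

namespace Pool.Agent.Lib.MP_87d05f_lc.ND

open Pool.Agent.PolyTime Function Turing

private theorem conv_list (a : ℕ → Fin 2) (r : List Bool) : ∀ l : List ℕ,
    convV (l.flatMap (fun v => List.replicate ((a v : Fin 2) : ℕ) true ++ [false]) ++ r) =
      l.map (fun v => decide (a v = 1)) ++ convV r := by
  intro l
  induction l with
  | nil => rfl
  | cons v l ih =>
    rw [List.flatMap_cons, List.append_assoc, convV_token, ih, List.map_cons, List.cons_append]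

private theorem conv_len (a : ℕ → Fin 2) : ∀ l : List ℕ,
    (l.flatMap (fun v => List.replicate ((a v : Fin 2) : ℕ) true ++ [false])).length ≤
      2 * l.length := by
  intro l
  induction l with
  | nil => simp
  | cons v l ih =>
    have h1 := (a v).2
    rw [List.flatMap_cons, List.length_append, List.length_append, List.length_replicate,
      List.length_cons, List.length_cons, List.length_nil]
    omega

theorem p_conv : S_conv := by
  intro g ar F a
  induction F with
  | nil => exact ⟨rfl, le_refl _⟩
  | cons c F ih =>
    have h1 : outW (c :: F) a = (List.ofFn c.2).flatMap (fun v =>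
        List.replicate ((a v : Fin 2) : ℕ) true ++ [false]) ++ outW F a := by
      unfold outW
      rw [List.flatMap_cons]
    refine ⟨?_, ?_⟩
    · rw [h1, conv_list, ih.1, List.flatMap_cons]
    · have h2 := conv_len a (List.ofFn c.2)
      rw [h1, List.flatMap_cons, List.length_append, List.length_append]
      have h3 := ih.2
      omega

end Pool.Agent.Lib.MP_87d05f_lc.ND
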