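import Pool.Agent.Lib.MP_87d05f_lc.ND.Stm

set_option autoImplicit false

/-!
Piece inst: the instance of the payoff language.
-/

namespace Pool.Agent.Lib.MP_87d05f_lc.ND

open Pool.Agent.PolyTime Function Turing

/-- the constraint of an entry of the instance -/
def instC (M : ℕ) (r : ℕ × (ℕ × List Wd)) : Con (arD M) :=
  ⟨⟨min r.2.1 M, by omega⟩, fun j => unbits (nb (r.2.2.getD (j : ℕ) []) r.1)⟩

/-- the form of the entries -/
def instG (M : ℕ) (r : ℕ × (ℕ × List Wd)) : Prop :=
  r.2.1 ≤ M ∧ r.2.2.length = if r.2.1 = 0 then 1 else r.2.1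

theorem inst_fst {M : ℕ} {r : ℕ × (ℕ × List Wd)} (h : instG M r) :
    ((instC M r).1 : ℕ) = r.2.1 := min_eq_left h.1

theorem inst_ofFn {M : ℕ} {r : ℕ × (ℕ × List Wd)} (h : instG M r) :
    List.ofFn (instC M r).2 = r.2.2.map (fun w => unbits (nb w r.1)) := by
  have hlen : arD M (instC M r).1 = r.2.2.length := by
    rw [h.2]
    unfold arD
    rw [inst_fst h]
  refine List.ext_getElem ?_ ?_
  · rw [List.length_ofFn, List.length_map, hlen]
  · intro i h1 h2
    rw [List.length_map] at h2
    rw [List.getElem_ofFn, List.getElem_map]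
    change unbits (nb (r.2.2.getD i []) r.1) = _
    rw [List.getD_eq_getElem _ _ h2]

theorem inst_bits (w : Wd) (j : ℕ) : Nat.bits (unbits (nb w j)) = nb w j := by
  obtain ⟨u, hu⟩ := nb_end w j
  rw [hu, bits_unbits]

theorem inst_word {M : ℕ} {r : ℕ × (ℕ × List Wd)} (h : instG M r) :
    wordC (instC M r) = conW M r := by
  unfold wordC conW
  rw [inst_ofFn h, inst_fst h, List.map_map]
  congr 1
  · rw [List.getD_eq_getElem _ _ (by
      rw [List.length_map, List.length_range]
      have := h.1
      omega), List.getElem_map, List.getElem_range]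
  · refine List.map_congr_left fun w _ => ?_
    exact inst_bits w r.1

theorem inst_phi {M : ℕ} {r : ℕ × (ℕ × List Wd)} (h : instG M r) (a : ℕ → Fin 2) :
    phiD M (instC M r).1 (fun j => a ((instC M r).2 j)) =
      if vio r.2.1 (r.2.2.map (fun w => decide (a (unbits (nb w r.1)) = 1))) = true
        then 0 else 1 := by
  unfold phiD
  have e : List.ofFn (fun j => decide (a ((instC M r).2 j) = 1)) =
      r.2.2.map (fun w => decide (a (unbits (nb w r.1)) = 1)) := by
    have e1 : List.ofFn (fun j => decide (a ((instC M r).2 j) = 1)) =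
        (List.ofFn (instC M r).2).map (fun v => decide (a v = 1)) := by
      rw [List.map_ofFn]
      rfl
    rw [e1, inst_ofFn h, List.map_map]
    rfl
  rw [e, inst_fst h]

theorem inst_val {M : ℕ} (a : ℕ → Fin 2) : ∀ L : List (ℕ × (ℕ × List Wd)),
    (∀ r ∈ L, instG M r) → valC (phiD M) a (L.map (instC M)) +
      L.countP (fun r => vio r.2.1 (r.2.2.map
        (fun w => decide (a (unbits (nb w r.1)) = 1)))) = L.length := by
  intro L
  induction L with
  | nil => intro _; rfl
  | cons r L ih =>
    intro hL
    have h1 := ih fun s hs => hL s (List.mem_cons_of_mem _ hs)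
    have h2 : valC (phiD M) a ((r :: L).map (instC M)) =
        phiD M (instC M r).1 (fun j => a ((instC M r).2 j)) +
          valC (phiD M) a (L.map (instC M)) := by
      unfold valC
      rw [List.map_cons, List.map_cons, List.sum_cons]
    rw [h2, inst_phi (hL r List.mem_cons_self), List.countP_cons, List.length_cons]
    by_cases h3 : vio r.2.1 (r.2.2.map (fun w => decide (a (unbits (nb w r.1)) = 1))) = true
    · rw [if_pos h3, if_pos h3]
      omega
    · rw [if_neg h3, if_neg h3]
      omega

theorem p_inst : S_inst := by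
  intro hcwf Φ M C₀ E hΦ
  have hgood : ∀ r ∈ insW Φ C₀ E, instG M r := by
    intro r hr
    unfold insW at hr
    obtain ⟨p, hp, hr⟩ := List.mem_flatMap.1 hr
    obtain ⟨c, hc, rfl⟩ := List.mem_map.1 hr
    unfold candL at hp
    have hp1 := (List.mem_filter.1 hp).1
    unfold allC at hp1
    obtain ⟨q, hq, rfl⟩ := List.mem_map.1 hp1
    have hq1 : q.1 ∈ Φ := List.fst_mem_of_mem_zipIdx hq
    rcases hcwf Wd q.1 M (hΦ q.1 hq1) E c hc with ⟨h1, h2⟩ | ⟨h1, h2, h3⟩
    · refine ⟨?_, ?_⟩
      · change c.1 ≤ M
        omega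
      · change c.2.length = if c.1 = 0 then 1 else c.1
        rw [if_pos h1, h2]
    · refine ⟨h3, ?_⟩
      change c.2.length = if c.1 = 0 then 1 else c.1
      rw [if_neg (by omega), h1]
  refine ⟨(insW Φ C₀ E).map (instC M), ?_, List.length_map _, ?_, ?_, ?_⟩
  · rw [List.map_map]
    exact List.map_congr_left fun r hr => inst_word (hgood r hr)
  · intro a
    rw [List.flatMap_map]
    refine List.flatMap_congr fun r hr => ?_
    rw [inst_ofFn (hgood r hr), List.map_map]
    rfl
  · intro a
    exact inst_val a _ hgood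
  · intro β
    classical
    refine ⟨fun n => if ∃ j w, unbits (nb w j) = n ∧ β j w = true then 1 else 0, fun j w => ?_⟩
    have h1 : (∃ j' w', unbits (nb w' j') = unbits (nb w j) ∧ β j' w' = true) ↔
        β j w = true := by
      constructor
      · rintro ⟨j', w', h2, h3⟩
        have h4 := congrArg Nat.bits h2
        rw [inst_bits, inst_bits] at h4
        obtain ⟨h5, h6⟩ := nb_inj h4
        rw [← h5, ← h6]
        exact h3
      · intro h2
        exact ⟨j, w, rfl, h2⟩
    change decide ((if ∃ j' w', unbits (nb w' j') = unbits (nb w j) ∧ β j' w' = true then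
      (1 : Fin 2) else 0) = 1) = β j w
    by_cases h2 : β j w = true
    · rw [if_pos (h1.2 h2), h2]
      decide
    · rw [if_neg (fun h => h2 (h1.1 h))]
      simp only [Bool.not_eq_true] at h2
      rw [h2]
      decide

end Pool.Agent.Lib.MP_87d05f_lc.ND
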