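import Pool.Agent.Lib.MP_87d05f_lc.ND.Stm

set_option autoImplicit false

/-!
Piece ptO: the answer is computable in polynomial time.
-/

namespace Pool.Agent.Lib.MP_87d05f_lc.ND

open Pool.Agent.PolyTime Function Turing

/-- constraints of the instance -/
abbrev PtoR : Type := ℕ × (ℕ × List Wd)

/-- one step of the distribution of the values -/
def ptoStep (s : List Bool × List (PtoR × List Bool)) (r : PtoR) :
    List Bool × List (PtoR × List Bool) :=
  (s.1.drop r.2.2.length, (r, s.1.take r.2.2.length) :: s.2)

theorem ptoStep_foldl (F : List PtoR) : ∀ (bs : List Bool) (o : List (PtoR × List Bool)),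
    (F.foldl ptoStep (bs, o)).2.reverse = o.reverse ++ disV F bs := by
  induction F with
  | nil => intro bs o; simp [disV]
  | cons r F ih =>
    intro bs o
    rw [List.foldl_cons, ptoStep, ih, disV, List.reverse_cons, List.append_assoc]
    rfl

theorem ptO_disV {α : Type} [SCode α] {F : α → List PtoR} {bs : α → List Bool} (hF : PTime F)
    (hb : PTime bs) : PTime (fun a => disV (F a) (bs a)) := by
  have h : PTime (fun p : List PtoR × List Bool =>
      p.1.foldl (fun s r => ptoStep s r) ((p.2, []) : List Bool × List (PtoR × List Bool))) := by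
    refine PTime.foldl (l := fun p : List PtoR × List Bool => p.1)
      (s := fun p : List PtoR × List Bool => ((p.2, []) : List Bool × List (PtoR × List Bool)))
      (f := fun (_ : List PtoR × List Bool) (s : List Bool × List (PtoR × List Bool))
        (r : PtoR) => ptoStep s r) PTime.fst (PTime.snd.pair (PTime.const [])) ?_
      (Polynomial.X + 4) ?_
    · have hs1 : PTime (fun q : (List PtoR × List Bool) × (List Bool × List (PtoR × List Bool)) ×
          PtoR => q.2.1.1) := PTime.fst.comp (PTime.fst.comp PTime.snd)
      have hs2 : PTime (fun q : (List PtoR × List Bool) × (List Bool × List (PtoR × List Bool)) ×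
          PtoR => q.2.1.2) := PTime.snd.comp (PTime.fst.comp PTime.snd)
      have hr : PTime (fun q : (List PtoR × List Bool) × (List Bool × List (PtoR × List Bool)) ×
          PtoR => q.2.2) := PTime.snd.comp PTime.snd
      have hn : PTime (fun q : (List PtoR × List Bool) × (List Bool × List (PtoR × List Bool)) ×
          PtoR => q.2.2.2.2.length) := PTime.length (PTime.snd.comp (PTime.snd.comp hr))
      exact (PTime.drop hn hs1).pair (PTime.cons (hr.pair (PTime.take hn hs1)) hs2)
    · intro a s r hr
      have h1 := sz_le_of_mem hr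
      have h2 := sz_append (s.1.take r.2.2.length) (s.1.drop r.2.2.length)
      rw [List.take_append_drop] at h2
      have h3 : sz a = sz a.1 + sz a.2 + 1 := by
        rcases a with ⟨a, b⟩
        rfl
      have h4 : sz s = sz s.1 + sz s.2 + 1 := by
        rcases s with ⟨a, b⟩
        rfl
      unfold ptoStep
      simp only [sz_pair, sz_cons, Polynomial.eval_add, Polynomial.eval_X,
        Polynomial.eval_ofNat]
      have h5 : sz r = sz (r.1, r.2) := rfl
      simp only [sz_pair] at h5
      omega
  refine (PTime.reverse (PTime.snd.comp (h.comp (hF.pair hb)))).of_eq fun a => ?_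
  have := ptoStep_foldl (F a) (bs a) []
  simpa using this

theorem ptO_pick : PTime (fun p : List Wd × List (List Wd) => pick p.1 p.2) := by
  refine PTime.foldl (l := fun p : List Wd × List (List Wd) => p.2)
    (s := fun p : List Wd × List (List Wd) => p.1)
    (f := fun (_ : List Wd × List (List Wd)) (r : List Wd) (l : List Wd) =>
      bif decide (l.length < r.length) then l else r) PTime.snd PTime.fst ?_
    Polynomial.X ?_
  · have hr : PTime (fun q : (List Wd × List (List Wd)) × List Wd × List Wd => q.2.1) :=
      PTime.fst.comp PTime.snd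
    have hl : PTime (fun q : (List Wd × List (List Wd)) × List Wd × List Wd => q.2.2) :=
      PTime.snd.comp PTime.snd
    exact PTime.cond (PTime.nat_lt (PTime.length hl) (PTime.length hr)) hl hr
  · intro a s b hb
    have h1 := sz_le_of_mem hb
    have h3 : sz a = sz a.1 + sz a.2 + 1 := by
      rcases a with ⟨a, b⟩
      rfl
    rw [Polynomial.eval_X]
    rcases h : decide (b.length < s.length) with _ | _
    · simp only [cond_false]
      omega
    · simp only [cond_true]
      omega

theorem ptO_vio {α : Type} [SCode α] {s : α → ℕ} {z : α → List Bool} (hs : PTime s)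
    (hz : PTime z) : PTime (fun a => vio (s a) (z a)) :=
  PTime.cond (PTime.isZero hs) (PTime.not (PTime.headD hz (PTime.const true)))
    (PTime.all (l := z) (p := fun (_ : α) (b : Bool) => b) hz PTime.snd)

theorem ptO_fstZ {α : Type} [SCode α] {j : α → ℕ} {Z : α → List (PtoR × List Bool)}
    (hj : PTime j) (hZ : PTime Z) : PTime (fun a => fstZ (j a) (Z a)) := by
  have r1 : PTime (fun q : α × (PtoR × List Bool) => q.2.1) := PTime.fst.comp PTime.snd
  have h1 : PTime (fun a => (Z a).filter (fun r => decide (r.1.1 = j a) && vio r.1.2.1 r.2)) :=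
    PTime.filter (l := Z) (p := fun (a : α) (r : PtoR × List Bool) =>
        decide (r.1.1 = j a) && vio r.1.2.1 r.2) hZ
      (PTime.and (PTime.nat_eq (PTime.fst.comp r1) (hj.comp PTime.fst))
        (ptO_vio (PTime.fst.comp (PTime.snd.comp r1)) (PTime.snd.comp PTime.snd)))
  exact PTime.map (l := fun a => (Z a).filter (fun r => decide (r.1.1 = j a) && vio r.1.2.1 r.2))
    (f := fun (_ : α) (r : PtoR × List Bool) => r.1.2.2.headD []) h1
    (PTime.headD (PTime.snd.comp (PTime.snd.comp r1)) (PTime.const []))

theorem ptO_ends {α : Type} [SCode α] {E : α → List (Wd × Wd)} (hE : PTime E) :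
    PTime (fun a => ends (E a)) := by
  have h : PTime (fun E : List (Wd × Wd) => ends E) :=
    PTime.flatMap (l := fun E : List (Wd × Wd) => E)
      (f := fun (_ : List (Wd × Wd)) (e : Wd × Wd) => [e.1, e.2]) PTime.id
      (PTime.cons (PTime.fst.comp PTime.snd)
        (PTime.cons (PTime.snd.comp PTime.snd) (PTime.const [])))
  exact h.comp hE

theorem p_ptO : S_ptO := by
  intro hI Φ C₀
  obtain ⟨hcand, hins, -, -⟩ := hI Φ C₀ 0
  refine ⟨?_, ?_, ptO_pick⟩
  · have hZ : PTime (fun p : List (Wd × Wd) × List Bool => disV (insW Φ C₀ p.1) p.2) :=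
      ptO_disV (hins.comp PTime.fst) PTime.snd
    have h1 : PTime (fun q : (List (Wd × Wd) × List Bool) × (ℕ × List (ℕ × List Wd)) =>
        ded (fstZ q.2.1 (disV (insW Φ C₀ q.1.1) q.1.2))) :=
      ded_ptime (ptO_fstZ (PTime.fst.comp PTime.snd) (hZ.comp PTime.fst))
    have h2 : PTime (fun p : List (Wd × Wd) × List Bool => (candL C₀ (allC Φ p.1)).map
        (fun q => ded (fstZ q.1 (disV (insW Φ C₀ p.1) p.2)))) :=
      PTime.map (l := fun p : List (Wd × Wd) × List Bool => candL C₀ (allC Φ p.1))
        (f := fun (p : List (Wd × Wd) × List Bool) (q : ℕ × List (ℕ × List Wd)) =>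
          ded (fstZ q.1 (disV (insW Φ C₀ p.1) p.2))) (hcand.comp PTime.fst) h1
    exact ptO_pick.comp ((ded_ptime (ptO_ends PTime.fst)).pair h2)
  · refine PTime.of_eq (PTime.map (l := fun p : List (Wd × Wd) × List Wd => ends p.1)
      (f := fun (p : List (Wd × Wd) × List Wd) (v : Wd) => decide (v ∈ p.2))
      (ptO_ends PTime.fst)
      ((PTime.mem PTime.snd (PTime.snd.comp PTime.fst)).of_eq fun _ =>
        decide_eq_decide.2 Iff.rfl)) fun p => rfl

end Pool.Agent.Lib.MP_87d05f_lc.ND
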