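import Pool.Agent.Lib.MP_87d05f_lc.ND.Stm

set_option autoImplicit false

/-!
# [ND bnd] the number of copies of a connected graph through a vertex
-/

namespace Pool.Agent.Lib.MP_87d05f_lc.ND

open Function

section bnd

variable {T : Type} [DecidableEq T]

/-- the neighbours of a vertex -/
def bnd_nb (E : List (T × T)) (w : T) : Finset T :=
  ((E.filter (fun e => decide (e.1 = w ∨ e.2 = w))).map
    (fun e => if e.1 = w then e.2 else e.1)).toFinset

lemma bnd_mem_nb {E : List (T × T)} {w x : T} (h : (w, x) ∈ E ∨ (x, w) ∈ E) :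
    x ∈ bnd_nb E w := by
  unfold bnd_nb
  rw [List.mem_toFinset, List.mem_map]
  rcases h with h | h
  · refine ⟨(w, x), ?_, ?_⟩
    · rw [List.mem_filter]
      exact ⟨h, by simp⟩
    · simp
  · refine ⟨(x, w), ?_, ?_⟩
    · rw [List.mem_filter]
      exact ⟨h, by simp⟩
    · by_cases hx : x = w
      · simp [hx]
      · simp [hx]

lemma bnd_filter_le (E : List (T × T)) (w : T) :
    (E.filter (fun e => decide (e.1 = w ∨ e.2 = w))).length ≤ (ends E).count w := by
  induction E with
  | nil => simp
  | cons e E ih =>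
    have h1 : (ends (e :: E)).count w = [e.1, e.2].count w + (ends E).count w := by
      unfold ends
      rw [List.flatMap_cons, List.count_append]
    rw [h1]
    by_cases h : e.1 = w ∨ e.2 = w
    · rw [List.filter_cons_of_pos (by simpa using h), List.length_cons]
      have h2 : 1 ≤ [e.1, e.2].count w := by
        rw [List.one_le_count_iff]
        rcases h with h | h
        · simp [h]
        · simp [h]
      omega
    · rw [List.filter_cons_of_neg (by simpa using h)]
      omega

lemma bnd_card_nb {E : List (T × T)} {D : ℕ} (hD : ∀ v, (ends E).count v ≤ D) (w : T) :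
    (bnd_nb E w).card ≤ D := by
  unfold bnd_nb
  refine (List.toFinset_card_le _).trans ?_
  rw [List.length_map]
  exact (bnd_filter_le E w).trans (hD w)

/-- one step -/
def bnd_g (E : List (T × T)) (S : Finset T) : Finset T :=
  S.biUnion (fun w => insert w (bnd_nb E w))

lemma bnd_card_g {E : List (T × T)} {D : ℕ} (hD : ∀ v, (ends E).count v ≤ D) (S : Finset T) :
    (bnd_g E S).card ≤ (D + 1) * S.card := by
  unfold bnd_g
  refine Finset.card_biUnion_le.trans ?_
  calc ∑ w ∈ S, (insert w (bnd_nb E w)).card ≤ ∑ _w ∈ S, (D + 1) := by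
        refine Finset.sum_le_sum fun w _ => ?_
        exact (Finset.card_insert_le _ _).trans (Nat.succ_le_succ (bnd_card_nb hD w))
    _ = (D + 1) * S.card := by
        rw [Finset.sum_const, smul_eq_mul, mul_comm]

lemma bnd_card_iter {E : List (T × T)} {D : ℕ} (hD : ∀ v, (ends E).count v ≤ D) (n : ℕ)
    (S : Finset T) : ((bnd_g E)^[n] S).card ≤ (D + 1) ^ n * S.card := by
  induction n generalizing S with
  | zero => simp
  | succ n ih =>
    rw [iterate_succ_apply]
    refine (ih _).trans ?_
    calc (D + 1) ^ n * (bnd_g E S).card ≤ (D + 1) ^ n * ((D + 1) * S.card) :=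
          Nat.mul_le_mul_left _ (bnd_card_g hD S)
      _ = _ := by ring

lemma bnd_sub_g (E : List (T × T)) (S : Finset T) : S ⊆ bnd_g E S := by
  intro x hx
  unfold bnd_g
  rw [Finset.mem_biUnion]
  exact ⟨x, hx, Finset.mem_insert_self _ _⟩

lemma bnd_mono {E : List (T × T)} {S S' : Finset T} (h : S ⊆ S') : bnd_g E S ⊆ bnd_g E S' := by
  unfold bnd_g
  exact Finset.biUnion_subset_biUnion_of_subset_left _ h

lemma bnd_iter_mono {E : List (T × T)} {S S' : Finset T} (h : S ⊆ S') (n : ℕ) :
    (bnd_g E)^[n] S ⊆ (bnd_g E)^[n] S' := by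
  induction n generalizing S S' with
  | zero => exact h
  | succ n ih =>
    rw [iterate_succ_apply, iterate_succ_apply]
    exact ih (bnd_mono h)

lemma bnd_iter_le {E : List (T × T)} {S : Finset T} {n m : ℕ} (h : n ≤ m) :
    (bnd_g E)^[n] S ⊆ (bnd_g E)^[m] S := by
  obtain ⟨k, rfl⟩ := Nat.exists_eq_add_of_le h
  clear h
  induction k with
  | zero => exact Finset.Subset.refl _
  | succ k ih =>
    refine ih.trans ?_
    rw [← Nat.add_assoc, iterate_succ_apply']
    exact bnd_sub_g E _

lemma bnd_walk {E : List (T × T)} {n : ℕ} {H : SimpleGraph (Fin n)} {f : Fin n → T}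
    (hf : ∀ i j, H.Adj i j → ((f i, f j) ∈ E ∨ (f j, f i) ∈ E)) {i j : Fin n} (p : H.Walk i j)
    (S : Finset T) (hS : f i ∈ S) : f j ∈ (bnd_g E)^[p.length] S := by
  induction p generalizing S with
  | nil => simpa using hS
  | cons hadj p ih =>
    rw [SimpleGraph.Walk.length_cons, iterate_succ_apply]
    refine ih _ ?_
    unfold bnd_g
    rw [Finset.mem_biUnion]
    exact ⟨_, hS, Finset.mem_insert_of_mem (bnd_mem_nb (hf _ _ hadj))⟩

lemma bnd_tup_nodup {l : List T} (hl : l.Nodup) (k : ℕ) : (tup l k).Nodup := by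
  induction k with
  | zero => exact List.nodup_singleton _
  | succ k ih =>
    change (l.flatMap (fun a => (tup l k).map (fun t => a :: t))).Nodup
    rw [List.nodup_flatMap]
    refine ⟨fun a _ => ih.map (fun t t' h => (List.cons.inj h).2), ?_⟩
    refine hl.imp ?_
    intro a b hab
    rw [Function.onFun, List.disjoint_left]
    intro t h1 h2
    rw [List.mem_map] at h1 h2
    obtain ⟨t1, _, rfl⟩ := h1
    obtain ⟨t2, _, h3⟩ := h2
    exact hab (List.cons.inj h3).1.symm

end bnd

/-- [ND bnd] -/
theorem p_bnd : S_bnd := by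
  intro hcopy D H hconn T _ _ E hD v
  set n := H.1 with hn
  set B : Finset T := (bnd_g E)^[n] {v} with hB
  have hcard : B.card ≤ (D + 1) ^ n := by
    have h := bnd_card_iter hD n ({v} : Finset T)
    rwa [Finset.card_singleton, mul_one] at h
  have hnod : ((copies H E).filter (fun t => decide (v ∈ t))).Nodup := by
    unfold copies
    exact ((bnd_tup_nodup (nodup_ded _) _).filter _).filter _
  have hsub : ((copies H E).filter (fun t => decide (v ∈ t))).toFinset ⊆
      (Fintype.piFinset (fun _ : Fin n => B)).image List.ofFn := by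
    intro t ht
    rw [List.mem_toFinset, List.mem_filter] at ht
    obtain ⟨ht1, ht2⟩ := ht
    have hv : v ∈ t := of_decide_eq_true ht2
    obtain ⟨f, _, _, hadj, rfl⟩ := (hcopy T H E t).mp ht1
    obtain ⟨i, hi⟩ := (List.mem_ofFn' f v).mp hv
    rw [Finset.mem_image]
    refine ⟨f, ?_, rfl⟩
    rw [Fintype.mem_piFinset]
    intro j
    obtain ⟨p, hp⟩ := (hconn.preconnected i j).exists_isPath
    have h1 := bnd_walk (fun a b hab => (hadj a b).mp hab) p ({v} : Finset T)
      (by rw [Finset.mem_singleton]; exact hi)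
    have h2 : p.length ≤ n := by
      have := hp.length_lt
      rw [Fintype.card_fin] at this
      exact this.le
    exact bnd_iter_le h2 h1
  calc ((copies H E).filter (fun t => decide (v ∈ t))).length
      = ((copies H E).filter (fun t => decide (v ∈ t))).toFinset.card :=
        (List.toFinset_card_of_nodup hnod).symm
    _ ≤ ((Fintype.piFinset (fun _ : Fin n => B)).image List.ofFn).card :=
        Finset.card_le_card hsub
    _ ≤ (Fintype.piFinset (fun _ : Fin n => B)).card := Finset.card_image_le
    _ = B.card ^ n := by rw [Fintype.card_piFinset]; simp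
    _ ≤ ((D + 1) ^ n) ^ n := Nat.pow_le_pow_left hcard n

end Pool.Agent.Lib.MP_87d05f_lc.ND
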