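import Pool.Agent.Lib.MP_87d05f_lc.ND.Stm

set_option autoImplicit false

namespace Pool.Agent.Lib.MP_87d05f_lc.ND

open Pool.Agent.PolyTime Function Turing

lemma bru_pick (L : List (List Wd)) : ∀ l₀ : List Wd,
    pick l₀ L ∈ l₀ :: L ∧ ∀ l ∈ l₀ :: L, (pick l₀ L).length ≤ l.length := by
  induction L with
  | nil =>
    intro l₀
    refine ⟨by simp [pick], fun l hl => ?_⟩
    rw [List.mem_singleton] at hl
    rw [hl]; simp [pick]
  | cons m L ih =>
    intro l₀
    have e : pick l₀ (m :: L) = pick (bif decide (m.length < l₀.length) then m else l₀) L := rfl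
    rw [e]
    obtain ⟨h1, h2⟩ := ih (bif decide (m.length < l₀.length) then m else l₀)
    by_cases h : m.length < l₀.length
    · simp only [h, decide_true, cond_true] at h1 h2 ⊢
      refine ⟨?_, ?_⟩
      · exact List.mem_cons_of_mem _ h1
      · intro l hl
        rcases List.mem_cons.1 hl with h3 | h3
        · rw [h3]
          exact le_trans (h2 m (by simp)) h.le
        · exact h2 l h3
    · simp only [h, decide_false, cond_false] at h1 h2 ⊢
      refine ⟨?_, ?_⟩
      · rcases List.mem_cons.1 h1 with h3 | h3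
        · rw [h3]; simp
        · exact List.mem_cons_of_mem _ (List.mem_cons_of_mem _ h3)
      · intro l hl
        rcases List.mem_cons.1 hl with h3 | h3
        · rw [h3]; exact h2 l₀ (by simp)
        · rcases List.mem_cons.1 h3 with h4 | h4
          · rw [h4]
            exact le_trans (h2 l₀ (by simp)) (not_lt.1 h)
          · exact h2 l (List.mem_cons_of_mem _ h4)

lemma bru_mem_tup {T : Type} (l : List T) (k : ℕ) : ∀ t : List T,
    t ∈ tup l k ↔ t.length = k ∧ ∀ x ∈ t, x ∈ l := by
  induction k with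
  | zero =>
    intro t
    simp only [tup, List.mem_singleton, List.length_eq_zero_iff]
    constructor
    · rintro rfl; simp
    · rintro ⟨h, _⟩; exact h
  | succ k ih =>
    intro t
    simp only [tup, List.mem_flatMap, List.mem_map, ih]
    constructor
    · rintro ⟨a, ha, s, ⟨hs, hs2⟩, rfl⟩
      refine ⟨by simp [hs], ?_⟩
      intro x hx
      rcases List.mem_cons.1 hx with h | h
      · rw [h]; exact ha
      · exact hs2 x h
    · rintro ⟨h1, h2⟩
      cases t with
      | nil => simp at h1
      | cons a s =>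
        refine ⟨a, h2 a (by simp), s, ⟨by simpa using h1, fun x hx => h2 x (by simp [hx])⟩, rfl⟩

lemma bru_dsz (E : List (Wd × Wd)) (l : List Wd) (h : l.Nodup) (hm : ∀ v ∈ l, v ∈ ends E) :
    dsz E (fun v => decide (v ∈ l)) = l.length := by
  unfold dsz
  rw [← List.toFinset_card_of_nodup h]
  congr 1
  ext v
  rw [Finset.mem_filter, List.mem_toFinset, List.mem_toFinset, decide_eq_true_iff]
  exact ⟨fun h => h.2, fun h => ⟨hm v h, h⟩⟩

lemma bru_dsz_congr (E : List (Wd × Wd)) (l m : List Wd) (h : ∀ v, v ∈ l ↔ v ∈ m) :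
    dsz E (fun v => decide (v ∈ l)) = dsz E (fun v => decide (v ∈ m)) := by
  unfold dsz
  congr 1
  ext v
  rw [Finset.mem_filter, Finset.mem_filter, decide_eq_true_iff, decide_eq_true_iff, h]

theorem p_bru : S_bru := by
  intro hcopy hhit FL c E S hS hSm
  have hits : ∀ l : List Wd, hitsW FL E l = true ↔
      Sol {H | H ∈ FL} E (fun v => decide (v ∈ l)) := by
    intro l
    rw [hhit]
    unfold hitsW
    rw [List.all_eq_true]
    constructor
    · intro h t ht
      have := h t ht
      rw [List.any_eq_true] at this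
      exact this
    · intro h t ht
      rw [List.any_eq_true]
      exact h t ht
  set L : List (List Wd) := ((((List.range (c + 1)).flatMap
    (fun k => tup (ded (ends E)) k)).filter (hitsW FL E)).map ded) with hL
  have hdef : bruteW FL c E S = pick (ded S) L := rfl
  have hsolcongr : ∀ l m : List Wd, (∀ v, v ∈ l ↔ v ∈ m) →
      Sol {H | H ∈ FL} E (fun v => decide (v ∈ l)) →
      Sol {H | H ∈ FL} E (fun v => decide (v ∈ m)) := by
    intro l m h hl
    have e : (fun v => decide (v ∈ m)) = fun v => decide (v ∈ l) := by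
      funext v
      rw [Bool.eq_iff_iff, decide_eq_true_iff, decide_eq_true_iff, h]
    rw [e]; exact hl
  have hmem : ∀ l ∈ ded S :: L, l.Nodup ∧ (∀ v ∈ l, v ∈ ends E) ∧
      Sol {H | H ∈ FL} E (fun v => decide (v ∈ l)) := by
    intro l hl
    rcases List.mem_cons.1 hl with h | h
    · rw [h]
      refine ⟨nodup_ded _, fun v hv => hSm v (mem_ded.1 hv), ?_⟩
      exact hsolcongr S (ded S) (fun v => mem_ded.symm) hS
    · rw [hL, List.mem_map] at h
      obtain ⟨m, hm, rfl⟩ := h
      rw [List.mem_filter, List.mem_flatMap] at hm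
      obtain ⟨⟨k, _, hk⟩, hm2⟩ := hm
      rw [bru_mem_tup] at hk
      refine ⟨nodup_ded _, fun v hv => mem_ded.1 (hk.2 v (mem_ded.1 hv)), ?_⟩
      exact hsolcongr m (ded m) (fun v => mem_ded.symm) ((hits m).1 hm2)
  obtain ⟨hp1, hp2⟩ := bru_pick L (ded S)
  rw [← hdef] at hp1 hp2
  obtain ⟨hb1, hb2, hb3⟩ := hmem _ hp1
  have hlen := bru_dsz E _ hb1 hb2
  refine ⟨hb3, ?_, ?_⟩
  · rw [hlen]
    have h1 := bru_dsz E (ded S) (nodup_ded S) (fun v hv => hSm v (mem_ded.1 hv))
    have h2 := bru_dsz_congr E (ded S) S (fun v => mem_ded)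
    rw [← h2, h1]
    exact hp2 _ (by simp)
  · intro a ha hac
    rw [hlen]
    set m : List Wd := (ded (ends E)).filter (fun v => a v) with hm
    have hmn : m.Nodup := (nodup_ded _).filter _
    have hmm : ∀ v, v ∈ m ↔ v ∈ ends E ∧ a v = true := by
      intro v
      rw [hm, List.mem_filter, mem_ded]
    have hml : m.length = dsz E a := by
      rw [← List.toFinset_card_of_nodup hmn]
      unfold dsz
      congr 1
      ext v
      rw [Finset.mem_filter, List.mem_toFinset, List.mem_toFinset, hmm]
    have hmh : hitsW FL E m = true := by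
      unfold hitsW
      rw [List.all_eq_true]
      intro t ht
      rw [List.any_eq_true]
      obtain ⟨w, hw, haw⟩ := (hhit Wd FL E a).1 ha t ht
      refine ⟨w, hw, ?_⟩
      rw [decide_eq_true_iff, hmm]
      refine ⟨?_, haw⟩
      unfold cps at ht
      rw [List.mem_flatMap] at ht
      obtain ⟨H, _, ht⟩ := ht
      rw [hcopy] at ht
      obtain ⟨f, _, hf, _, rfl⟩ := ht
      rw [List.mem_ofFn] at hw
      obtain ⟨i, rfl⟩ := hw
      exact hf i
    have hmL : ded m ∈ L := by
      rw [hL, List.mem_map]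
      refine ⟨m, ?_, rfl⟩
      rw [List.mem_filter, List.mem_flatMap]
      refine ⟨⟨m.length, ?_, ?_⟩, hmh⟩
      · rw [List.mem_range, hml]; omega
      · rw [bru_mem_tup]
        refine ⟨rfl, fun v hv => mem_ded.2 ((hmm v).1 hv).1⟩
    have h3 := hp2 (ded m) (List.mem_cons_of_mem _ hmL)
    rw [ded_length, List.toFinset_card_of_nodup hmn, hml] at h3
    exact h3

end Pool.Agent.Lib.MP_87d05f_lc.ND
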