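import Pool.Agent.Lib.MP_87d05f_lc.ND.Stm

set_option autoImplicit false

/-!
# Vertex deletion: choice of components
-/

namespace Pool.Agent.Lib.MP_87d05f_lc.ND

open Pool.Agent.PolyTime Function Turing

theorem cho_count (E : List (ℕ × ℕ)) (v : ℕ) : (ends E).count v =
    E.countP (fun e => decide (e.1 = v)) + E.countP (fun e => decide (e.2 = v)) := by
  induction E with
  | nil => rfl
  | cons e E ih =>
    unfold ends at ih ⊢
    rw [List.flatMap_cons, List.count_append, ih, List.countP_cons, List.countP_cons]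
    simp only [List.count_cons, List.count_nil, beq_iff_eq, decide_eq_true_eq]
    omega

/-- the closed neighbourhood of a vertex -/
theorem cho_nbr {E : List (ℕ × ℕ)} {D : ℕ} (hD : ∀ v, (ends E).count v ≤ D) (v : ℕ) :
    ∃ N : Finset ℕ, N.card ≤ D + 1 ∧ v ∈ N ∧ ∀ w, adjL E v w → w ∈ N := by
  refine ⟨insert v (((E.filter (fun e => decide (e.1 = v))).map Prod.snd ++
    (E.filter (fun e => decide (e.2 = v))).map Prod.fst).toFinset), ?_, Finset.mem_insert_self _ _,
    ?_⟩
  · refine (Finset.card_insert_le _ _).trans (Nat.add_le_add_right ?_ 1)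
    refine (List.toFinset_card_le _).trans ?_
    rw [List.length_append, List.length_map, List.length_map, ← List.countP_eq_length_filter,
      ← List.countP_eq_length_filter, ← cho_count]
    exact hD v
  · intro w hw
    refine Finset.mem_insert_of_mem (List.mem_toFinset.2 ?_)
    rw [List.mem_append]
    rcases hw with hw | hw
    · exact Or.inl (List.mem_map.2 ⟨(v, w), List.mem_filter.2 ⟨hw, by simp⟩, rfl⟩)
    · exact Or.inr (List.mem_map.2 ⟨(w, v), List.mem_filter.2 ⟨hw, by simp⟩, rfl⟩)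

/-- the closed neighbourhood of a set -/
theorem cho_clN {E : List (ℕ × ℕ)} {D : ℕ} (hD : ∀ v, (ends E).count v ≤ D) (X : Finset ℕ) :
    ∃ N : Finset ℕ, N.card ≤ X.card * (D + 1) ∧ ∀ v ∈ X, v ∈ N ∧ ∀ w, adjL E v w → w ∈ N := by
  choose N h1 h2 h3 using cho_nbr hD
  refine ⟨X.biUnion N, Finset.card_biUnion_le_card_mul _ _ _ fun v _ => h1 v, fun v hv => ⟨?_, ?_⟩⟩
  · exact Finset.mem_biUnion.2 ⟨v, hv, h2 v⟩
  · intro w hw
    exact Finset.mem_biUnion.2 ⟨v, hv, h3 v w hw⟩

theorem cho_adj_symm {E : List (ℕ × ℕ)} {v w : ℕ} (h : adjL E v w) : adjL E w v := h.symm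

theorem cho_two {F : FG} {L : List FG}
    (hL : ∀ C : F.2.ConnectedComponent, ∃ H ∈ L, Nonempty (F.2.induce C.supp ≃g H.2))
    {E : List (ℕ × ℕ)} {D : ℕ} (hD : ∀ v, (ends E).count v ≤ D) {a : ℕ → Bool}
    (h : ¬ Has E a F) : ∃ H ∈ L, ∃ S : Finset ℕ, S.card ≤ F.1 * (D + 1) ∧
      ¬ Has E (fun v => a v || decide (v ∈ S)) H := by
  classical
  by_contra hcon
  push Not at hcon
  refine h ?_
  have key : ∀ K : Finset F.2.ConnectedComponent, ∃ f : Fin F.1 → ℕ,
      (∀ x, F.2.connectedComponentMk x ∈ K → f x ∈ ends E ∧ a (f x) = false) ∧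
      (∀ x y, F.2.connectedComponentMk x ∈ K → F.2.connectedComponentMk y ∈ K →
        (f x = f y → x = y) ∧ (F.2.Adj x y ↔ adjL E (f x) (f y))) := by
    intro K
    induction K using Finset.induction_on with
    | empty => exact ⟨fun _ => 0, fun x hx => by simp at hx, fun x y hx => by simp at hx⟩
    | insert C K hC ih =>
      obtain ⟨f, f1, f2⟩ := ih
      obtain ⟨N, hN, hN'⟩ := cho_clN hD ((Finset.univ.filter
        (fun x : Fin F.1 => F.2.connectedComponentMk x ∈ K)).image f)
      obtain ⟨H, hH, ⟨φ⟩⟩ := hL C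
      have hcard : N.card ≤ F.1 * (D + 1) := by
        refine hN.trans (Nat.mul_le_mul_right _ ?_)
        refine Finset.card_image_le.trans ((Finset.card_filter_le _ _).trans ?_)
        simp
      obtain ⟨g, g1, g2, g3⟩ := hcon H hH N hcard
      have hmem : ∀ {x : Fin F.1}, F.2.connectedComponentMk x ∈ K → f x ∈ N ∧
          ∀ w, adjL E (f x) w → w ∈ N := by
        intro x hx
        exact hN' (f x) (Finset.mem_image.2 ⟨x, Finset.mem_filter.2 ⟨Finset.mem_univ _, hx⟩, rfl⟩)
      have hg : ∀ z, g z ∈ ends E ∧ a (g z) = false ∧ g z ∉ N := by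
        intro z
        have h1 := (g2 z).2
        rw [Bool.or_eq_false_iff, decide_eq_false_iff_not] at h1
        exact ⟨(g2 z).1, h1.1, h1.2⟩
      have hsup : ∀ {x : Fin F.1}, F.2.connectedComponentMk x = C → x ∈ C.supp := fun hx => hx
      refine ⟨fun x => if hx : F.2.connectedComponentMk x = C then g (φ ⟨x, hsup hx⟩) else f x,
        ?_, ?_⟩
      · intro x hx
        by_cases hxC : F.2.connectedComponentMk x = C
        · simp only [dif_pos hxC]
          exact ⟨(hg _).1, (hg _).2.1⟩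
        · simp only [dif_neg hxC]
          rcases Finset.mem_insert.1 hx with hx | hx
          · exact absurd hx hxC
          · exact f1 x hx
      · intro x y hx hy
        by_cases hxC : F.2.connectedComponentMk x = C
        · by_cases hyC : F.2.connectedComponentMk y = C
          · simp only [dif_pos hxC, dif_pos hyC]
            constructor
            · intro he
              have h1 := φ.injective (g1 he)
              exact congrArg Subtype.val h1
            · have h1 : (F.2.induce C.supp).Adj ⟨x, hsup hxC⟩ ⟨y, hsup hyC⟩ ↔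
                  H.2.Adj (φ ⟨x, hsup hxC⟩) (φ ⟨y, hsup hyC⟩) := φ.map_rel_iff.symm
              exact h1.trans (g3 _ _)
          · have hy' : F.2.connectedComponentMk y ∈ K := by
              rcases Finset.mem_insert.1 hy with hy | hy
              · exact absurd hy hyC
              · exact hy
            simp only [dif_pos hxC, dif_neg hyC]
            refine ⟨fun he => absurd ((hmem hy').1) (he ▸ (hg _).2.2), ⟨fun hadj => ?_, fun hadj => ?_⟩⟩
            · exact absurd ((SimpleGraph.ConnectedComponent.connectedComponentMk_eq_of_adj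
                hadj).symm.trans hxC) hyC
            · exact absurd ((hmem hy').2 _ (cho_adj_symm hadj)) (hg _).2.2
        · have hx' : F.2.connectedComponentMk x ∈ K := by
            rcases Finset.mem_insert.1 hx with hx | hx
            · exact absurd hx hxC
            · exact hx
          by_cases hyC : F.2.connectedComponentMk y = C
          · simp only [dif_neg hxC, dif_pos hyC]
            refine ⟨fun he => absurd ((hmem hx').1) (he ▸ (hg _).2.2), ⟨fun hadj => ?_, fun hadj => ?_⟩⟩
            · exact absurd ((SimpleGraph.ConnectedComponent.connectedComponentMk_eq_of_adj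
                hadj).trans hyC) hxC
            · exact absurd ((hmem hx').2 _ hadj) (hg _).2.2
          · have hy' : F.2.connectedComponentMk y ∈ K := by
              rcases Finset.mem_insert.1 hy with hy | hy
              · exact absurd hy hyC
              · exact hy
            simp only [dif_neg hxC, dif_neg hyC]
            exact f2 x y hx' hy'
  have hfin : Finite F.2.ConnectedComponent := inferInstance
  have := Fintype.ofFinite F.2.ConnectedComponent
  obtain ⟨f, f1, f2⟩ := key Finset.univ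
  exact ⟨f, fun x y hxy => (f2 x y (Finset.mem_univ _) (Finset.mem_univ _)).1 hxy,
    fun i => f1 i (Finset.mem_univ _), fun i j => (f2 i j (Finset.mem_univ _)
      (Finset.mem_univ _)).2⟩

theorem cho_mono {E : List (ℕ × ℕ)} {a a' : ℕ → Bool} (h : ∀ v, a v = true → a' v = true)
    {H : FG} (hH : ¬ Has E a H) : ¬ Has E a' H := by
  rintro ⟨f, h1, h2, h3⟩
  refine hH ⟨f, h1, fun i => ⟨(h2 i).1, ?_⟩, h3⟩
  by_contra hc
  rw [Bool.not_eq_false] at hc
  have := h _ hc
  rw [(h2 i).2] at this
  exact absurd this (by simp)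

theorem cho_main (hcmp : R_cmp) (FL : List FG) (hFL : ∀ H ∈ FL, 1 ≤ H.1) :
    ∃ Φ : List (List FG), Φ ≠ [] ∧ (∀ G ∈ Φ, ∀ H ∈ G, H.2.Connected) ∧
    (∀ (E : List (ℕ × ℕ)) (a : ℕ → Bool), (∃ G ∈ Φ, ∀ H ∈ G, ¬ Has E a H) →
      ∀ H ∈ FL, ¬ Has E a H) ∧
    ∀ D : ℕ, ∃ c₀ : ℕ, ∀ E : List (ℕ × ℕ), (∀ v, (ends E).count v ≤ D) → ∀ a : ℕ → Bool,
      (∀ H ∈ FL, ¬ Has E a H) → ∃ G ∈ Φ, ∃ S : Finset ℕ, S.card ≤ c₀ ∧
        ∀ H ∈ G, ¬ Has E (fun v => a v || decide (v ∈ S)) H := by
  classical
  induction FL with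
  | nil =>
    refine ⟨[[]], by simp, by simp, by simp, fun D => ⟨0, fun E _ a _ => ⟨[], by simp, ∅, ?_⟩⟩⟩
    simp
  | cons F FL ih =>
    obtain ⟨Φ, p1, p2, p3, p4⟩ := ih (fun H hH => hFL H (List.mem_cons_of_mem _ hH))
    obtain ⟨L, l1, l2⟩ := hcmp (Fin F.1) F.2
    have hF := hFL F List.mem_cons_self
    have hLne : L ≠ [] := by
      rintro rfl
      obtain ⟨H, hH, _⟩ := l2 (F.2.connectedComponentMk ⟨0, hF⟩)
      simp at hH
    refine ⟨L.flatMap (fun H => Φ.map (fun G => H :: G)), ?_, ?_, ?_, ?_⟩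
    · obtain ⟨H, hH⟩ := List.exists_mem_of_ne_nil L hLne
      obtain ⟨G, hG⟩ := List.exists_mem_of_ne_nil Φ p1
      have : H :: G ∈ L.flatMap (fun H => Φ.map (fun G => H :: G)) :=
        List.mem_flatMap.2 ⟨H, hH, List.mem_map.2 ⟨G, hG, rfl⟩⟩
      exact List.ne_nil_of_mem this
    · intro G' hG' H hH
      obtain ⟨H0, hH0, hG1⟩ := List.mem_flatMap.1 hG'
      obtain ⟨G, hG, rfl⟩ := List.mem_map.1 hG1
      rcases List.mem_cons.1 hH with rfl | hH
      · exact (l1 _ hH0).1
      · exact p2 G hG H hH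
    · rintro E a ⟨G', hG', hs⟩ H hH
      obtain ⟨H0, hH0, hG1⟩ := List.mem_flatMap.1 hG'
      obtain ⟨G, hG, rfl⟩ := List.mem_map.1 hG1
      rcases List.mem_cons.1 hH with rfl | hH
      · rintro ⟨f, f1, f2, f3⟩
        obtain ⟨C, ⟨φ⟩⟩ := (l1 _ hH0).2
        refine hs H0 List.mem_cons_self ⟨fun i => f (φ i).1, ?_, fun i => f2 _, fun i j => ?_⟩
        · intro i j hij
          exact φ.injective (Subtype.ext (f1 hij))
        · rw [← f3]
          exact φ.map_rel_iff.symm
      · exact p3 E a ⟨G, hG, fun H' hH' => hs H' (List.mem_cons_of_mem _ hH')⟩ H hH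
    · intro D
      obtain ⟨c₀, hc⟩ := p4 D
      refine ⟨F.1 * (D + 1) + c₀, fun E hD a ha => ?_⟩
      obtain ⟨H0, hH0, S1, s1, s2⟩ := cho_two l2 hD (ha F List.mem_cons_self)
      obtain ⟨G, hG, S2, t1, t2⟩ := hc E hD a (fun H hH => ha H (List.mem_cons_of_mem _ hH))
      refine ⟨H0 :: G, List.mem_flatMap.2 ⟨H0, hH0, List.mem_map.2 ⟨G, hG, rfl⟩⟩, S1 ∪ S2,
        (Finset.card_union_le _ _).trans (by omega), ?_⟩
      intro H hH
      rcases List.mem_cons.1 hH with rfl | hH
      · refine cho_mono (fun v hv => ?_) s2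
        simp only [Bool.or_eq_true, decide_eq_true_eq, Finset.mem_union] at hv ⊢
        tauto
      · refine cho_mono (fun v hv => ?_) (t2 H hH)
        simp only [Bool.or_eq_true, decide_eq_true_eq, Finset.mem_union] at hv ⊢
        tauto

theorem p_cho : S_cho := by
  classical
  intro hcmp FL hFL
  obtain ⟨Φ, p1, p2, p3, p4⟩ := cho_main hcmp FL hFL
  refine ⟨Φ, p1, p2, fun E a h => p3 E a h, fun D => ?_⟩
  obtain ⟨c₀, hc⟩ := p4 D
  refine ⟨c₀, fun E hD a ha => ?_⟩
  obtain ⟨G, hG, S, s1, s2⟩ := hc E hD a ha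
  refine ⟨G, hG, fun v => a v || decide (v ∈ S), s2, ?_⟩
  unfold dsz
  have hsub : (ends E).toFinset.filter (fun v => (a v || decide (v ∈ S)) = true) ⊆
      (ends E).toFinset.filter (fun v => a v = true) ∪ S := by
    intro v hv
    rw [Finset.mem_filter, Bool.or_eq_true, decide_eq_true_eq] at hv
    rw [Finset.mem_union, Finset.mem_filter]
    tauto
  refine (Finset.card_le_card hsub).trans ((Finset.card_union_le _ _).trans ?_)
  omega

end Pool.Agent.Lib.MP_87d05f_lc.ND
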