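import Pool.Agent.Lib.MP_87d05f_lc.ND.Stm

set_option autoImplicit false

/-!
# [ND clen] bounds for the number of constraints
-/

namespace Pool.Agent.Lib.MP_87d05f_lc.ND

open Function

section clen

variable {T : Type} [DecidableEq T]

/-- if every list in `L` meets the finset `S` and every element of `S` is in at most `c` of them,
then there are at most `c * #S` lists -/
lemma clen_count (S : Finset T) (L : List (List T)) (h : ∀ t ∈ L, ∃ v ∈ S, v ∈ t) :
    L.length ≤ ∑ v ∈ S, (L.filter (fun t => decide (v ∈ t))).length := by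
  induction L with
  | nil => simp
  | cons t L ih =>
    have ih' := ih (fun t ht => h t (List.mem_cons_of_mem _ ht))
    obtain ⟨v₀, hv₀, hvt⟩ := h t List.mem_cons_self
    have h1 : ∀ v, ((t :: L).filter (fun t => decide (v ∈ t))).length =
        (if v ∈ t then 1 else 0) + (L.filter (fun t => decide (v ∈ t))).length := by
      intro v
      by_cases hv : v ∈ t
      · rw [List.filter_cons_of_pos (by simpa using hv), List.length_cons, if_pos hv, add_comm]
      · rw [List.filter_cons_of_neg (by simpa using hv), if_neg hv, zero_add]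
    have h2 : 1 ≤ ∑ v ∈ S, (if v ∈ t then 1 else 0 : ℕ) := by
      calc 1 = (if v₀ ∈ t then 1 else 0 : ℕ) := by rw [if_pos hvt]
        _ ≤ _ := Finset.single_le_sum (f := fun v => (if v ∈ t then 1 else 0 : ℕ))
            (fun v _ => Nat.zero_le _) hv₀
    rw [Finset.sum_congr rfl fun v _ => h1 v, Finset.sum_add_distrib, List.length_cons]
    omega

lemma clen_count' {S : Finset T} {L : List (List T)} {c : ℕ} (h : ∀ t ∈ L, ∃ v ∈ S, v ∈ t)
    (hc : ∀ v, (L.filter (fun t => decide (v ∈ t))).length ≤ c) : L.length ≤ c * S.card := by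
  refine (clen_count S L h).trans ((Finset.sum_le_card_nsmul S _ c fun v _ => hc v).trans ?_)
  rw [smul_eq_mul, mul_comm]

lemma clen_tup (l : List T) (k : ℕ) (t : List T) (ht : t ∈ tup l k) :
    t.length = k ∧ ∀ x ∈ t, x ∈ l := by
  induction k generalizing t with
  | zero =>
    have h1 : t = [] := by simpa [tup] using ht
    subst h1
    simp
  | succ k ih =>
    unfold tup at ht
    rw [List.mem_flatMap] at ht
    obtain ⟨a, ha, ht⟩ := ht
    rw [List.mem_map] at ht
    obtain ⟨t', ht', rfl⟩ := ht
    obtain ⟨h1, h2⟩ := ih t' ht'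
    refine ⟨by rw [List.length_cons, h1], fun x hx => ?_⟩
    rcases List.mem_cons.1 hx with rfl | hx
    · exact ha
    · exact h2 x hx

end clen

section

variable {T : Type} [DecidableEq T] [Inhabited T]

lemma clen_copies {H : FG} {E : List (T × T)} {t : List T} (ht : t ∈ copies H E) :
    t.length = H.1 ∧ ∀ x ∈ t, x ∈ ends E := by
  unfold copies at ht
  rw [List.mem_filter] at ht
  obtain ⟨h1, h2⟩ := clen_tup _ _ _ ht.1
  exact ⟨h1, fun x hx => mem_ded.1 (h2 x hx)⟩

lemma clen_cps {G : List FG} {E : List (T × T)} {t : List T} (ht : t ∈ cps G E)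
    (hG : ∀ H ∈ G, H.2.Connected) :
    t.length ≤ (G.map (fun H => H.1)).sum ∧ (∃ v, v ∈ t) ∧ ∀ v ∈ t, v ∈ ends E := by
  unfold cps at ht
  rw [List.mem_flatMap] at ht
  obtain ⟨H, hH, ht⟩ := ht
  obtain ⟨h1, h2⟩ := clen_copies ht
  refine ⟨?_, ?_, h2⟩
  · rw [h1]
    exact List.single_le_sum (fun x _ => Nat.zero_le x) _ (List.mem_map.2 ⟨H, hH, rfl⟩)
  · obtain ⟨⟨v, hv⟩⟩ := (hG H hH).nonempty
    refine List.exists_mem_of_length_pos ?_
    omega

lemma clen_cps_filter {D : ℕ} (hbnd : R_bnd) {G : List FG} {E : List (T × T)}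
    (hG : ∀ H ∈ G, H.2.Connected) (hD : ∀ v, (ends E).count v ≤ D) (v : T) :
    ((cps G E).filter (fun t => decide (v ∈ t))).length ≤
      (G.map (fun H => ((D + 1) ^ H.1) ^ H.1)).sum := by
  induction G with
  | nil => simp [cps]
  | cons H G ih =>
    have h1 : cps (H :: G) E = copies H E ++ cps G E := by
      unfold cps
      rw [List.flatMap_cons]
    rw [h1, List.filter_append, List.length_append, List.map_cons, List.sum_cons]
    exact Nat.add_le_add (hbnd D H (hG H List.mem_cons_self) T E hD v)
      (ih (fun H' hH' => hG H' (List.mem_cons_of_mem _ hH')))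

lemma clen_flatten {L : List (List T)} {M : ℕ} (h : ∀ t ∈ L, t.length ≤ M) :
    L.flatten.length ≤ M * L.length := by
  induction L with
  | nil => simp
  | cons t L ih =>
    rw [List.flatten_cons, List.length_append, List.length_cons, Nat.mul_add, Nat.mul_one]
    have h1 := h t List.mem_cons_self
    have h2 := ih (fun t ht => h t (List.mem_cons_of_mem _ ht))
    omega

lemma clen_cons (G : List FG) (E : List (T × T)) :
    (cons G E).length = (ded (cps G E).flatten).length + (cps G E).length := by
  unfold cons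
  rw [List.length_append, List.length_map, List.length_map]

end

theorem p_clen : S_clen := by
  intro hhit hbnd D G hG
  set c := (G.map (fun H => ((D + 1) ^ H.1) ^ H.1)).sum with hc
  set M := (G.map (fun H => H.1)).sum with hM
  refine ⟨(1 + c) + (M + 1) * c, ?_⟩
  intro T _ _ E hD
  have hfil := clen_cps_filter hbnd hG hD
  refine ⟨?_, fun a ha => ?_⟩
  · have h1 : (cps G E).length ≤ c * nv E := by
      refine clen_count' (S := (ends E).toFinset) (fun t ht => ?_) hfil
      obtain ⟨-, ⟨v, hv⟩, h3⟩ := clen_cps ht hG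
      exact ⟨v, List.mem_toFinset.2 (h3 v hv), hv⟩
    have h2 : (ded (cps G E).flatten).length ≤ nv E := by
      rw [ded_length]
      unfold nv
      refine Finset.card_le_card fun v hv => ?_
      rw [List.mem_toFinset, List.mem_flatten] at hv
      obtain ⟨t, ht, hvt⟩ := hv
      exact List.mem_toFinset.2 ((clen_cps ht hG).2.2 v hvt)
    rw [clen_cons]
    calc _ ≤ nv E + c * nv E := Nat.add_le_add h2 h1
      _ = (1 + c) * nv E := by ring
      _ ≤ _ := Nat.mul_le_mul_right _ (Nat.le_add_right _ _)
  · have h1 : (cps G E).length ≤ c * dsz E a := by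
      refine clen_count' (S := (ends E).toFinset.filter (fun v => a v = true)) (fun t ht => ?_)
        hfil
      obtain ⟨w, hw, haw⟩ := (hhit T G E a).1 ha t ht
      exact ⟨w, Finset.mem_filter.2 ⟨List.mem_toFinset.2 ((clen_cps ht hG).2.2 w hw), haw⟩, hw⟩
    have h2 : (ded (cps G E).flatten).length ≤ M * (cps G E).length := by
      rw [ded_length]
      exact (List.toFinset_card_le _).trans (clen_flatten fun t ht => (clen_cps ht hG).1)
    rw [clen_cons]
    calc _ ≤ M * (cps G E).length + (cps G E).length := Nat.add_le_add_right h2 _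
      _ = (M + 1) * (cps G E).length := by ring
      _ ≤ (M + 1) * (c * dsz E a) := Nat.mul_le_mul_left _ h1
      _ = ((M + 1) * c) * dsz E a := by ring
      _ ≤ _ := Nat.mul_le_mul_right _ (Nat.le_add_left _ _)

end Pool.Agent.Lib.MP_87d05f_lc.ND
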