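import Pool.Agent.Lib.MP_87d05f_lc.ND.Stm

set_option autoImplicit false

/-!
# The conflict graph of a formula: asymmetry, degrees, number of edges
-/

namespace Pool.Agent.Lib.MP_87d05f_lc.ND

open Pool.Agent.PolyTime Function Turing

section lists

private theorem conf_or {α : Type} (P Q R : α → Bool) (h : ∀ x, P x = true → Q x = true ∨ R x = true)
    (l : List α) : l.countP P ≤ l.countP Q + l.countP R := by
  induction l with
  | nil => simp
  | cons x l ih =>
    rw [List.countP_cons, List.countP_cons, List.countP_cons]
    by_cases hx : P x = true
    · rcases h x hx with h1 | h1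
      · rw [if_pos hx, if_pos h1]; omega
      · rw [if_pos hx, if_pos h1]; omega
    · rw [if_neg hx]; omega

private theorem conf_single {α β : Type} [DecidableEq β] (f : α → β) (v : β) (h : α → ℕ) (B : ℕ) :
    ∀ l : List α, (l.map f).Nodup → (∀ x ∈ l, h x ≤ B) →
      (l.map (fun x => if f x = v then h x else 0)).sum ≤ B ∧
      (v ∉ l.map f → (l.map (fun x => if f x = v then h x else 0)).sum = 0) := by
  intro l
  induction l with
  | nil => intro _ _; simp
  | cons x l ih =>
    intro hn hB
    rw [List.map_cons, List.nodup_cons] at hn
    obtain ⟨h1, h2⟩ := ih hn.2 (fun y hy => hB y (List.mem_cons_of_mem _ hy))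
    rw [List.map_cons, List.sum_cons]
    refine ⟨?_, ?_⟩
    · by_cases hx : f x = v
      · rw [if_pos hx, h2 (by rw [← hx]; exact hn.1), add_zero]
        exact hB x List.mem_cons_self
      · rw [if_neg hx, zero_add]
        exact h1
    · intro hv
      rw [List.map_cons, List.mem_cons, not_or] at hv
      rw [if_neg (fun h => hv.1 h.symm), zero_add]
      exact h2 hv.2

private theorem conf_swap {α β : Type} (R : α → β → Bool) (S : β → Bool) (M : List β) :
    ∀ l : List α, (l.map (fun p => M.countP (fun q => R p q && S q))).sum =
      (M.map (fun q => if S q = true then l.countP (fun p => R p q) else 0)).sum := by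
  intro l
  induction l with
  | nil =>
    simp
  | cons p l ih =>
    rw [List.map_cons, List.sum_cons, ih]
    have h1 : ∀ N : List β, N.countP (fun q => R p q && S q) +
        (N.map (fun q => if S q = true then l.countP (fun p => R p q) else 0)).sum =
        (N.map (fun q => if S q = true then (p :: l).countP (fun p => R p q) else 0)).sum := by
      intro N
      induction N with
      | nil => simp
      | cons q N ihN =>
        rw [List.map_cons, List.map_cons, List.sum_cons, List.sum_cons, ← ihN, List.countP_cons,
          List.countP_cons]
        by_cases hS : S q = true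
        · by_cases hR : R p q = true
          · simp only [hS, hR, Bool.and_self, if_true]
            omega
          · simp only [hS, hR, Bool.and_true, if_true]
            simp
            omega
        · simp only [hS, Bool.and_false]
          simp
    exact h1 M

end lists

section main

variable {W : Type} [DecidableEq W]

/-- the literals of a formula with the numbers of the clauses starting at `n` -/
private def conf_L (n : ℕ) (G : List (List (Lit W))) : List ((ℕ × ℕ) × Lit W) :=
  (G.zipIdx n).flatMap (fun p => p.1.zipIdx.map (fun q => ((p.2, q.2), q.1)))

private theorem conf_L_cons (n : ℕ) (c : List (Lit W)) (G : List (List (Lit W))) :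
    conf_L n (c :: G) = c.zipIdx.map (fun q => ((n, q.2), q.1)) ++ conf_L (n + 1) G := by
  rw [conf_L, List.zipIdx_cons, List.flatMap_cons]
  rfl

private theorem conf_ge (G : List (List (Lit W))) : ∀ n, ∀ p ∈ conf_L n G, n ≤ p.1.1 := by
  induction G with
  | nil => intro n p hp; simp [conf_L] at hp
  | cons c G ih =>
    intro n p hp
    rw [conf_L_cons, List.mem_append] at hp
    rcases hp with hp | hp
    · obtain ⟨q, _, rfl⟩ := List.mem_map.1 hp
      exact le_rfl
    · exact (Nat.le_succ n).trans (ih (n + 1) p hp)

private theorem conf_nodup (G : List (List (Lit W))) :
    ∀ n, ((conf_L n G).map Prod.fst).Nodup := by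
  induction G with
  | nil => intro n; simp [conf_L]
  | cons c G ih =>
    intro n
    rw [conf_L_cons, List.map_append, List.nodup_append]
    refine ⟨?_, ih (n + 1), ?_⟩
    · have h1 : (List.map Prod.fst (c.zipIdx.map (fun q => ((n, q.2), q.1)))) =
          (c.zipIdx.map Prod.snd).map (fun j => (n, j)) := by
        rw [List.map_map, List.map_map]
        rfl
      rw [h1]
      apply List.Nodup.map
      · intro a b hab
        exact (Prod.mk.inj hab).2
      · rw [List.zipIdx_map_snd]
        exact List.nodup_range'
    · intro x hx y hy hxy
      subst hxy
      obtain ⟨p, hp, rfl⟩ := List.mem_map.1 hx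
      obtain ⟨q, _, rfl⟩ := List.mem_map.1 hp
      obtain ⟨r, hr, h2⟩ := List.mem_map.1 hy
      have h3 := conf_ge G (n + 1) r hr
      rw [h2] at h3
      simp at h3

private theorem conf_clause (G : List (List (Lit W))) (hG : ∀ c ∈ G, c.length ≤ 3) (i : ℕ) :
    ∀ n, (conf_L n G).countP (fun q => decide (q.1.1 = i)) ≤ 3 ∧
      (i < n → (conf_L n G).countP (fun q => decide (q.1.1 = i)) = 0) := by
  induction G with
  | nil => intro n; simp [conf_L]
  | cons c G ih =>
    intro n
    obtain ⟨h1, h2⟩ := ih (fun c hc => hG c (List.mem_cons_of_mem _ hc)) (n + 1)
    rw [conf_L_cons, List.countP_append, List.countP_map]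
    by_cases hn : n = i
    · refine ⟨?_, fun h => by omega⟩
      rw [h2 (by omega), add_zero]
      refine List.countP_le_length.trans ?_
      rw [List.length_zipIdx]
      exact hG c List.mem_cons_self
    · have h3 : c.zipIdx.countP ((fun q : (ℕ × ℕ) × Lit W => decide (q.1.1 = i)) ∘
          (fun q => ((n, q.2), q.1))) = 0 := by
        rw [List.countP_eq_zero]
        intro q _
        simpa using hn
      rw [h3, zero_add]
      exact ⟨h1, fun h => h2 (by omega)⟩

private theorem conf_vlist (G : List (List (Lit W))) :
    ∀ n, (conf_L n G).map (fun q => q.2.2) = vlist G := by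
  induction G with
  | nil => intro n; simp [conf_L, vlist]
  | cons c G ih =>
    intro n
    rw [conf_L_cons, List.map_append, ih (n + 1), List.map_map]
    have h1 : c.zipIdx.map ((fun q : (ℕ × ℕ) × Lit W => q.2.2) ∘ (fun q => ((n, q.2), q.1))) =
        (c.zipIdx.map Prod.fst).map Prod.snd := by
      rw [List.map_map]
      rfl
    rw [h1, List.zipIdx_map_fst, vlist, vlist, List.flatten_cons, List.map_append]

private theorem conf_var (G : List (List (Lit W))) (hG : ∀ w, (vlist G).count w ≤ 3) (w : W) :
    (lits G).countP (fun q => decide (q.2.2 = w)) ≤ 3 := by
  have h1 := hG w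
  rw [← conf_vlist G 0, List.count, List.countP_map] at h1
  refine le_trans (le_of_eq ?_) h1
  apply List.countP_congr
  intro q _
  simp

private theorem conf_len (G : List (List (Lit W))) (hG : ∀ c ∈ G, c.length ≤ 3) :
    ∀ n, (conf_L n G).length ≤ 3 * G.length := by
  induction G with
  | nil => intro n; simp [conf_L]
  | cons c G ih =>
    intro n
    have h1 := ih (fun c hc => hG c (List.mem_cons_of_mem _ hc)) (n + 1)
    have h2 := hG c List.mem_cons_self
    rw [conf_L_cons, List.length_append, List.length_map, List.length_zipIdx, List.length_cons]
    omega

theorem p_conf : S_conf := by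
  intro W _ G
  refine ⟨?_, ?_⟩
  · have key : ∀ u v, (u, v) ∈ confE G → bfr u v = true := by
      intro u v h
      rw [confE, List.mem_flatMap] at h
      obtain ⟨p, _, h⟩ := h
      obtain ⟨q, hq, h⟩ := List.mem_map.1 h
      have h1 := (List.mem_filter.1 hq).2
      rw [cfl, Bool.and_eq_true] at h1
      rw [← (Prod.mk.inj h).1, ← (Prod.mk.inj h).2]
      exact h1.1
    intro u v h h'
    have h1 := key u v h
    have h2 := key v u h'
    simp only [bfr, Bool.or_eq_true, Bool.and_eq_true, decide_eq_true_eq] at h1 h2
    omega
  · intro hG hV
    have hnd : ((lits G).map Prod.fst).Nodup := conf_nodup G 0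
    have hcl : ∀ i, (lits G).countP (fun q => decide (q.1.1 = i)) ≤ 3 := fun i =>
      (conf_clause G hG i 0).1
    have hvar := conf_var G hV
    have hR : ∀ p, (lits G).countP (fun q => cfl p q) ≤ 6 := by
      intro p
      have h1 := conf_or (fun q => cfl p q) (fun q => decide (q.1.1 = p.1.1))
        (fun q => decide (q.2.2 = p.2.2)) (by
          intro q hq
          simp only [cfl, Bool.or_eq_true, Bool.and_eq_true, decide_eq_true_eq] at hq ⊢
          rcases hq.2 with h | h
          · exact Or.inl h.symm
          · exact Or.inr h.1.symm) (lits G)
      have h2 := hcl p.1.1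
      have h3 := hvar p.2.2
      omega
    have hL : ∀ q, (lits G).countP (fun p => cfl p q) ≤ 6 := by
      intro q
      have h1 := conf_or (fun p => cfl p q) (fun p => decide (p.1.1 = q.1.1))
        (fun p => decide (p.2.2 = q.2.2)) (by
          intro p hp
          simp only [cfl, Bool.or_eq_true, Bool.and_eq_true, decide_eq_true_eq] at hp ⊢
          rcases hp.2 with h | h
          · exact Or.inl h
          · exact Or.inr h.1) (lits G)
      have h2 := hcl q.1.1
      have h3 := hvar q.2.2
      omega
    refine ⟨fun v => ?_, ?_⟩
    · have h0 : (ends (confE G)).count v =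
          (confE G).countP (fun e => decide (e.1 = v)) +
          (confE G).countP (fun e => decide (e.2 = v)) := by
        generalize confE G = E
        induction E with
        | nil => simp [ends]
        | cons e E ih =>
          rw [ends, List.flatMap_cons, List.count_append]
          rw [ends] at ih
          rw [ih, List.countP_cons, List.countP_cons]
          simp only [List.count_cons, List.count_nil, decide_eq_true_eq, beq_iff_eq]
          omega
      have h1 : (confE G).countP (fun e => decide (e.1 = v)) ≤ 6 := by
        rw [confE, List.countP_flatMap]
        have h2 : (List.map (List.countP (fun e => decide (e.1 = v)) ∘ fun p =>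
            ((lits G).filter (fun q => cfl p q)).map (fun q => (p.1, q.1))) (lits G)) =
            (lits G).map (fun p => if p.1 = v then (lits G).countP (fun q => cfl p q) else 0) := by
          apply List.map_congr_left
          intro p _
          simp only [Function.comp, List.countP_map]
          by_cases hp : p.1 = v
          · rw [if_pos hp, List.countP_eq_length_filter (p := fun q => cfl p q),
              List.countP_eq_length]
            intro q _
            simpa using hp
          · rw [if_neg hp, List.countP_eq_zero]
            intro q _
            simpa using hp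
        rw [h2]
        exact (conf_single Prod.fst v (fun p => (lits G).countP (fun q => cfl p q)) 6 (lits G)
          hnd (fun p _ => hR p)).1
      have h3 : (confE G).countP (fun e => decide (e.2 = v)) ≤ 6 := by
        rw [confE, List.countP_flatMap]
        have h2 : (List.map (List.countP (fun e => decide (e.2 = v)) ∘ fun p =>
            ((lits G).filter (fun q => cfl p q)).map (fun q => (p.1, q.1))) (lits G)) =
            (lits G).map (fun p => (lits G).countP (fun q => cfl p q && decide (q.1 = v))) := by
          apply List.map_congr_left
          intro p _
          simp only [Function.comp, List.countP_map, List.countP_filter]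
          apply List.countP_congr
          intro q _
          simp [and_comm]
        rw [h2, conf_swap (fun p q => cfl p q) (fun q => decide (q.1 = v)) (lits G) (lits G)]
        simp only [decide_eq_true_eq]
        exact (conf_single Prod.fst v (fun q => (lits G).countP (fun p => cfl p q)) 6 (lits G)
          hnd (fun q _ => hL q)).1
      omega
    · have h1 : ∀ M : List ((ℕ × ℕ) × Lit W), (M.flatMap (fun p =>
          ((lits G).filter (fun q => cfl p q)).map (fun q => (p.1, q.1)))).length ≤
          6 * M.length := by
        intro M
        induction M with
        | nil => simp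
        | cons p M ih =>
          rw [List.flatMap_cons, List.length_append, List.length_map, List.length_cons,
            ← List.countP_eq_length_filter]
          have := hR p
          omega
      have h2 := h1 (lits G)
      have h3 : (lits G).length ≤ 3 * G.length := conf_len G hG 0
      rw [confE]
      omega

end main

end Pool.Agent.Lib.MP_87d05f_lc.ND
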