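import Pool.Agent.Lib.MP_87d05f_lc.ND.Stm

set_option autoImplicit false

namespace Pool.Agent.Lib.MP_87d05f_lc.ND

open Pool.Agent.PolyTime Function Turing


theorem csol_len {T : Type} [DecidableEq T] [Inhabited T] (hc : R_copy) {G : List FG}
    (hG : ∀ H ∈ G, 1 ≤ H.1) {E : List (T × T)} {t : List T} (ht : t ∈ cps G E) :
    t.length ≠ 0 ∧ ∀ w ∈ t, w ∈ ends E := by
  unfold cps at ht
  obtain ⟨H, hH, ht⟩ := List.mem_flatMap.1 ht
  obtain ⟨f, _, hf, _, rfl⟩ := (hc T H E t).1 ht
  have h1 := hG H hH
  refine ⟨by rw [List.length_ofFn]; omega, ?_⟩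
  intro w hw
  obtain ⟨i, rfl⟩ := (List.mem_ofFn' _ _).1 hw
  exact hf i

theorem csol_headD {T : Type} [Inhabited T] {t : List T} (ht : t.length ≠ 0) :
    t.headD default ∈ t := by
  cases t with
  | nil => exact absurd rfl ht
  | cons a t => exact List.mem_cons_self

theorem p_csol : S_csol := by
  intro hc hh T _ _ G hG E
  refine ⟨fun b => ⟨?_, ?_⟩, ?_⟩
  · rw [hh]
    intro t ht
    obtain ⟨hl, -⟩ := csol_len hc hG ht
    by_cases h : ∀ w ∈ t, b w = true
    · refine ⟨t.headD default, csol_headD hl, ?_⟩
      rw [decide_eq_true_eq]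
      unfold fst0
      refine List.mem_map.2 ⟨(t.length, t), List.mem_filter.2 ⟨?_, ?_⟩, rfl⟩
      · exact List.mem_append_right _ (List.mem_map.2 ⟨t, ht, rfl⟩)
      · unfold vio
        rw [decide_eq_false hl]
        simpa using h
    · push Not at h
      obtain ⟨w, hw, hb⟩ := h
      refine ⟨w, hw, ?_⟩
      rw [decide_eq_true_eq]
      unfold fst0
      refine List.mem_map.2 ⟨(0, [w]), List.mem_filter.2 ⟨?_, ?_⟩, rfl⟩
      · refine List.mem_append_left _ (List.mem_map.2 ⟨w, ?_, rfl⟩)
        rw [mem_ded]
        exact List.mem_flatten.2 ⟨t, ht, hw⟩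
      · have : b w = false := by simpa using hb
        simp [vio, this]
  · unfold fst0
    rw [List.length_map, List.countP_eq_length_filter]
  · intro a ha
    rw [hh] at ha
    unfold cons
    rw [List.countP_append, List.countP_map, List.countP_map]
    have h2 : List.countP ((fun r : ℕ × List T => vio r.1 (r.2.map (fun w => !(a w)))) ∘
        fun t : List T => (t.length, t)) (cps G E) = 0 := by
      rw [List.countP_eq_zero]
      intro t ht hv
      obtain ⟨hl, -⟩ := csol_len hc hG ht
      obtain ⟨w, hw, haw⟩ := ha t ht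
      simp only [comp_apply] at hv
      unfold vio at hv
      rw [decide_eq_false hl, cond_false, List.all_eq_true] at hv
      have := hv (!(a w)) (List.mem_map.2 ⟨w, hw, rfl⟩)
      rw [haw] at this
      exact absurd this (by decide)
    rw [h2, add_zero]
    have h1 : List.countP ((fun r : ℕ × List T => vio r.1 (r.2.map (fun w => !(a w)))) ∘
        fun w : T => (0, [w])) (ded (cps G E).flatten) =
        (List.filter a (ded (cps G E).flatten)).length := by
      rw [← List.countP_eq_length_filter]
      congr 1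
      funext w
      simp [vio]
    rw [h1, ← List.toFinset_card_of_nodup ((nodup_ded _).filter _)]
    unfold dsz
    refine Finset.card_le_card ?_
    intro w hw
    rw [List.mem_toFinset, List.mem_filter, mem_ded, List.mem_flatten] at hw
    obtain ⟨⟨t, ht, hwt⟩, haw⟩ := hw
    rw [Finset.mem_filter, List.mem_toFinset]
    exact ⟨(csol_len hc hG ht).2 w hwt, haw⟩

end Pool.Agent.Lib.MP_87d05f_lc.ND
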