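import Pool.Agent.Lib.MP_87d05f_lc.ND.Stm

set_option autoImplicit false

/-!
# cwf: form of the constraints
-/

namespace Pool.Agent.Lib.MP_87d05f_lc.ND

open Pool.Agent.PolyTime Function Turing

theorem p_cwf : S_cwf := by
  intro hcopy T _ _ G M hG E r hr
  rw [cons, List.mem_append] at hr
  rcases hr with hr | hr
  · obtain ⟨w, _, rfl⟩ := List.mem_map.mp hr
    left
    exact ⟨rfl, rfl⟩
  · obtain ⟨t, ht, rfl⟩ := List.mem_map.mp hr
    right
    rw [cps, List.mem_flatMap] at ht
    obtain ⟨H, hH, ht⟩ := ht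
    obtain ⟨f, _, _, _, rfl⟩ := (hcopy T H E t).mp ht
    have hlen : (List.ofFn f).length = H.1 := List.length_ofFn
    refine ⟨rfl, ?_, ?_⟩
    · show 1 ≤ (List.ofFn f).length
      rw [hlen]
      exact (hG H hH).1
    · show (List.ofFn f).length ≤ M
      rw [hlen]
      exact (hG H hH).2

end Pool.Agent.Lib.MP_87d05f_lc.ND
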