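import Pool.Agent.Lib.MP_87d05f_lc.ND.Stm

set_option autoImplicit false

/-!
# Piece fin: search machines for finite families of graphs
-/

namespace Pool.Agent.Lib.MP_87d05f_lc.ND

open Pool.Agent.PolyTime Function Turing

theorem fin_has_congr {T : Type} (E : List (T × T)) (a a' : T → Bool)
    (h : ∀ v ∈ ends E, a v = a' v) (H : FG) (hh : Has E a H) : Has E a' H := by
  obtain ⟨f, hf, h1, h2⟩ := hh
  refine ⟨f, hf, fun i => ⟨(h1 i).1, ?_⟩, h2⟩
  rw [← h _ (h1 i).1]
  exact (h1 i).2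

theorem fin_sol_congr {T : Type} (FF : Set FG) (E : List (T × T)) (a a' : T → Bool)
    (h : ∀ v ∈ ends E, a v = a' v) : Sol FF E a ↔ Sol FF E a' := by
  constructor
  · intro hs H hH hh
    exact hs H hH (fin_has_congr E a' a (fun v hv => (h v hv).symm) H hh)
  · intro hs H hH hh
    exact hs H hH (fin_has_congr E a a' h H hh)

theorem fin_dsz_congr {T : Type} [DecidableEq T] (E : List (T × T)) (a a' : T → Bool)
    (h : ∀ v ∈ ends E, a v = a' v) : dsz E a = dsz E a' := by
  unfold dsz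
  congr 1
  refine Finset.filter_congr fun v hv => ?_
  rw [h v (List.mem_toFinset.1 hv)]

theorem fin_sel (l : List Wd) (a : Wd → Bool) (v : Wd) :
    v ∈ selW l (l.map a) ↔ v ∈ l ∧ a v = true := by
  unfold selW
  rw [List.mem_map]
  constructor
  · rintro ⟨⟨x, i⟩, hx, rfl⟩
    rw [List.mem_filter] at hx
    obtain ⟨h1, h2⟩ := hx
    have h3 : l[i]? = some x := by
      have := (List.mk_mem_zipIdx_iff_getElem?).1 h1
      simpa using this
    have h4 : (l.map a).getD i false = a x := by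
      rw [List.getD_eq_getElem?_getD, List.getElem?_map, h3]
      rfl
    refine ⟨List.mem_of_getElem? h3, ?_⟩
    rw [← h4]
    exact h2
  · rintro ⟨h1, h2⟩
    obtain ⟨i, hi⟩ := List.mem_iff_getElem?.1 h1
    refine ⟨(v, i), ?_, rfl⟩
    rw [List.mem_filter]
    refine ⟨(List.mk_mem_zipIdx_iff_getElem?).2 (by simpa using hi), ?_⟩
    simp only
    rw [List.getD_eq_getElem?_getD, List.getElem?_map, hi]
    exact h2

theorem fin_edW (E : List (ℕ × ℕ)) : edW (enG E) = bE E := by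
  unfold edW enG bE
  rw [parseW_encW, List.map_map]
  rfl

theorem fin_ends_map {T T' : Type} (f : T → T') (E : List (T × T)) :
    ends (E.map (fun e => (f e.1, f e.2))) = (ends E).map f := by
  induction E with
  | nil => rfl
  | cons e E ih =>
    unfold ends at ih ⊢
    rw [List.map_cons, List.flatMap_cons, ih, List.flatMap_cons, List.map_append]
    rfl

theorem fin_map_ends {T : Type} (a : T → Bool) (E : List (T × T)) :
    (ends E).map a = E.flatMap (fun e => [a e.1, a e.2]) := by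
  induction E with
  | nil => rfl
  | cons e E ih =>
    unfold ends at ih ⊢
    rw [List.flatMap_cons, List.map_append, ih, List.flatMap_cons]
    rfl

theorem fin_arith {p q x y z c₀ : ℕ} (hp : 0 < p) (hq : 0 < q) (hx : (2 * q + 2 * p) * c₀ < x)
    (hy : (y : ℚ) ≤ (1 + (p : ℚ) / ((2 * q : ℕ) : ℚ)) * (z : ℚ)) (hz : z ≤ x + c₀) :
    (y : ℚ) ≤ (1 + (p : ℚ) / (q : ℕ)) * (x : ℚ) := by
  have hq' : (0 : ℚ) < (q : ℚ) := by exact_mod_cast hq
  have hp' : (1 : ℚ) ≤ (p : ℚ) := by exact_mod_cast hp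
  have hx' : (2 * (q : ℚ) + 2 * (p : ℚ)) * (c₀ : ℚ) < (x : ℚ) := by exact_mod_cast hx
  have hz' : (z : ℚ) ≤ (x : ℚ) + (c₀ : ℚ) := by exact_mod_cast hz
  have hc' : (0 : ℚ) ≤ (c₀ : ℚ) := by positivity
  have hxx : (0 : ℚ) ≤ (x : ℚ) := by positivity
  have h1 : (2 * (q : ℚ)) * (y : ℚ) ≤ (2 * (q : ℚ) + (p : ℚ)) * (z : ℚ) := by
    have h2 := mul_le_mul_of_nonneg_left hy (by positivity : (0 : ℚ) ≤ 2 * (q : ℚ))
    have h3 : (2 * (q : ℚ)) * ((1 + (p : ℚ) / ((2 * q : ℕ) : ℚ)) * (z : ℚ)) =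
        (2 * (q : ℚ) + (p : ℚ)) * (z : ℚ) := by
      push_cast
      field_simp
    rw [h3] at h2
    exact h2
  have h2 : (2 * (q : ℚ) + (p : ℚ)) * (z : ℚ) ≤ (2 * (q : ℚ) + (p : ℚ)) * ((x : ℚ) + (c₀ : ℚ)) :=
    mul_le_mul_of_nonneg_left hz' (by positivity)
  have h3 : (2 * (q : ℚ) + (p : ℚ)) * (c₀ : ℚ) ≤ (p : ℚ) * (x : ℚ) := by
    have h4 : (2 * (q : ℚ) + (p : ℚ)) * (c₀ : ℚ) ≤ (2 * (q : ℚ) + 2 * (p : ℚ)) * (c₀ : ℚ) :=
      mul_le_mul_of_nonneg_right (by linarith) hc'
    have h5 : (x : ℚ) ≤ (p : ℚ) * (x : ℚ) := by nlinarith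
    linarith
  have h4 : (2 * (q : ℚ)) * (y : ℚ) ≤ (2 * (q : ℚ)) * ((1 + (p : ℚ) / (q : ℕ)) * (x : ℚ)) := by
    have h5 : (2 * (q : ℚ)) * ((1 + (p : ℚ) / (q : ℕ)) * (x : ℚ)) =
        (2 * (q : ℚ) + (p : ℚ)) * (x : ℚ) + (p : ℚ) * (x : ℚ) := by
      field_simp
      ring
    rw [h5]
    linarith
  exact le_of_mul_le_mul_left h4 (by positivity)

theorem p_fin : S_fin := by
  intro hmap hany hcho hptB hptI hptO hbru hQ FL hFL D p q b hp hq hb
  obtain ⟨Φ, hne, hconn, hsol, hch⟩ := hcho FL hFL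
  obtain ⟨c₀, hc⟩ := hch D
  obtain ⟨c, hcdef⟩ : ∃ c, c = (2 * q + 2 * p) * c₀ := ⟨_, rfl⟩
  have hs : GFind enG (VDg D) (goodAny Φ ((p : ℚ) / ((2 * q : ℕ) : ℚ))) nvG b :=
    hany hQ Φ hne hconn D p (2 * q) b hp (by omega) hb
  have hed : PTime edW := (hptI Φ 0 0).2.2.2
  have hends : PTime (fun E : List (Wd × Wd) => ends E) := by
    unfold ends
    exact PTime.flatMap (f := fun (_ : List (Wd × Wd)) (e : Wd × Wd) => [e.1, e.2]) PTime.id
      (PTime.cons (PTime.fst.comp PTime.snd) (PTime.cons (PTime.snd.comp PTime.snd)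
        (PTime.const [])))
  have hh : PTime (fun x => mydiv (ded (ends (edW x))).length b) :=
    mydiv_ptime (PTime.length (ded_ptime (hends.comp hed))) (PTime.const b)
  have ho : PTime (fun r : List Bool × List Bool =>
      indW (edW r.1) (bruteW FL c (edW r.1) (selW (ends (edW r.1)) r.2))) := by
    have h1 : PTime (fun r : List Bool × List Bool => edW r.1) := hed.comp PTime.fst
    have h2 : PTime (fun r : List Bool × List Bool => selW (ends (edW r.1)) r.2) :=
      (hptB FL c).2.comp ((hends.comp h1).pair PTime.snd)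
    have h3 : PTime (fun r : List Bool × List Bool =>
        bruteW FL c (edW r.1) (selW (ends (edW r.1)) r.2)) :=
      (hptB FL c).1.comp (h1.pair h2)
    exact (hptO Φ 0).2.1.comp (h1.pair h3)
  refine find_transfer (R := 2) PTime.id hh ho (fun E _ => nvG_le E) ?_ hs
  intro E hV
  have hdeg : ∀ v, (ends E).count v ≤ D := hV.2.2
  have hnv : (ded (ends (edW (enG E)))).length = nvG E := by
    rw [fin_edW, ded_length]
    exact (hmap ℕ Wd Nat.bits bits_injective E).2.2.1
  refine ⟨E, hV, rfl, ?_, ?_, ?_⟩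
  · rintro w ⟨a, rfl, ⟨G, hG, hGs⟩, hopt⟩
    constructor
    · have h1 : (E.flatMap (fun e => [a e.1, a e.2])).length = 2 * E.length := by
        rw [← fin_map_ends, List.length_map]
        exact length_ends E
      rw [h1]
      have := length_le_enG E
      omega
    · obtain ⟨-, -, -, hmS, hmd, hmx⟩ := hmap ℕ Wd Nat.bits bits_injective E
      obtain ⟨a₁, ha₁⟩ := hmx a
      have ha₁' : ∀ v, a₁ (Nat.bits v) = a v := fun v => congrFun ha₁ v
      have hbE : E.map (fun e => (Nat.bits e.1, Nat.bits e.2)) = bE E := rfl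
      rw [hbE] at hmS hmd
      have hendsE : ends (bE E) = (ends E).map Nat.bits := fin_ends_map Nat.bits E
      have hw : E.flatMap (fun e => [a e.1, a e.2]) = (ends (bE E)).map a₁ := by
        rw [hendsE, List.map_map, ← fin_map_ends]
        refine List.map_congr_left fun v _ => ?_
        exact (ha₁' v).symm
      simp only
      rw [fin_edW, hw]
      obtain ⟨S, hSdef⟩ : ∃ S, S = selW (ends (bE E)) ((ends (bE E)).map a₁) := ⟨_, rfl⟩
      rw [← hSdef]
      have hmem : ∀ v, v ∈ S ↔ v ∈ ends (bE E) ∧ a₁ v = true := by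
        intro v
        rw [hSdef]
        exact fin_sel _ _ _
      have hagree : ∀ v ∈ ends (bE E), decide (v ∈ S) = a₁ v := by
        intro v hv
        by_cases h : a₁ v = true
        · rw [h]
          exact decide_eq_true ((hmem v).2 ⟨hv, h⟩)
        · rw [Bool.eq_false_iff.2 h]
          exact decide_eq_false fun h' => h ((hmem v).1 h').2
      have hFa : Sol {H | H ∈ FL} E a := hsol E a ⟨G, hG, hGs⟩
      have hFS : Sol {H | H ∈ FL} (bE E) (fun v => decide (v ∈ S)) := by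
        rw [fin_sol_congr _ _ _ a₁ hagree, hmS, ha₁]
        exact hFa
      have hdS : dsz (bE E) (fun v => decide (v ∈ S)) = dsz E a := by
        rw [fin_dsz_congr _ _ a₁ hagree, hmd, ha₁]
      obtain ⟨hb1, hb2, hb3⟩ := hbru FL c (bE E) S hFS (fun v hv => ((hmem v).1 hv).1)
      obtain ⟨B, hB⟩ : ∃ B, B = bruteW FL c (bE E) S := ⟨_, rfl⟩
      rw [← hB] at hb1 hb2 hb3 ⊢
      refine ⟨fun v => decide (Nat.bits v ∈ B), ?_, ?_, ?_⟩
      · unfold indW
        rw [hendsE, List.map_map]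
        exact fin_map_ends (fun v => decide (Nat.bits v ∈ B)) E
      · exact (hmS {H | H ∈ FL} (fun v => decide (v ∈ B))).1 hb1
      · intro a' ha'
        have hdB : dsz E (fun v => decide (Nat.bits v ∈ B)) =
            dsz (bE E) (fun v => decide (v ∈ B)) := (hmd (fun v => decide (v ∈ B))).symm
        rw [hdB]
        rcases Nat.lt_or_ge c (dsz E a') with hlt | hle
        · obtain ⟨G', hG', a'', hs'', hd''⟩ := hc E hdeg a' ha'
          have h1 := hopt G' hG' a'' hs''
          have h2 : (dsz (bE E) (fun v => decide (v ∈ B)) : ℚ) ≤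
              (1 + (p : ℚ) / ((2 * q : ℕ) : ℚ)) * (dsz E a'' : ℚ) := by
            refine le_trans ?_ h1
            rw [hdS] at hb2
            exact_mod_cast hb2
          exact fin_arith hp hq (by rw [← hcdef]; exact hlt) h2 hd''
        · obtain ⟨a₂, ha₂⟩ := hmx a'
          have h1 : Sol {H | H ∈ FL} (bE E) a₂ := by
            rw [hmS, ha₂]
            exact ha'
          have h2 : dsz (bE E) a₂ = dsz E a' := by
            rw [hmd, ha₂]
          have h3 := hb3 a₂ h1 (by rw [h2]; exact hle)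
          rw [h2] at h3
          have h4 : (dsz (bE E) (fun v => decide (v ∈ B)) : ℚ) ≤ (dsz E a' : ℚ) := by
            exact_mod_cast h3
          have h5 : (0 : ℚ) ≤ (p : ℚ) / (q : ℕ) * (dsz E a' : ℚ) := by positivity
          calc (dsz (bE E) (fun v => decide (v ∈ B)) : ℚ) ≤ (dsz E a' : ℚ) := h4
            _ ≤ (1 + (p : ℚ) / (q : ℕ)) * (dsz E a' : ℚ) := by
              rw [add_mul, one_mul]
              linarith
  · rw [hnv, mydiv_eq hb]
  · rw [hnv, mydiv_eq hb]

end Pool.Agent.Lib.MP_87d05f_lc.ND
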