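import Pool.Agent.Lib.MP_87d05f_lc.ND.Stm

set_option autoImplicit false

/-!
# Piece gshp: the shape of the vertices of the gadget graph
-/

namespace Pool.Agent.Lib.MP_87d05f_lc.ND

open Function

private theorem gshp_ends {T : Type} (E : List (T × T)) (p : T) :
    p ∈ ends E ↔ ∃ q, adjL E p q := by
  unfold ends adjL
  simp only [List.mem_flatMap, List.mem_cons, List.not_mem_nil, or_false]
  constructor
  · rintro ⟨e, he, rfl | rfl⟩
    · exact ⟨e.2, Or.inl he⟩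
    · exact ⟨e.1, Or.inr he⟩
  · rintro ⟨q, h | h⟩
    · exact ⟨_, h, Or.inl rfl⟩
    · exact ⟨_, h, Or.inr rfl⟩

private theorem gshp_mem {T : Type} {E : List (T × T)} {e : T × T} (he : e ∈ E) :
    e.1 ∈ ends E ∧ e.2 ∈ ends E := by
  constructor
  · exact List.mem_flatMap.2 ⟨e, he, by simp⟩
  · exact List.mem_flatMap.2 ⟨e, he, by simp⟩

/-- the place of a vertex of `J` -/
private theorem gshp_pl {V : Type} (J : FG) (c d : Fin J.1) (C : ℕ → Bool) (hc : C c = false)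
    (hd : C d = true) (u v : V) (x : Fin J.1) :
    (plJ J c d C u v x = (0, 0, u, u) ∧ C x = false) ∨
    (plJ J c d C u v x = (0, 0, v, v) ∧ C x = true) ∨
    (C x = true ∧ x ≠ d ∧ plJ J c d C u v x = (2, (x : ℕ), u, v)) ∨
    (C x = false ∧ x ≠ c ∧ plJ J c d C u v x = (3, (x : ℕ), u, u)) := by
  unfold plJ slotJ
  by_cases h1 : x = c
  · subst h1
    left
    refine ⟨?_, hc⟩
    rw [if_pos rfl]
    rfl
  · have h1' : (x : ℕ) ≠ (c : ℕ) := fun h => h1 (Fin.ext h)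
    by_cases h2 : x = d
    · subst h2
      right; left
      refine ⟨?_, hd⟩
      rw [if_neg h1', if_pos rfl]
      rfl
    · have h2' : (x : ℕ) ≠ (d : ℕ) := fun h => h2 (Fin.ext h)
      by_cases h3 : C x = true
      · right; right; left
        refine ⟨h3, h2, ?_⟩
        rw [if_neg h1', if_neg h2', if_pos h3]
        rfl
      · right; right; right
        refine ⟨by simpa using h3, h1, ?_⟩
        rw [if_neg h1', if_neg h2', if_neg h3]
        rfl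

theorem p_gshp : S_gshp := by
  intro hg J c d C L V _ B hc hd p hp
  rw [gshp_ends] at hp
  obtain ⟨q, hq⟩ := hp
  rw [hg] at hq
  rcases hq with ⟨u, hu, x, y, -, hx, -, rfl, -⟩ | ⟨e, he, x, y, -, -, rfl, -⟩ |
    ⟨e, he, i, x, y, -, rfl, -⟩
  · rcases gshp_pl J c d C hc hd u u x with ⟨h, -⟩ | ⟨h, -⟩ | ⟨h, -, -⟩ | ⟨h1, h2, h3⟩
    · exact Or.inl ⟨u, hu, h⟩
    · exact Or.inl ⟨u, hu, h⟩
    · rw [h] at hx
      exact absurd hx (by decide)
    · exact Or.inr (Or.inr (Or.inl ⟨u, hu, x, h1, h2, h3⟩))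
  · rcases gshp_pl J c d C hc hd e.1 e.2 x with ⟨h, -⟩ | ⟨h, -⟩ | ⟨h1, h2, h3⟩ | ⟨h1, h2, h3⟩
    · exact Or.inl ⟨e.1, (gshp_mem he).1, h⟩
    · exact Or.inl ⟨e.2, (gshp_mem he).2, h⟩
    · exact Or.inr (Or.inl ⟨e, he, x, h1, h2, h3⟩)
    · exact Or.inr (Or.inr (Or.inl ⟨e.1, (gshp_mem he).1, x, h1, h2, h3⟩))
  · exact Or.inr (Or.inr (Or.inr ⟨e, he, i, x, rfl⟩))

end Pool.Agent.Lib.MP_87d05f_lc.ND
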