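import Pool.Agent.Lib.MP_87d05f_lc.ND.Stm

set_option autoImplicit false

/-!
# A near-optimal assignment gives a near-optimal solution
-/

namespace Pool.Agent.Lib.MP_87d05f_lc.ND

open Pool.Agent.PolyTime Function Turing

/-- `pick` chooses a member of the list and it is not longer than the others -/
private theorem near_pick (l₀ : List Wd) (L : List (List Wd)) :
    pick l₀ L ∈ l₀ :: L ∧ ∀ l ∈ l₀ :: L, (pick l₀ L).length ≤ l.length := by
  induction L generalizing l₀ with
  | nil => simp [pick]
  | cons a L ih =>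
    have h : pick l₀ (a :: L) = pick (bif decide (a.length < l₀.length) then a else l₀) L := rfl
    by_cases hlt : a.length < l₀.length
    · have h2 : pick l₀ (a :: L) = pick a L := by rw [h]; simp [hlt]
      rw [h2]
      obtain ⟨h3, h4⟩ := ih a
      refine ⟨List.mem_cons_of_mem _ h3, ?_⟩
      intro l hl
      rcases List.mem_cons.1 hl with rfl | hl
      · exact (h4 a List.mem_cons_self).trans hlt.le
      · exact h4 l hl
    · have h2 : pick l₀ (a :: L) = pick l₀ L := by rw [h]; simp [hlt]
      rw [h2]
      obtain ⟨h3, h4⟩ := ih l₀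
      have h5 := h4 l₀ List.mem_cons_self
      refine ⟨?_, ?_⟩
      · rcases List.mem_cons.1 h3 with h | h
        · rw [h]; exact List.mem_cons_self
        · exact List.mem_cons_of_mem _ (List.mem_cons_of_mem _ h)
      · intro l hl
        rcases List.mem_cons.1 hl with rfl | hl
        · exact h5
        · rcases List.mem_cons.1 hl with rfl | hl
          · omega
          · exact h4 l (List.mem_cons_of_mem _ hl)

/-- alignment of the values -/
private theorem near_disV (β : ℕ → Wd → Bool) (F : List (ℕ × (ℕ × List Wd))) :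
    disV F (F.flatMap (fun r => r.2.2.map (β r.1))) = F.map (fun r => (r, r.2.2.map (β r.1))) := by
  induction F with
  | nil => rfl
  | cons r F ih =>
    rw [List.flatMap_cons, disV, List.map_cons, List.take_left' (by simp),
      List.drop_left' (by simp), ih]

/-- other families do not contribute -/
private theorem near_fstZ_ne (β : ℕ → Wd → Bool) (L : List (ℕ × List (ℕ × List Wd))) (j : ℕ)
    (h : ∀ p ∈ L, p.1 ≠ j) :
    fstZ j ((L.flatMap (fun p => p.2.map (fun c => (p.1, c)))).map
      (fun r => (r, r.2.2.map (β r.1)))) = [] := by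
  unfold fstZ
  rw [List.map_eq_nil_iff, List.filter_eq_nil_iff]
  intro z hz
  rw [List.mem_map] at hz
  obtain ⟨r, hr, rfl⟩ := hz
  rw [List.mem_flatMap] at hr
  obtain ⟨p, hp, hr⟩ := hr
  rw [List.mem_map] at hr
  obtain ⟨c, _, rfl⟩ := hr
  have := h p hp
  simp [this]

private theorem near_fstZ_append (j : ℕ) (A B : List ((ℕ × (ℕ × List Wd)) × List Bool)) :
    fstZ j (A ++ B) = fstZ j A ++ fstZ j B := by
  unfold fstZ
  rw [List.filter_append, List.map_append]

private theorem near_fstZ_one (β : ℕ → Wd → Bool) (j : ℕ) (K : List (ℕ × List Wd)) :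
    fstZ j ((K.map (fun c => (j, c))).map (fun r => (r, r.2.2.map (β r.1)))) = fst0 K (β j) := by
  induction K with
  | nil => rfl
  | cons c K ih =>
    unfold fstZ fst0 at ih ⊢
    rw [List.map_cons, List.map_cons, List.filter_cons, List.filter_cons]
    by_cases h : vio c.1 (c.2.map (β j)) = true
    · simp only [h, decide_true, Bool.and_true, if_true, List.map_cons, ih]
      rfl
    · have h' : vio c.1 (c.2.map (β j)) = false := by simpa using h
      simp only [h', decide_true, Bool.and_false, Bool.false_eq_true, if_false, ih]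

/-- the constraints of family `p.1` -/
private theorem near_fstZ (β : ℕ → Wd → Bool) (L : List (ℕ × List (ℕ × List Wd)))
    (hL : (L.map Prod.fst).Nodup) (p : ℕ × List (ℕ × List Wd)) (hp : p ∈ L) :
    fstZ p.1 ((L.flatMap (fun p => p.2.map (fun c => (p.1, c)))).map
      (fun r => (r, r.2.2.map (β r.1)))) = fst0 p.2 (β p.1) := by
  induction L with
  | nil => simp at hp
  | cons a L ih =>
    rw [List.flatMap_cons, List.map_append, near_fstZ_append]
    rw [List.map_cons, List.nodup_cons] at hL
    rcases List.mem_cons.1 hp with rfl | hp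
    · rw [near_fstZ_one, near_fstZ_ne, List.append_nil]
      intro q hq h
      exact hL.1 (h ▸ List.mem_map_of_mem hq)
    · rw [ih hL.2 hp]
      have h1 := near_fstZ_ne β [a] p.1 (by
        intro q hq h
        rw [List.mem_singleton] at hq
        rw [hq] at h
        exact hL.1 (h ▸ List.mem_map_of_mem hp))
      rw [List.flatMap_cons, List.flatMap_nil, List.append_nil] at h1
      rw [h1, List.nil_append]

/-- exchange of one term -/
private theorem near_sum {X : Type} (L : List (ℕ × X)) (hL : (L.map Prod.fst).Nodup) (p : ℕ × X)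
    (hp : p ∈ L) (F F' : ℕ × X → ℕ) (h : ∀ r ∈ L, r.1 ≠ p.1 → F r = F' r) :
    (L.map F).sum + F' p = (L.map F').sum + F p := by
  induction L with
  | nil => simp at hp
  | cons a L ih =>
    rw [List.map_cons, List.nodup_cons] at hL
    rw [List.map_cons, List.map_cons, List.sum_cons, List.sum_cons]
    rcases List.mem_cons.1 hp with rfl | hp
    · have : L.map F = L.map F' := by
        apply List.map_congr_left
        intro r hr
        apply h r (List.mem_cons_of_mem _ hr)
        intro h'
        exact hL.1 (h' ▸ List.mem_map_of_mem hr)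
      rw [this]
      omega
    · have h1 := ih hL.2 hp (fun r hr => h r (List.mem_cons_of_mem _ hr))
      have h2 := h a List.mem_cons_self (by
        intro h'
        exact hL.1 (h' ▸ List.mem_map_of_mem hp))
      omega

/-- the size of a set given by a list -/
private theorem near_dsz (E : List (Wd × Wd)) (l : List Wd) (a : Wd → Bool)
    (h : ∀ v, a v = true → v ∈ l) : dsz E a ≤ l.length := by
  unfold dsz
  refine (Finset.card_le_card ?_).trans (List.toFinset_card_le l)
  intro v hv
  rw [Finset.mem_filter] at hv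
  rw [List.mem_toFinset]
  exact h v hv.2

private theorem near_dec (P : Prop) (d : Decidable P) : @decide P d = true ↔ P :=
  decide_eq_true_iff

private theorem near_ded_len (l : List Wd) : (ded l).length ≤ l.length := by
  rw [ded_length]
  exact List.toFinset_card_le l

theorem p_near : S_near := by
  intro hcsol Φ C₀ p q E hΦ hq hH hC β hβ S hS
  have hcs : ∀ G ∈ Φ, (∀ b : Wd → Bool, (∀ a : Wd → Bool,
      (∀ v, a v = true ↔ v ∈ fst0 (cons G E) b) → Sol {H | H ∈ G} E a) ∧
      (fst0 (cons G E) b).length = (cons G E).countP (fun r => vio r.1 (r.2.map b))) ∧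
      (∀ a : Wd → Bool, Sol {H | H ∈ G} E a →
        (cons G E).countP (fun r => vio r.1 (r.2.map (fun w => !(a w)))) ≤ dsz E a) := by
    intro G hG
    obtain ⟨h1, h2⟩ := hcsol Wd G (hH G hG) E
    refine ⟨fun b => ⟨fun a ha => ?_, (h1 b).2⟩, h2⟩
    have h5 : ∀ g : Wd → Bool, Sol {H | H ∈ G} E g →
        (∀ v, g v = true ↔ v ∈ fst0 (cons G E) b) → Sol {H | H ∈ G} E a := by
      intro g h hg
      have h6 : a = g := funext fun v => Bool.eq_iff_iff.2 ((ha v).trans (hg v).symm)
      rw [h6]
      exact h
    refine h5 _ (h1 b).1 ?_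
    intro v
    exact near_dec _ _
  -- the optimum
  have hex : ∃ n : ℕ, ∃ G ∈ Φ, ∃ a : Wd → Bool, Sol {H | H ∈ G} E a ∧ dsz E a = n := by
    obtain ⟨G, hG⟩ := List.exists_mem_of_ne_nil Φ hΦ
    exact ⟨_, G, hG, (fun v => decide (v ∈ fst0 (cons G E) (fun _ => true))),
      ((hcs G hG).1 (fun _ => true)).1 _ (fun v => decide_eq_true_iff), rfl⟩
  classical
  obtain ⟨G, hG, a, ha, hτ⟩ := Nat.find_spec hex
  have hmin : ∀ G' ∈ Φ, ∀ a' : Wd → Bool, Sol {H | H ∈ G'} E a' → dsz E a ≤ dsz E a' := by
    intro G' hG' a' ha'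
    rw [hτ]
    exact Nat.find_min' hex ⟨G', hG', a', ha', rfl⟩
  have hlen : ∀ G' ∈ Φ, dsz E a ≤ (cons G' E).length := by
    intro G' hG'
    obtain ⟨h1, h2⟩ := (hcs G' hG').1 (fun _ => true)
    refine (hmin G' hG' (fun v => decide (v ∈ fst0 (cons G' E) (fun _ => true)))
      (h1 _ (fun v => decide_eq_true_iff))).trans
      ((near_dsz E (fst0 (cons G' E) (fun _ => true)) _
      (fun v hv => of_decide_eq_true hv)).trans ?_)
    rw [h2]
    exact List.countP_le_length
  have hGC := hC G hG a ha
  -- the index
  obtain ⟨j, hj, hjG⟩ := List.mem_iff_getElem.1 hG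
  have hmem : ∀ r ∈ allC Φ E, ∃ G' ∈ Φ, r.2 = cons G' E := by
    intro r hr
    unfold allC at hr
    rw [List.mem_map] at hr
    obtain ⟨x, hx, rfl⟩ := hr
    rw [List.mem_zipIdx_iff_getElem?] at hx
    exact ⟨x.1, List.mem_of_getElem? hx, rfl⟩
  have hjA : (j, cons G E) ∈ allC Φ E := by
    unfold allC
    rw [List.mem_map]
    refine ⟨(G, j), ?_, rfl⟩
    rw [List.mem_zipIdx_iff_getElem?]
    simp [hj, hjG]
  have hcand : (j, cons G E) ∈ candL C₀ (allC Φ E) := by
    unfold candL
    rw [List.mem_filter]
    refine ⟨hjA, ?_⟩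
    rw [List.all_eq_true]
    intro r hr
    obtain ⟨G', hG', hr'⟩ := hmem r hr
    rw [decide_eq_true_iff, hr']
    exact hGC.trans (Nat.mul_le_mul_left _ (hlen G' hG'))
  have hcandA : ∀ r ∈ candL C₀ (allC Φ E), r ∈ allC Φ E ∧
      ∀ q ∈ allC Φ E, r.2.length ≤ C₀ * q.2.length := by
    intro r hr
    unfold candL at hr
    rw [List.mem_filter] at hr
    refine ⟨hr.1, ?_⟩
    intro q hq
    have := List.all_eq_true.1 hr.2 q hq
    rwa [decide_eq_true_iff] at this
  have hnodup : ((candL C₀ (allC Φ E)).map Prod.fst).Nodup := by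
    have h1 : ((allC Φ E).map Prod.fst).Nodup := by
      unfold allC
      rw [List.map_map]
      have : (Prod.fst ∘ fun p : List FG × ℕ => (p.2, cons p.1 E)) = Prod.snd := rfl
      rw [this, List.zipIdx_map_snd]
      exact List.nodup_range'
    unfold candL
    exact h1.sublist (List.Sublist.map _ List.filter_sublist)
  -- the number of constraints
  have hinsl : (insW Φ C₀ E).length ≤ Φ.length * C₀ ^ 2 * dsz E a := by
    unfold insW
    rw [List.length_flatMap]
    have h1 : ∀ x ∈ (candL C₀ (allC Φ E)).map
        (fun p => (p.2.map (fun c => (p.1, c))).length), x ≤ C₀ * (C₀ * dsz E a) := by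
      intro x hx
      rw [List.mem_map] at hx
      obtain ⟨r, hr, rfl⟩ := hx
      rw [List.length_map]
      exact ((hcandA r hr).2 _ hjA).trans (Nat.mul_le_mul_left _ hGC)
    have h2 := List.sum_le_card_nsmul _ _ h1
    refine h2.trans ?_
    rw [List.length_map, smul_eq_mul]
    have h3 : (candL C₀ (allC Φ E)).length ≤ Φ.length := by
      unfold candL
      refine (List.length_filter_le _ _).trans ?_
      unfold allC
      simp
    calc (candL C₀ (allC Φ E)).length * (C₀ * (C₀ * dsz E a))
        ≤ Φ.length * (C₀ * (C₀ * dsz E a)) := Nat.mul_le_mul_right _ h3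
      _ = _ := by ring
  -- the counts
  have hcount : ∀ β' : ℕ → Wd → Bool,
      (insW Φ C₀ E).countP (fun r => vio r.2.1 (r.2.2.map (β' r.1))) =
        ((candL C₀ (allC Φ E)).map
          (fun p => p.2.countP (fun c => vio c.1 (c.2.map (β' p.1))))).sum := by
    intro β'
    unfold insW
    rw [List.countP_flatMap]
    congr 1
    apply List.map_congr_left
    intro r _
    simp only [Function.comp]
    rw [List.countP_map]
    rfl
  have hmain : q * (cons G E).countP (fun c => vio c.1 (c.2.map (β j))) ≤
      q * dsz E a + p * (Φ.length * C₀ ^ 2) * dsz E a := by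
    have h1 := hβ (Function.update β j (fun w => !(a w)))
    rw [hcount, hcount] at h1
    have h2 := near_sum (candL C₀ (allC Φ E)) hnodup (j, cons G E) hcand
      (fun p => p.2.countP (fun c => vio c.1 (c.2.map (β p.1))))
      (fun p => p.2.countP (fun c => vio c.1 (c.2.map
        (Function.update β j (fun w => !(a w)) p.1)))) (by
        intro r _ hr
        have : Function.update β j (fun w => !(a w)) r.1 = β r.1 := Function.update_of_ne hr _ _
        simp only [this])
    have h3 : (cons G E).countP (fun c => vio c.1 (c.2.map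
        (Function.update β j (fun w => !(a w)) j))) ≤ dsz E a := by
      rw [Function.update_self]
      exact (hcs G hG).2 a ha
    simp only at h2
    set s1 := ((candL C₀ (allC Φ E)).map
          (fun p => p.2.countP (fun c => vio c.1 (c.2.map (β p.1))))).sum
    set s2 := ((candL C₀ (allC Φ E)).map
          (fun p => p.2.countP (fun c => vio c.1 (c.2.map
            (Function.update β j (fun w => !(a w)) p.1))))).sum
    set m1 := (cons G E).countP (fun c => vio c.1 (c.2.map (β j)))
    set m2 := (cons G E).countP (fun c => vio c.1 (c.2.map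
        (Function.update β j (fun w => !(a w)) j)))
    have h4 : q * m1 ≤ q * m2 + p * (insW Φ C₀ E).length := by
      have : q * s1 + q * m2 = q * s2 + q * m1 := by rw [← Nat.mul_add, ← Nat.mul_add, h2]
      omega
    calc q * m1 ≤ q * m2 + p * (insW Φ C₀ E).length := h4
      _ ≤ q * dsz E a + p * (Φ.length * C₀ ^ 2 * dsz E a) :=
        Nat.add_le_add (Nat.mul_le_mul_left _ h3) (Nat.mul_le_mul_left _ hinsl)
      _ = _ := by ring
  -- the chosen set
  have hfst : ∀ r ∈ candL C₀ (allC Φ E), fstZ r.1 (disV (insW Φ C₀ E)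
      ((insW Φ C₀ E).flatMap (fun r => r.2.2.map (β r.1)))) = fst0 r.2 (β r.1) := by
    intro r hr
    rw [near_disV]
    exact near_fstZ β _ hnodup r hr
  have hSp := near_pick (ded (ends E)) ((candL C₀ (allC Φ E)).map
    (fun p => ded (fstZ p.1 (disV (insW Φ C₀ E)
      ((insW Φ C₀ E).flatMap (fun r => r.2.2.map (β r.1)))))))
  have hS' : S = pick (ded (ends E)) ((candL C₀ (allC Φ E)).map
    (fun p => ded (fstZ p.1 (disV (insW Φ C₀ E)
      ((insW Φ C₀ E).flatMap (fun r => r.2.2.map (β r.1))))))) := hS
  rw [← hS'] at hSp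
  obtain ⟨hSm, hSl⟩ := hSp
  refine ⟨?_, ?_⟩
  · rcases List.mem_cons.1 hSm with h | h
    · refine ⟨G, hG, ?_⟩
      rintro H hHG ⟨f, _, hf, _⟩
      have h1 := hH G hG H hHG
      have h2 := hf ⟨0, h1⟩
      rw [h] at h2
      simp [mem_ded, h2.1] at h2
    · rw [List.mem_map] at h
      obtain ⟨r, hr, hrS⟩ := h
      rw [hfst r hr] at hrS
      obtain ⟨G', hG', hrG⟩ := hmem r (hcandA r hr).1
      refine ⟨G', hG', ?_⟩
      have h1 := ((hcs G' hG').1 (β r.1)).1
      rw [← hrG] at h1
      rw [← hrS]
      apply h1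
      intro v
      rw [decide_eq_true_iff, mem_ded]
  · intro G' hG' a' ha'
    have h1 : S.length ≤ (cons G E).countP (fun c => vio c.1 (c.2.map (β j))) := by
      have h2 := hSl (ded (fst0 (cons G E) (β j))) (by
        apply List.mem_cons_of_mem
        rw [List.mem_map]
        exact ⟨(j, cons G E), hcand, by rw [hfst _ hcand]⟩)
      refine h2.trans ((near_ded_len _).trans ?_)
      rw [((hcs G hG).1 (β j)).2]
    have h2 := hmin G' hG' a' ha'
    calc q * dsz E (fun v => decide (v ∈ S)) ≤ q * S.length :=
        Nat.mul_le_mul_left _ (near_dsz E S _ (fun v hv => of_decide_eq_true hv))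
      _ ≤ q * (cons G E).countP (fun c => vio c.1 (c.2.map (β j))) := Nat.mul_le_mul_left _ h1
      _ ≤ q * dsz E a + p * (Φ.length * C₀ ^ 2) * dsz E a := hmain
      _ ≤ q * dsz E a' + p * (Φ.length * C₀ ^ 2) * dsz E a' :=
        Nat.add_le_add (Nat.mul_le_mul_left _ h2) (Nat.mul_le_mul_left _ h2)

end Pool.Agent.Lib.MP_87d05f_lc.ND
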