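import Pool.Agent.Lib.MP_87d05f_lc.ND.Stm

set_option autoImplicit false

/-!
Piece ptB: the exhaustive search is computable in polynomial time.
-/

namespace Pool.Agent.Lib.MP_87d05f_lc.ND

open Pool.Agent.PolyTime Function Turing

theorem ptB_ends {α : Type} [SCode α] {E : α → List (Wd × Wd)} (hE : PTime E) :
    PTime (fun a => ends (E a)) := by
  have h : PTime (fun E : List (Wd × Wd) => ends E) :=
    PTime.flatMap (l := fun E : List (Wd × Wd) => E)
      (f := fun (_ : List (Wd × Wd)) (e : Wd × Wd) => [e.1, e.2]) PTime.id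
      (PTime.cons (PTime.fst.comp PTime.snd)
        (PTime.cons (PTime.snd.comp PTime.snd) (PTime.const [])))
  exact h.comp hE

theorem ptB_tups (ht : ∀ k : ℕ, PTime (fun l : List Wd => tup l k)) : ∀ L : List ℕ,
    PTime (fun l : List Wd => L.flatMap (fun k => tup l k))
  | [] => PTime.const []
  | k :: L => (PTime.append (ht k) (ptB_tups ht L)).of_eq fun _ => rfl

theorem ptB_mem {α : Type} [SCode α] {f : α → Wd} {l : α → List Wd} (hf : PTime f)
    (hl : PTime l) : PTime (fun a => decide (f a ∈ l a)) :=
  (PTime.mem hf hl).of_eq fun _ => decide_eq_decide.2 Iff.rfl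

theorem ptB_hits (hc : ∀ G : List FG, PTime (fun E : List (Wd × Wd) => cps G E)) (FL : List FG) :
    PTime (fun p : List (Wd × Wd) × List Wd => hitsW FL p.1 p.2) := by
  have h1 : PTime (fun q : (List (Wd × Wd) × List Wd) × List Wd =>
      q.2.any (fun w => decide (w ∈ q.1.2))) :=
    PTime.any (l := fun q : (List (Wd × Wd) × List Wd) × List Wd => q.2)
      (p := fun (q : (List (Wd × Wd) × List Wd) × List Wd) (w : Wd) => decide (w ∈ q.1.2))
      PTime.snd (ptB_mem PTime.snd (PTime.snd.comp (PTime.fst.comp PTime.fst)))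
  exact PTime.all (l := fun p : List (Wd × Wd) × List Wd => cps FL p.1)
    (p := fun (p : List (Wd × Wd) × List Wd) (t : List Wd) => t.any (fun w => decide (w ∈ p.2)))
    ((hc FL).comp PTime.fst) h1

theorem p_ptB : S_ptB := by
  intro hC hO FL c
  obtain ⟨-, hc, -, ht⟩ := hC
  obtain ⟨-, -, hp⟩ := hO [] 0
  constructor
  · have h1 : PTime (fun p : List (Wd × Wd) × List Wd =>
        (List.range (c + 1)).flatMap (fun k => tup (ded (ends p.1)) k)) :=
      (ptB_tups ht (List.range (c + 1))).comp (ded_ptime (ptB_ends PTime.fst))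
    have h2 : PTime (fun p : List (Wd × Wd) × List Wd =>
        ((List.range (c + 1)).flatMap (fun k => tup (ded (ends p.1)) k)).filter
          (hitsW FL p.1)) :=
      PTime.filter (l := fun p : List (Wd × Wd) × List Wd =>
          (List.range (c + 1)).flatMap (fun k => tup (ded (ends p.1)) k))
        (p := fun (p : List (Wd × Wd) × List Wd) (t : List Wd) => hitsW FL p.1 t) h1
        ((ptB_hits hc FL).comp ((PTime.fst.comp PTime.fst).pair PTime.snd))
    have h3 : PTime (fun p : List (Wd × Wd) × List Wd =>
        (((List.range (c + 1)).flatMap (fun k => tup (ded (ends p.1)) k)).filter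
          (hitsW FL p.1)).map ded) :=
      PTime.map (l := fun p : List (Wd × Wd) × List Wd =>
          ((List.range (c + 1)).flatMap (fun k => tup (ded (ends p.1)) k)).filter
            (hitsW FL p.1))
        (f := fun (_ : List (Wd × Wd) × List Wd) (t : List Wd) => ded t) h2
        (ded_ptime PTime.snd)
    exact hp.comp ((ded_ptime PTime.snd).pair h3)
  · have h1 : PTime (fun p : List Wd × List Bool =>
        p.1.zipIdx.filter (fun q => p.2.getD q.2 false)) :=
      PTime.filter (l := fun p : List Wd × List Bool => p.1.zipIdx)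
        (p := fun (p : List Wd × List Bool) (q : Wd × ℕ) => p.2.getD q.2 false)
        (PTime.zipIdx PTime.fst)
        (PTime.getD (PTime.snd.comp PTime.snd) (PTime.snd.comp PTime.fst) (PTime.const false))
    exact PTime.map (l := fun p : List Wd × List Bool =>
        p.1.zipIdx.filter (fun q => p.2.getD q.2 false))
      (f := fun (_ : List Wd × List Bool) (q : Wd × ℕ) => q.1) h1 (PTime.fst.comp PTime.snd)

end Pool.Agent.Lib.MP_87d05f_lc.ND
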